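import Mathlib

/-!
# Definitions: black-box constructions of SVL instances from one-way permutations
-/

namespace Pool.Agent.H616R2.SVL

/-- the `m`-bit strings -/
abbrev BS (m : ℕ) : Type := Fin m → Bool

/-- bit strings of any length -/
abbrev Str : Type := (m : ℕ) × BS m

/-- a family `π = (π_m)` of permutations `π_m` of `{0,1}^m` -/
abbrev PermFam : Type := ∀ m : ℕ, Equiv.Perm (BS m)

/-- Oracle computations: they ask queries `q : Q`, get an answer in `A q`, and finally return an
element of `R`. Everything between two queries is for free (unbounded computing power). -/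
inductive OComp {Q : Type} (A : Q → Type) (R : Type) : Type
  | ret (r : R) : OComp A R
  | ask (q : Q) (k : A q → OComp A R) : OComp A R

/-- the result of the computation when the oracle is `o` -/
def OComp.run {Q : Type} {A : Q → Type} {R : Type} (o : ∀ q, A q) : OComp A R → R
  | .ret r => r
  | .ask q k => (k (o q)).run o

/-- `T.CostLE sz b`: on every possible sequence of answers, the total cost of the queries of `T` is
at most `b`, where a query `q` costs `sz q + 1`. -/
def OComp.CostLE {Q : Type} {A : Q → Type} {R : Type} (sz : Q → ℕ) : ℕ → OComp A R → Prop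
  | _, .ret _ => True
  | b, .ask q k => sz q + 1 ≤ b ∧ ∀ a, (k a).CostLE sz (b - (sz q + 1))

/-- apply a function to the result -/
def OComp.map {Q : Type} {A : Q → Type} {R R' : Type} (f : R → R') : OComp A R → OComp A R'
  | .ret r => .ret (f r)
  | .ask q k => .ask q (fun a => (k a).map f)

/-- computations with oracle `π`: the query `x ∈ {0,1}^m` is answered by `π_m(x) ∈ {0,1}^m` -/
abbrev PComp (R : Type) : Type := OComp (Q := Str) (fun x => BS x.1) R

/-- the oracle `π` -/
def orc (π : PermFam) : ∀ x : Str, BS x.1 := fun x => π x.1 x.2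

/-! ### Circuits with `π`-gates -/

/-- Gates. Wires are numbered from `0`; the first wires carry the input. `nand i j` adds one wire,
carrying the NAND of wires `i` and `j`. `orc ws`, with `ws` a list of `m` wires, adds `m` wires
carrying `π_m` of the string on the wires `ws`. A wire that does not exist carries `0`. -/
inductive Gate : Type
  | nand (i j : ℕ) : Gate
  | orc (ws : List ℕ) : Gate

/-- size of a gate -/
def Gate.size : Gate → ℕ
  | .nand _ _ => 1
  | .orc ws => 1 + ws.length

/-- evaluation of a list of gates, starting from the list `w` of wire values -/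
def runGates : List Gate → List Bool → PComp (List Bool)
  | [], w => .ret w
  | .nand i j :: g, w => runGates g (w ++ [!(w.getD i false && w.getD j false)])
  | .orc ws :: g, w =>
      .ask ⟨ws.length, fun t => w.getD (ws.get t) false⟩ (fun a => runGates g (w ++ List.ofFn a))

/-- a circuit with `π`-gates: a list of gates and a list of output wires -/
structure Circ where
  gates : List Gate
  outs : List ℕ

/-- size of a circuit -/
def Circ.size (c : Circ) : ℕ := (c.gates.map Gate.size).sum + c.outs.length

/-- the computation made by the circuit on input `x` -/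
def Circ.comp (c : Circ) (x : List Bool) : PComp (List Bool) :=
  (runGates c.gates x).map (fun w => c.outs.map (fun i => w.getD i false))

/-! ### SVL instances -/

/-- An instance `(S, V, L)`: `S` is used as a circuit `{0,1}^n → {0,1}^n` and `V` as a circuit
`{0,1}^n × [2^n] → {0,1}`. The elements of `[2^n]` are represented by `Fin (2 ^ n)`. -/
structure Inst where
  n : ℕ
  S : Circ
  V : Circ
  L : Fin (2 ^ n)

/-- size of an instance -/
def Inst.size (I : Inst) : ℕ := I.n + I.S.size + I.V.size

/-- the computation of `S` on `x` -/
def Inst.Sc (I : Inst) (x : BS I.n) : PComp (BS I.n) :=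
  (I.S.comp (List.ofFn x)).map (fun w j => w.getD j false)

/-- the computation of `V` on `(x, i)`; the index `i` is given to `V` in binary, on `n` wires -/
def Inst.Vc (I : Inst) (x : BS I.n) (i : Fin (2 ^ I.n)) : PComp Bool :=
  (I.V.comp (List.ofFn x ++ List.ofFn (fun j : Fin I.n => Nat.testBit i j))).map
    (fun w => w.getD 0 false)

/-- the function `S^π` -/
def Inst.Sf (I : Inst) (π : PermFam) (x : BS I.n) : BS I.n := (I.Sc x).run (orc π)

/-- the function `V^π` -/
def Inst.Vf (I : Inst) (π : PermFam) (x : BS I.n) (i : Fin (2 ^ I.n)) : Bool :=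
  (I.Vc x i).run (orc π)

/-- the vertex `S^(i+e)(0^n)` of the line. (With `e = 0` the element `i` of `Fin (2 ^ n)` stands for
the index `i`, with `e = 1` it stands for the index `i + 1`.) -/
def Inst.vertex (I : Inst) (e : ℕ) (π : PermFam) (i : ℕ) : BS I.n :=
  (I.Sf π)^[i + e] (fun _ => false)

/-- validity of an instance: `V(x, i) = 1 ↔ x = S^i(0^n)`, for all `x` and `i` -/
def Inst.Valid (I : Inst) (e : ℕ) (π : PermFam) : Prop :=
  ∀ (x : BS I.n) (i : Fin (2 ^ I.n)), I.Vf π x i = true ↔ x = I.vertex e π i

/-- the solution `S^L(0^n)` -/
def Inst.sol (I : Inst) (e : ℕ) (π : PermFam) : BS I.n := I.vertex e π I.L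

/-! ### Samplers, adversaries and reductions -/

/-- An oracle sampler `G^π`: on security parameter `n` and random coins `r` it outputs an instance.
Its computing power is not bounded. -/
structure Sampler where
  coins : ℕ → ℕ
  comp : ∀ n, BS (coins n) → PComp Inst

/-- the output of `G^π(1^n; r)` -/
def Sampler.out (G : Sampler) (π : PermFam) (n : ℕ) (r : BS (G.coins n)) : Inst :=
  (G.comp n r).run (orc π)

/-- The only bounds on a sampler: its queries have polynomial total length and its output has
polynomial size. -/
def Sampler.Poly (G : Sampler) : Prop :=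
  ∃ c : ℕ, ∀ n r, (G.comp n r).CostLE (fun x => x.1) (n ^ c + c) ∧
    ∀ π, (G.out π n r).size ≤ n ^ c + c

/-- an adversary: on input `1^n` and an instance it outputs a candidate solution -/
abbrev Adv : Type := ℕ → (I : Inst) → BS I.n

/-- the queries of a reduction: strings (to `π`) and inputs `(1^n, I)` (to the adversary) -/
abbrev RQ : Type := Str ⊕ (ℕ × Inst)

/-- the types of the answers -/
abbrev RA : RQ → Type := Sum.elim (fun x => BS x.1) (fun p => BS p.2.n)

/-- the oracles of a reduction -/
def orcR (π : PermFam) (A : Adv) : ∀ q : RQ, RA q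
  | .inl x => π x.1 x.2
  | .inr p => A p.1 p.2

/-- A reduction `R^{A,π}`: on security parameter `n`, challenge `y ∈ {0,1}^n` and random coins `r`
it outputs a string in `{0,1}^n`. Its computing power is not bounded. -/
structure Reduction where
  coins : ℕ → ℕ
  comp : ∀ n, BS n → BS (coins n) → OComp RA (BS n)

/-- The only bound on a reduction: its queries to `π` and to the adversary have polynomial total
length. -/
def Reduction.Poly (R : Reduction) : Prop :=
  ∃ c : ℕ, ∀ n y r, (R.comp n y r).CostLE
    (Sum.elim (fun x => x.1) (fun p => p.1 + p.2.size)) (n ^ c + c)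

open Classical in
/-- the probability that `A` solves the instance output by `G^π(1^n)` -/
noncomputable def solveProb (e : ℕ) (G : Sampler) (π : PermFam) (A : Adv) (n : ℕ) : ℝ :=
  ((Finset.univ.filter fun r : BS (G.coins n) =>
    A n (G.out π n r) = (G.out π n r).sol e π).card : ℝ) / 2 ^ G.coins n

open Classical in
/-- the probability, over a uniform `x ∈ {0,1}^n` and the coins, that `R^{A,π}(1^n, π_n(x)) = x` -/
noncomputable def invProb (R : Reduction) (π : PermFam) (A : Adv) (n : ℕ) : ℝ :=
  ((Finset.univ.filter fun p : BS n × BS (R.coins n) =>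
    (R.comp n (π n p.1) p.2).run (orcR π A) = p.1).card : ℝ) / (2 ^ n * 2 ^ R.coins n)

/-- negligible functions: `n^{-ω(1)}` -/
def Negl (f : ℕ → ℝ) : Prop := ∀ c : ℕ, ∀ᶠ n : ℕ in Filter.atTop, f n ≤ 1 / (n : ℝ) ^ c

/-- `(G, R)` is a fully black-box construction of a hard-on-average distribution of valid SVL
instances from a one-way permutation. -/
def FullyBB (e : ℕ) (G : Sampler) (R : Reduction) : Prop :=
  G.Poly ∧ R.Poly ∧ (∀ π n r, (G.out π n r).Valid e π) ∧
    ∀ (π : PermFam) (A : Adv), ¬ Negl (solveProb e G π A) → ¬ Negl (invProb R π A)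

end Pool.Agent.H616R2.SVL
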