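import Mathlib
import Pool.Agent.H616R2.SVLDefs

/-!
# Partial assignments and pseudo-expectations of oracle computations
-/

namespace Pool.Agent.H616R2.SVL

open Finset

/-- a partial assignment: a finite set of pairs `(x, y)`, meaning `π_m(x) = y` -/
abbrev Ctx : Type := Finset ((m : ℕ) × (BS m × BS m))

/-- the pair `(x,y)` -/
def pr (x : Str) (y : BS x.1) : (m : ℕ) × (BS m × BS m) := ⟨x.1, (x.2, y)⟩

theorem pr_inj {x : Str} {y y' : BS x.1} (h : pr x y = pr x y') : y = y' := by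
  unfold pr at h
  simpa using h

theorem pr_eq {x x' : Str} {y : BS x.1} {y' : BS x'.1} (h : pr x y = pr x' y') : x = x' := by
  unfold pr at h
  rcases x with ⟨m, x⟩
  rcases x' with ⟨m', x'⟩
  simp only [Sigma.mk.injEq] at h
  obtain ⟨h1, h2⟩ := h
  subst h1
  simp only [heq_eq_eq, Prod.mk.injEq] at h2
  rw [h2.1]

/-- functionality -/
def Fn (ρ : Ctx) : Prop := ∀ (x : Str) (y y' : BS x.1), pr x y ∈ ρ → pr x y' ∈ ρ → y = y'

/-- `x` is not in the domain of `ρ` -/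
def Fresh (ρ : Ctx) (x : Str) : Prop := ∀ y, pr x y ∉ ρ

/-- consistency with a permutation family -/
def Cons (ρ : Ctx) (π : PermFam) : Prop := ∀ (x : Str) (y : BS x.1), pr x y ∈ ρ → π x.1 x.2 = y

theorem Cons.fn {ρ : Ctx} {π : PermFam} (h : Cons ρ π) : Fn ρ := fun x y y' h1 h2 => by
  rw [← h x y h1, ← h x y' h2]

theorem Cons.mono {ρ ρ' : Ctx} {π : PermFam} (h : Cons ρ' π) (hs : ρ ⊆ ρ') : Cons ρ π :=
  fun x y h1 => h x y (hs h1)

theorem Fn.mono {ρ ρ' : Ctx} (h : Fn ρ') (hs : ρ ⊆ ρ') : Fn ρ :=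
  fun x y y' h1 h2 => h x y y' (hs h1) (hs h2)

theorem Fn.insert {ρ : Ctx} (h : Fn ρ) {x : Str} (hx : Fresh ρ x) (y : BS x.1) :
    Fn (insert (pr x y) ρ) := by
  intro z a b ha hb
  rw [Finset.mem_insert] at ha hb
  rcases ha with ha | ha <;> rcases hb with hb | hb
  · have := pr_eq ha
    subst this
    rw [pr_inj ha, pr_inj hb]
  · have := pr_eq ha
    subst this
    exact absurd hb (hx b)
  · have := pr_eq hb
    subst this
    exact absurd ha (hx a)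
  · exact h z a b ha hb

theorem Cons.insert {ρ : Ctx} {π : PermFam} (h : Cons ρ π) (x : Str) :
    Cons (insert (pr x (π x.1 x.2)) ρ) π := by
  intro z a ha
  rw [Finset.mem_insert] at ha
  rcases ha with ha | ha
  · have := pr_eq ha
    subst this
    rw [pr_inj ha]
  · exact h z a ha

/-- the query `x` is fresh for `insert (pr x' y') ρ` if it is for `ρ` and `x ≠ x'` -/
theorem Fresh.insert {ρ : Ctx} {x x' : Str} (h : Fresh ρ x) (hne : x ≠ x') (y' : BS x'.1) :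
    Fresh (insert (pr x' y') ρ) x := by
  intro y hy
  rw [Finset.mem_insert] at hy
  rcases hy with hy | hy
  · exact hne (pr_eq hy)
  · exact h y hy

theorem Fresh.mono {ρ ρ' : Ctx} {x : Str} (h : Fresh ρ' x) (hs : ρ ⊆ ρ') : Fresh ρ x :=
  fun y hy => h y (hs hy)

/-- `T` makes at most `d` queries, all of length at most `M` -/
def DepthLE {R : Type} (M : ℕ) : ℕ → PComp R → Prop
  | _, .ret _ => True
  | d, .ask x k => x.1 ≤ M ∧ 1 ≤ d ∧ ∀ y, DepthLE M (d - 1) (k y)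

theorem DepthLE.mono {R : Type} {M : ℕ} (T : PComp R) :
    ∀ {M' d d' : ℕ}, M ≤ M' → d ≤ d' → DepthLE M d T → DepthLE M' d' T := by
  induction T with
  | ret r => intros; trivial
  | ask x k ih =>
    intro M' d d' hM hd h
    exact ⟨h.1.trans hM, h.2.1.trans hd, fun y => ih y hM (Nat.sub_le_sub_right hd 1) (h.2.2 y)⟩

/-- leaves of `T` started in the context `ρ` -/
def Leaf {R : Type} : PComp R → Ctx → Ctx → R → Prop
  | .ret r, ρ, ρ', r' => ρ' = ρ ∧ r' = r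
  | .ask x k, ρ, ρ', r' =>
      (∃ y, pr x y ∈ ρ ∧ Leaf (k y) ρ ρ' r') ∨
      (Fresh ρ x ∧ ∃ y, Leaf (k y) (insert (pr x y) ρ) ρ' r')

open Classical in
/-- sum over the leaves -/
noncomputable def PE {R : Type} (φ : Ctx → R → ℝ) : PComp R → Ctx → ℝ
  | .ret r, ρ => φ ρ r
  | .ask x k, ρ =>
      if h : ∃ y, pr x y ∈ ρ then PE φ (k h.choose) ρ
      else ∑ y, PE φ (k y) (insert (pr x y) ρ)

theorem PE_ask_mem {R : Type} (φ : Ctx → R → ℝ) {ρ : Ctx} (hρ : Fn ρ) {x : Str} {y : BS x.1}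
    (h : pr x y ∈ ρ) (k : BS x.1 → PComp R) : PE φ (.ask x k) ρ = PE φ (k y) ρ := by
  have h' : ∃ y, pr x y ∈ ρ := ⟨y, h⟩
  rw [PE, dif_pos h', hρ x _ _ h'.choose_spec h]

theorem PE_ask_fresh {R : Type} (φ : Ctx → R → ℝ) {ρ : Ctx} {x : Str}
    (h : Fresh ρ x) (k : BS x.1 → PComp R) :
    PE φ (.ask x k) ρ = ∑ y, PE φ (k y) (insert (pr x y) ρ) := by
  rw [PE, dif_neg (not_exists.2 h)]

theorem fresh_or {ρ : Ctx} (x : Str) : (∃ y, pr x y ∈ ρ) ∨ Fresh ρ x := by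
  by_cases h : ∃ y, pr x y ∈ ρ
  · exact Or.inl h
  · exact Or.inr (not_exists.1 h)

theorem Leaf.sub {R : Type} {T : PComp R} : ∀ {ρ ρ' : Ctx} {r : R}, Leaf T ρ ρ' r → ρ ⊆ ρ' := by
  induction T with
  | ret r => intro ρ ρ' r' h; rw [h.1]
  | ask x k ih =>
    intro ρ ρ' r' h
    rcases h with ⟨y, _, h⟩ | ⟨_, y, h⟩
    · exact ih y h
    · exact (Finset.subset_insert _ _).trans (ih y h)

theorem Leaf.fn {R : Type} {T : PComp R} :
    ∀ {ρ ρ' : Ctx} {r : R}, Leaf T ρ ρ' r → Fn ρ → Fn ρ' := by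
  induction T with
  | ret r => intro ρ ρ' r' h hρ; rw [h.1]; exact hρ
  | ask x k ih =>
    intro ρ ρ' r' h hρ
    rcases h with ⟨y, _, h⟩ | ⟨hf, y, h⟩
    · exact ih y h hρ
    · exact ih y h (hρ.insert hf y)

theorem Leaf.card {R : Type} {T : PComp R} {M : ℕ} :
    ∀ {ρ ρ' : Ctx} {r : R} {d : ℕ}, DepthLE M d T → Leaf T ρ ρ' r → (ρ' \ ρ).card ≤ d := by
  induction T with
  | ret r => intro ρ ρ' r' d _ h; rw [h.1]; simp
  | ask x k ih =>
    intro ρ ρ' r' d hd h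
    rcases h with ⟨y, _, h⟩ | ⟨hf, y, h⟩
    · exact (ih y (hd.2.2 y) h).trans (Nat.sub_le _ _)
    · have h1 := ih y (hd.2.2 y) h
      have h2 : ρ' \ ρ ⊆ insert (pr x y) (ρ' \ insert (pr x y) ρ) := by
        intro p hp
        rw [Finset.mem_sdiff] at hp
        rw [Finset.mem_insert, Finset.mem_sdiff, Finset.mem_insert]
        by_cases hpx : p = pr x y
        · exact Or.inl hpx
        · exact Or.inr ⟨hp.1, fun h' => h'.elim hpx hp.2⟩
      have h3 := (Finset.card_le_card h2).trans (Finset.card_insert_le _ _)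
      have := hd.2.1
      omega

theorem Leaf.len {R : Type} {T : PComp R} {M : ℕ} :
    ∀ {ρ ρ' : Ctx} {r : R} {d : ℕ}, DepthLE M d T → Leaf T ρ ρ' r → ∀ p ∈ ρ' \ ρ, p.1 ≤ M := by
  induction T with
  | ret r => intro ρ ρ' r' d _ h; rw [h.1]; simp
  | ask x k ih =>
    intro ρ ρ' r' d hd h p hp
    rcases h with ⟨y, _, h⟩ | ⟨hf, y, h⟩
    · exact ih y (hd.2.2 y) h p hp
    · by_cases hpx : p = pr x y
      · rw [hpx]; exact hd.1
      · refine ih y (hd.2.2 y) h p ?_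
        rw [Finset.mem_sdiff] at hp ⊢
        rw [Finset.mem_insert]
        exact ⟨hp.1, fun h' => h'.elim hpx hp.2⟩

theorem Leaf.run {R : Type} {T : PComp R} {π : PermFam} :
    ∀ {ρ ρ' : Ctx} {r : R}, Leaf T ρ ρ' r → Cons ρ' π → T.run (orc π) = r := by
  induction T with
  | ret r => intro ρ ρ' r' h _; rw [h.2]; rfl
  | ask x k ih =>
    intro ρ ρ' r' h hc
    rcases h with ⟨y, hy, h⟩ | ⟨_, y, h⟩
    · have h1 : π x.1 x.2 = y := hc x y (h.sub hy)
      have := ih y h hc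
      rw [OComp.run]
      rw [show orc π x = y from h1]
      exact this
    · have h1 : π x.1 x.2 = y := hc x y (h.sub (Finset.mem_insert_self _ _))
      have := ih y h hc
      rw [OComp.run]
      rw [show orc π x = y from h1]
      exact this

theorem Leaf.exists {R : Type} (T : PComp R) {π : PermFam} :
    ∀ {ρ : Ctx}, Cons ρ π → ∃ ρ', Leaf T ρ ρ' (T.run (orc π)) ∧ Cons ρ' π := by
  induction T with
  | ret r => intro ρ h; exact ⟨ρ, ⟨rfl, rfl⟩, h⟩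
  | ask x k ih =>
    intro ρ hc
    rcases fresh_or (ρ := ρ) x with ⟨y, hy⟩ | hf
    · have h1 : π x.1 x.2 = y := hc x y hy
      obtain ⟨ρ', h2, h3⟩ := ih y hc
      refine ⟨ρ', Or.inl ⟨y, hy, ?_⟩, h3⟩
      rw [OComp.run]
      rw [show orc π x = y from h1]
      exact h2
    · obtain ⟨ρ', h2, h3⟩ := ih (π x.1 x.2) (hc.insert x)
      refine ⟨ρ', Or.inr ⟨hf, π x.1 x.2, ?_⟩, h3⟩
      rw [OComp.run]
      exact h2

/-- two leaves that are consistent with the same permutation family are equal -/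
theorem Leaf.unique {R : Type} {T : PComp R} {π : PermFam} :
    ∀ {ρ ρ1 ρ2 : Ctx} {r1 r2 : R}, Leaf T ρ ρ1 r1 → Leaf T ρ ρ2 r2 → Cons ρ1 π → Cons ρ2 π →
      ρ1 = ρ2 := by
  induction T with
  | ret r => intro ρ ρ1 ρ2 r1 r2 h1 h2 _ _; rw [h1.1, h2.1]
  | ask x k ih =>
    intro ρ ρ1 ρ2 r1 r2 h1 h2 c1 c2
    rcases h1 with ⟨y1, hy1, h1⟩ | ⟨hf1, y1, h1⟩ <;> rcases h2 with ⟨y2, hy2, h2⟩ | ⟨hf2, y2, h2⟩
    · have e1 : π x.1 x.2 = y1 := c1 x y1 (h1.sub hy1)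
      have e2 : π x.1 x.2 = y2 := c2 x y2 (h2.sub hy2)
      have : y1 = y2 := by rw [← e1, ← e2]
      subst this
      exact ih y1 h1 h2 c1 c2
    · exact absurd hy1 (hf2 y1)
    · exact absurd hy2 (hf1 y2)
    · have e1 : π x.1 x.2 = y1 := c1 x y1 (h1.sub (Finset.mem_insert_self _ _))
      have e2 : π x.1 x.2 = y2 := c2 x y2 (h2.sub (Finset.mem_insert_self _ _))
      have : y1 = y2 := by rw [← e1, ← e2]
      subst this
      exact ih y1 h1 h2 c1 c2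

theorem PE_mono {R : Type} {φ φ' : Ctx → R → ℝ} (T : PComp R) : ∀ {ρ : Ctx}, Fn ρ →
    (∀ ρ' r, Leaf T ρ ρ' r → φ ρ' r ≤ φ' ρ' r) → PE φ T ρ ≤ PE φ' T ρ := by
  induction T with
  | ret r => intro ρ _ h; exact h ρ r ⟨rfl, rfl⟩
  | ask x k ih =>
    intro ρ hρ h
    rcases fresh_or (ρ := ρ) x with ⟨y, hy⟩ | hf
    · rw [PE_ask_mem φ hρ hy, PE_ask_mem φ' hρ hy]
      exact ih y hρ (fun ρ' r hl => h ρ' r (Or.inl ⟨y, hy, hl⟩))
    · rw [PE_ask_fresh φ hf, PE_ask_fresh φ' hf]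
      exact Finset.sum_le_sum fun y _ => ih y (hρ.insert hf y)
        (fun ρ' r hl => h ρ' r (Or.inr ⟨hf, y, hl⟩))

theorem PE_congr {R : Type} {φ φ' : Ctx → R → ℝ} (T : PComp R) {ρ : Ctx} (hρ : Fn ρ)
    (h : ∀ ρ' r, Leaf T ρ ρ' r → φ ρ' r = φ' ρ' r) : PE φ T ρ = PE φ' T ρ :=
  le_antisymm (PE_mono T hρ fun ρ' r hl => (h ρ' r hl).le)
    (PE_mono T hρ fun ρ' r hl => (h ρ' r hl).ge)

theorem PE_sum {R ι : Type} (s : Finset ι) (φ : ι → Ctx → R → ℝ) (T : PComp R) : ∀ (ρ : Ctx),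
    PE (fun ρ' r => ∑ i ∈ s, φ i ρ' r) T ρ = ∑ i ∈ s, PE (φ i) T ρ := by
  induction T with
  | ret r => intro ρ; rfl
  | ask x k ih =>
    intro ρ
    by_cases h : ∃ y, pr x y ∈ ρ
    · simp only [PE, dif_pos h]; exact ih _ ρ
    · simp only [PE, dif_neg h]
      rw [Finset.sum_comm]
      exact Finset.sum_congr rfl fun y _ => ih y _

theorem PE_zero {R : Type} (T : PComp R) (ρ : Ctx) :
    PE (fun _ (_ : R) => (0 : ℝ)) T ρ = 0 := by
  have := PE_sum (∅ : Finset ℕ) (fun _ _ (_ : R) => (0 : ℝ)) T ρ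
  simpa using this

theorem PE_mul {R : Type} (c : ℝ) (φ : Ctx → R → ℝ) (T : PComp R) : ∀ (ρ : Ctx),
    PE (fun ρ' r => c * φ ρ' r) T ρ = c * PE φ T ρ := by
  induction T with
  | ret r => intro ρ; rfl
  | ask x k ih =>
    intro ρ
    by_cases h : ∃ y, pr x y ∈ ρ
    · simp only [PE, dif_pos h]; exact ih _ ρ
    · simp only [PE, dif_neg h]
      rw [Finset.mul_sum]
      exact Finset.sum_congr rfl fun y _ => ih y _

/-- one query commutes with a computation -/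
theorem PE_ask_comm {R : Type} (x : Str) (ψ : BS x.1 → Ctx → R → ℝ) (T : PComp R) :
    ∀ {ρ : Ctx}, Fn ρ → Fresh ρ x → ∀ (Ψ : Ctx → R → ℝ),
    (∀ ρ' r, Fn ρ' → ∀ y, pr x y ∈ ρ' → Ψ ρ' r = ψ y ρ' r) →
    (∀ ρ' r, Fn ρ' → Fresh ρ' x → Ψ ρ' r = ∑ y, ψ y (insert (pr x y) ρ') r) →
    ∑ y, PE (ψ y) T (insert (pr x y) ρ) = PE Ψ T ρ := by
  induction T with
  | ret r =>
    intro ρ hρ hf Ψ _ h2
    simp only [PE]
    exact (h2 ρ r hρ hf).symm
  | ask x' k ih =>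
    intro ρ hρ hf Ψ h1 h2
    by_cases hxx : x' = x
    · subst hxx
      rw [PE_ask_fresh Ψ hf]
      refine Finset.sum_congr rfl fun y _ => ?_
      rw [PE_ask_mem (ψ y) (hρ.insert hf y) (Finset.mem_insert_self _ _)]
      refine PE_congr _ (hρ.insert hf y) fun ρ' r hl => ?_
      exact (h1 ρ' r (hl.fn (hρ.insert hf y)) y (hl.sub (Finset.mem_insert_self _ _))).symm
    · rcases fresh_or (ρ := ρ) x' with ⟨y', hy'⟩ | hf'
      · rw [PE_ask_mem Ψ hρ hy', ← ih y' hρ hf Ψ h1 h2]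
        refine Finset.sum_congr rfl fun y _ => ?_
        rw [PE_ask_mem (ψ y) (hρ.insert hf y) (Finset.mem_insert_of_mem hy')]
      · rw [PE_ask_fresh Ψ hf']
        have e1 : ∀ y, PE (ψ y) (.ask x' k) (insert (pr x y) ρ) =
            ∑ y', PE (ψ y) (k y') (insert (pr x y) (insert (pr x' y') ρ)) := by
          intro y
          rw [PE_ask_fresh (ψ y) (hf'.insert hxx y)]
          refine Finset.sum_congr rfl fun y' _ => ?_
          rw [Finset.insert_comm]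
        rw [Finset.sum_congr rfl fun y _ => e1 y, Finset.sum_comm]
        refine Finset.sum_congr rfl fun y' _ => ?_
        exact ih y' (hρ.insert hf' y') (hf.insert (Ne.symm hxx) y') Ψ h1 h2

/-- two computations commute -/
theorem PE_comm {R R' : Type} (φ : Ctx → R → R' → ℝ) (T' : PComp R') (T : PComp R) :
    ∀ {ρ : Ctx}, Fn ρ →
    PE (fun ρ1 r => PE (fun ρ2 r' => φ ρ2 r r') T' ρ1) T ρ =
      PE (fun ρ2 r' => PE (fun ρ1 r => φ ρ1 r r') T ρ2) T' ρ := by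
  induction T with
  | ret r => intro ρ _; rfl
  | ask x k ih =>
    intro ρ hρ
    rcases fresh_or (ρ := ρ) x with ⟨y, hy⟩ | hf
    · rw [PE_ask_mem _ hρ hy, ih y hρ]
      refine PE_congr _ hρ fun ρ' r' hl => ?_
      rw [PE_ask_mem _ (hl.fn hρ) (hl.sub hy)]
    · rw [PE_ask_fresh _ hf]
      rw [Finset.sum_congr rfl fun y _ => ih y (hρ.insert hf y)]
      refine PE_ask_comm x (fun y ρ2 r' => PE (fun ρ1 r => φ ρ1 r r') (k y) ρ2) T' hρ hf
        _ ?_ ?_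
      · intro ρ' r hρ' y hy
        rw [PE_ask_mem _ hρ' hy]
      · intro ρ' r hρ' hf'
        rw [PE_ask_fresh _ hf']

/-- the weight function `w` is refined correctly by queries, in contexts that extend `Q` by less
than `D` pairs -/
def Ref (w : Ctx → ℝ) (Q : Ctx) (M D : ℕ) : Prop :=
  ∀ ρ, Q ⊆ ρ → Fn ρ → (ρ \ Q).card < D → ∀ x : Str, x.1 ≤ M → Fresh ρ x →
    ∑ y, w (insert (pr x y) ρ) = w ρ

theorem card_insert_sdiff {ρ Q : Ctx} (p) : (insert p ρ \ Q).card ≤ (ρ \ Q).card + 1 := by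
  refine (Finset.card_le_card ?_).trans (Finset.card_insert_le p (ρ \ Q))
  intro z hz
  rw [Finset.mem_sdiff, Finset.mem_insert] at hz
  rw [Finset.mem_insert, Finset.mem_sdiff]
  rcases hz with ⟨rfl | hz, hz'⟩
  · exact Or.inl rfl
  · exact Or.inr ⟨hz, hz'⟩

theorem PE_const {R : Type} {w : Ctx → ℝ} {Q : Ctx} {M D : ℕ} (hw : Ref w Q M D) (T : PComp R) :
    ∀ {ρ : Ctx} {d : ℕ}, Fn ρ → Q ⊆ ρ → DepthLE M d T → (ρ \ Q).card + d ≤ D →
      PE (fun ρ' _ => w ρ') T ρ = w ρ := by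
  induction T with
  | ret r => intro ρ d _ _ _ _; rfl
  | ask x k ih =>
    intro ρ d hρ hQ hd hD
    rcases fresh_or (ρ := ρ) x with ⟨y, hy⟩ | hf
    · rw [PE_ask_mem _ hρ hy]
      exact ih y hρ hQ (hd.2.2 y) (by have := hd.2.1; omega)
    · rw [PE_ask_fresh _ hf, ← hw ρ hQ hρ (by have := hd.2.1; omega) x hd.1 hf]
      refine Finset.sum_congr rfl fun y _ => ?_
      refine ih y (hρ.insert hf y) (hQ.trans (Finset.subset_insert _ _)) (hd.2.2 y) ?_
      have h1 := card_insert_sdiff (ρ := ρ) (Q := Q) (pr x y)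
      have := hd.2.1
      omega

end Pool.Agent.H616R2.SVL
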