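import Mathlib
import Pool.Agent.H616R2.SVLCore

/-!
# The pseudo-expectation identity for valid SVL instances
-/

namespace Pool.Agent.H616R2.SVL

open Finset

/-- weight of the accepting leaves -/
noncomputable def acc (w : Ctx → ℝ) : Ctx → Bool → ℝ := fun ρ b => if b then w ρ else 0

section

variable {X : Type} [Fintype X]

/-- total weight of the accepting leaves of the computations `V x`, `x : X` -/
noncomputable def tot (w : Ctx → ℝ) (V : X → PComp Bool) (ρ : Ctx) : ℝ :=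
  ∑ x : X, PE (acc w) (V x) ρ

theorem acc_comm (w : Ctx → ℝ) (V V' : X → PComp Bool) {ρ : Ctx} (hρ : Fn ρ) :
    ∑ x, PE (fun ρ'' b => if b then tot w V' ρ'' else 0) (V x) ρ =
      ∑ x', PE (fun ρ' b' => if b' then tot w V ρ' else 0) (V' x') ρ := by
  have e1 : ∀ x, PE (fun ρ'' b => if b then tot w V' ρ'' else 0) (V x) ρ =
      ∑ x', PE (fun ρ'' b => PE (fun ρ3 b' => if b then acc w ρ3 b' else 0) (V' x') ρ'') (V x) ρ := by
    intro x
    rw [← PE_sum]
    refine PE_congr _ hρ fun ρ' b _ => ?_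
    cases b
    · simp [PE_zero]
    · simp [tot]
  have e2 : ∀ x', PE (fun ρ' b' => if b' then tot w V ρ' else 0) (V' x') ρ =
      ∑ x, PE (fun ρ' b' => PE (fun ρ3 b => if b' then acc w ρ3 b else 0) (V x) ρ') (V' x') ρ := by
    intro x'
    rw [← PE_sum]
    refine PE_congr _ hρ fun ρ' b _ => ?_
    cases b
    · simp [PE_zero]
    · simp [tot]
  rw [Finset.sum_congr rfl fun x _ => e1 x, Finset.sum_congr rfl fun x _ => e2 x, Finset.sum_comm]
  refine Finset.sum_congr rfl fun x' _ => Finset.sum_congr rfl fun x _ => ?_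
  rw [PE_comm _ _ _ hρ]
  refine PE_congr _ hρ fun ρ' b hl => ?_
  refine PE_congr _ (hl.fn hρ) fun ρ'' b' _ => ?_
  unfold acc
  cases b <;> cases b' <;> simp

/-- transitivity -/
theorem tot_trans {w : Ctx → ℝ} {V V' : X → PComp Bool} {ρ : Ctx} (hρ : Fn ρ)
    (h1 : ∀ ρ'' x b, Leaf (V' x) ρ ρ'' b → tot w V ρ'' = w ρ'')
    (h1' : tot w V ρ = w ρ)
    (h2 : ∀ ρ' x', Leaf (V x') ρ ρ' true → tot w V' ρ' = w ρ') :
    tot w V' ρ = w ρ := by
  rw [← h1']
  have e1 : tot w V' ρ = ∑ x, PE (fun ρ'' b => if b then tot w V ρ'' else 0) (V' x) ρ := by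
    unfold tot
    refine Finset.sum_congr rfl fun x _ => PE_congr _ hρ fun ρ' b hl => ?_
    cases b
    · simp [acc]
    · have := h1 ρ' x true hl
      unfold tot at this
      simp [acc, this]
  have e2 : tot w V ρ = ∑ x', PE (fun ρ' b' => if b' then tot w V' ρ' else 0) (V x') ρ := by
    unfold tot
    refine Finset.sum_congr rfl fun x _ => PE_congr _ hρ fun ρ' b hl => ?_
    cases b
    · simp [acc]
    · have := h2 ρ' x hl
      unfold tot at this
      simp [acc, this]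
  rw [e1, e2]
  exact acc_comm w V' V hρ

/-- base case: a computation `T` finds the accepted element -/
theorem tot_base [DecidableEq X] {w : Ctx → ℝ} {Q : Ctx} {M D q : ℕ} (hw : Ref w Q M D)
    {V : X → PComp Bool} (hV : ∀ x, DepthLE M q (V x)) (T : PComp X) (hT : DepthLE M q T)
    {ρ : Ctx} (hρ : Fn ρ) (hQ : Q ⊆ ρ) (hD : (ρ \ Q).card + 2 * q ≤ D)
    (h : ∀ ρ1 z, Leaf T ρ ρ1 z → ∀ x ρ2 b, Leaf (V x) ρ1 ρ2 b → w ρ2 ≠ 0 → (b = true ↔ x = z)) :
    tot w V ρ = w ρ := by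
  have card_le : ∀ {ρ' : Ctx} {R : Type} {T' : PComp R} {r : R}, DepthLE M q T' →
      Leaf T' ρ ρ' r → (ρ' \ Q).card ≤ (ρ \ Q).card + q := by
    intro ρ' R T' r hd hl
    have h1 := hl.card hd
    have h2 : ρ' \ Q ⊆ (ρ' \ ρ) ∪ (ρ \ Q) := by
      intro p hp
      rw [Finset.mem_sdiff] at hp
      rw [Finset.mem_union, Finset.mem_sdiff, Finset.mem_sdiff]
      by_cases hpx : p ∈ ρ
      · exact Or.inr ⟨hpx, hp.2⟩
      · exact Or.inl ⟨hp.1, hpx⟩
    have h3 := (Finset.card_le_card h2).trans (Finset.card_union_le _ _)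
    omega
  have e1 : tot w V ρ =
      ∑ x, PE (fun ρ2 b => PE (fun ρ3 _ => acc w ρ3 b) T ρ2) (V x) ρ := by
    unfold tot
    refine Finset.sum_congr rfl fun x _ => PE_congr _ hρ fun ρ2 b hl => ?_
    cases b
    · simp [acc, PE_zero]
    · simp only [acc, if_true]
      exact (PE_const hw T (hl.fn hρ) (hQ.trans hl.sub) hT
        (by have := card_le (hV x) hl; omega)).symm
  have e2 : ∀ x, PE (fun ρ2 b => PE (fun ρ3 _ => acc w ρ3 b) T ρ2) (V x) ρ =
      PE (fun ρ1 z => if x = z then w ρ1 else 0) T ρ := by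
    intro x
    rw [PE_comm _ _ _ hρ]
    refine PE_congr _ hρ fun ρ1 z hl => ?_
    by_cases hxz : x = z
    · rw [if_pos hxz]
      rw [← PE_const hw (V x) (hl.fn hρ) (hQ.trans hl.sub) (hV x)
        (by have := card_le hT hl; omega)]
      refine PE_congr _ (hl.fn hρ) fun ρ2 b hl2 => ?_
      by_cases hw2 : w ρ2 = 0
      · simp [acc, hw2]
      · have := (h ρ1 z hl x ρ2 b hl2 hw2).2 hxz
        simp [acc, this]
    · rw [if_neg hxz, ← PE_zero (V x) ρ1]
      refine PE_congr _ (hl.fn hρ) fun ρ2 b hl2 => ?_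
      by_cases hw2 : w ρ2 = 0
      · simp [acc, hw2]
      · have := (h ρ1 z hl x ρ2 b hl2 hw2)
        cases b
        · simp [acc]
        · exact absurd (this.1 rfl) hxz
  rw [e1, Finset.sum_congr rfl fun x _ => e2 x, ← PE_sum]
  rw [← PE_const hw T hρ hQ hT (by omega)]
  refine PE_congr _ hρ fun ρ1 z _ => ?_
  simp

end

/-- all permutation families for which the context `ρ` holds and which satisfy `O` -/
def OkW (O : PermFam → Prop) (w : Ctx → ℝ) (Q : Ctx) (M D : ℕ) : Prop :=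
  ∀ ρ, Q ⊆ ρ → Fn ρ → (ρ \ Q).card ≤ D → (∀ p ∈ ρ \ Q, p.1 ≤ M) → w ρ ≠ 0 →
    ∃ π, Cons ρ π ∧ O π

theorem len_ext {Q ρ ρ' : Ctx} {M : ℕ} (h1 : ∀ p ∈ ρ \ Q, p.1 ≤ M) (h2 : ∀ p ∈ ρ' \ ρ, p.1 ≤ M) :
    ∀ p ∈ ρ' \ Q, p.1 ≤ M := by
  intro p hp
  rw [Finset.mem_sdiff] at hp
  by_cases hpx : p ∈ ρ
  · exact h1 p (Finset.mem_sdiff.2 ⟨hpx, hp.2⟩)
  · exact h2 p (Finset.mem_sdiff.2 ⟨hp.1, hpx⟩)

theorem card_ext {Q ρ ρ' : Ctx} {a b : ℕ} (h1 : (ρ \ Q).card ≤ a) (h2 : (ρ' \ ρ).card ≤ b) :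
    (ρ' \ Q).card ≤ a + b := by
  have h3 : ρ' \ Q ⊆ (ρ' \ ρ) ∪ (ρ \ Q) := by
    intro p hp
    rw [Finset.mem_sdiff] at hp
    rw [Finset.mem_union, Finset.mem_sdiff, Finset.mem_sdiff]
    by_cases hpx : p ∈ ρ
    · exact Or.inr ⟨hpx, hp.2⟩
    · exact Or.inl ⟨hp.1, hpx⟩
  have h4 := (Finset.card_le_card h3).trans (Finset.card_union_le _ _)
  omega

/-- Abstract line: `V j x` is the verification of `(x, j)`, `T j x` computes from the vertex `x` with
index `j` the vertex with index `j + 1`, `T0` computes the vertex with index `0`;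
`vt π j` is the vertex with index `j`. -/
theorem line_identity {X : Type} [Fintype X] [DecidableEq X] {N : ℕ}
    (V : ℕ → X → PComp Bool) (T : X → PComp X) (T0 : PComp X) (vt : PermFam → ℕ → X)
    (O : PermFam → Prop)
    (hO : ∀ π, O π → ∀ j < N, ∀ x, (V j x).run (orc π) = true ↔ x = vt π j)
    (hT0 : ∀ π, O π → T0.run (orc π) = vt π 0)
    (hT : ∀ π, O π → ∀ j, (T (vt π j)).run (orc π) = vt π (j + 1))
    {w : Ctx → ℝ} {Q : Ctx} {M D q : ℕ} (hw : Ref w Q M D) (hok : OkW O w Q M D)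
    (hdV : ∀ j x, DepthLE M q (V j x)) (hdT : ∀ x, DepthLE M q (T x)) (hdT0 : DepthLE M q T0)
    (t : ℕ) (hD : (t + 4) * q ≤ D) (hQ : Fn Q) {L : ℕ} (hL : L ≤ 2 ^ t) (hLN : L < N) :
    tot w (V L) Q = w Q := by
  -- the general claim
  have key : ∀ t : ℕ, ∀ ρ, Fn ρ → Q ⊆ ρ → (∀ p ∈ ρ \ Q, p.1 ≤ M) →
      (ρ \ Q).card + (t + 2) * q ≤ D → ∀ d, d ≤ 2 ^ t → ∀ i, i + d < N → ∀ x,
      (∀ π, O π → Cons ρ π → (V i x).run (orc π) = true) → tot w (V (i + d)) ρ = w ρ := by
    intro t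
    induction t with
    | zero =>
      intro ρ hρ hQρ hlen hc d hd i hi x hx
      have hd' : d = 0 ∨ d = 1 := by
        have : (2 : ℕ) ^ 0 = 1 := pow_zero 2
        omega
      have hc' : (ρ \ Q).card + 2 * q ≤ D := by simpa using hc
      rcases hd' with rfl | rfl
      · refine tot_base hw (hdV _) (.ret x) trivial hρ hQρ hc' ?_
        intro ρ1 z hl x' ρ2 b hl2 hw2
        obtain ⟨π, hπ, hOπ⟩ := hok ρ2 ((hQρ.trans hl.sub).trans hl2.sub)
          (hl2.fn (hl.fn hρ)) (by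
            have h1 : (ρ1 \ Q).card ≤ (ρ \ Q).card + q :=
              card_ext le_rfl (hl.card (show DepthLE M q (.ret x : PComp X) from trivial))
            have h2 := card_ext h1 (hl2.card (hdV _ _))
            omega) (len_ext (len_ext hlen
              (hl.len (show DepthLE M q (.ret x : PComp X) from trivial))) (hl2.len (hdV _ _))) hw2
        have e1 := hl2.run hπ
        have e2 := hx π hOπ (hπ.mono (hl.sub.trans hl2.sub))
        have e3 := (hO π hOπ i (by omega) x).1 e2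
        have e4 : z = x := hl.2
        rw [e4, ← e1]
        rw [e3]
        exact hO π hOπ (i + 0) (by omega) x'
      · refine tot_base hw (hdV _) (T x) (hdT x) hρ hQρ hc' ?_
        intro ρ1 z hl x' ρ2 b hl2 hw2
        obtain ⟨π, hπ, hOπ⟩ := hok ρ2 ((hQρ.trans hl.sub).trans hl2.sub)
          (hl2.fn (hl.fn hρ)) (by
            have h1 : (ρ1 \ Q).card ≤ (ρ \ Q).card + q :=
              card_ext le_rfl (hl.card (hdT x))
            have h2 := card_ext h1 (hl2.card (hdV _ _))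
            omega) (len_ext (len_ext hlen (hl.len (hdT x))) (hl2.len (hdV _ _))) hw2
        have e1 := hl2.run hπ
        have e2 := hx π hOπ (hπ.mono (hl.sub.trans hl2.sub))
        have e3 := (hO π hOπ i (by omega) x).1 e2
        have e4 := hl.run (hπ.mono hl2.sub)
        rw [e3, hT π hOπ i] at e4
        rw [← e1, ← e4]
        exact hO π hOπ (i + 1) (by omega) x'
    | succ t ih =>
      intro ρ hρ hQρ hlen hc d hd i hi x hx
      obtain ⟨d1, d2, hd12, hd1, hd2⟩ : ∃ d1 d2, d = d1 + d2 ∧ d1 ≤ 2 ^ t ∧ d2 ≤ 2 ^ t := by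
        refine ⟨d - min d (2 ^ t), min d (2 ^ t), ?_, ?_, min_le_right _ _⟩
        · have := min_le_left d (2 ^ t)
          omega
        · rw [pow_succ] at hd
          rcases le_total d (2 ^ t) with h | h
          · rw [min_eq_left h]; omega
          · rw [min_eq_right h]; omega
      subst hd12
      have hq : (t + 1 + 2) * q = (t + 2) * q + q := by ring
      have hext : ∀ {ρ' : Ctx} {R : Type} {T' : PComp R} {r : R}, DepthLE M q T' →
          Leaf T' ρ ρ' r → (ρ' \ Q).card + (t + 2) * q ≤ D := by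
        intro ρ' R T' r hd hl
        have h2 := card_ext (Q := Q) (ρ := ρ) le_rfl (hl.card hd)
        omega
      have hsame : tot w (V (i + d1)) ρ = w ρ :=
        ih ρ hρ hQρ hlen (by omega) d1 hd1 i (by omega) x hx
      refine tot_trans (V := V (i + d1)) hρ ?_ hsame ?_
      · intro ρ'' x'' b hl
        exact ih ρ'' (hl.fn hρ) (hQρ.trans hl.sub) (len_ext hlen (hl.len (hdV _ _)))
          (hext (hdV _ _) hl) d1 hd1 i (by omega) x
          (fun π hOπ hπ => hx π hOπ (hπ.mono hl.sub))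
      · intro ρ' x' hl
        have := ih ρ' (hl.fn hρ) (hQρ.trans hl.sub) (len_ext hlen (hl.len (hdV _ _)))
          (hext (hdV _ _) hl) d2 hd2 (i + d1) (by omega) x'
          (fun π _ hπ => hl.run hπ)
        rw [← add_assoc]
        exact this
  -- index 0
  have base : ∀ ρ, Fn ρ → Q ⊆ ρ → (∀ p ∈ ρ \ Q, p.1 ≤ M) → (ρ \ Q).card + 2 * q ≤ D →
      tot w (V 0) ρ = w ρ := by
    intro ρ hρ hQρ hlen hc
    refine tot_base hw (hdV _) T0 hdT0 hρ hQρ hc ?_
    intro ρ1 z hl x' ρ2 b hl2 hw2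
    obtain ⟨π, hπ, hOπ⟩ := hok ρ2 ((hQρ.trans hl.sub).trans hl2.sub)
      (hl2.fn (hl.fn hρ)) (by
        have h1 : (ρ1 \ Q).card ≤ (ρ \ Q).card + q := card_ext le_rfl (hl.card hdT0)
        have h2 := card_ext h1 (hl2.card (hdV _ _))
        omega) (len_ext (len_ext hlen (hl.len hdT0)) (hl2.len (hdV _ _))) hw2
    have e1 := hl2.run hπ
    have e4 := hl.run (hπ.mono hl2.sub)
    rw [hT0 π hOπ] at e4
    rw [← e1, ← e4]
    exact hO π hOπ 0 (by omega) x'
  have hQ0 : (Q \ Q).card = 0 := by simp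
  have hQl : ∀ p ∈ Q \ Q, p.1 ≤ M := by simp
  have h4 : (t + 4) * q = (t + 2) * q + 2 * q := by ring
  have h5 : 2 * q ≤ (t + 2) * q := Nat.mul_le_mul_right q (by omega)
  refine tot_trans (V := V 0) hQ ?_ (base Q hQ (subset_refl _) hQl (by omega)) ?_
  · intro ρ'' x b hl
    have h2 := card_ext (Q := Q) (ρ := Q) (b := q) le_rfl (hl.card (hdV _ _))
    refine base ρ'' (hl.fn hQ) hl.sub (len_ext hQl (hl.len (hdV _ _))) ?_
    have h6 : 3 * q ≤ (t + 4) * q := Nat.mul_le_mul_right q (by omega)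
    omega
  · intro ρ' x' hl
    have h2 := card_ext (Q := Q) (ρ := Q) (b := q) le_rfl (hl.card (hdV _ _))
    have h6 : (t + 4) * q = (t + 3) * q + q := by ring
    have h7 : (t + 2) * q ≤ (t + 3) * q := Nat.mul_le_mul_right q (by omega)
    have := key t ρ' (hl.fn hQ) hl.sub (len_ext hQl (hl.len (hdV _ _))) (by omega) L hL 0 (by omega) x'
      (fun π _ hπ => hl.run hπ)
    rw [zero_add] at this
    exact this

end Pool.Agent.H616R2.SVL
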