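import Mathlib
import Pool.Agent.H616R2.SVLIdent

/-!
# Weights: uniformly random injections that avoid a set `Y` of images
-/

namespace Pool.Agent.H616R2.SVL

open Finset

/-- the pairs of `ρ` at length `m` -/
def prs (ρ : Ctx) (m : ℕ) : Finset (BS m × BS m) :=
  Finset.univ.filter fun xy => (⟨m, xy⟩ : (m : ℕ) × (BS m × BS m)) ∈ ρ

/-- number of pairs at length `m` -/
def cnt (ρ : Ctx) (m : ℕ) : ℕ := (prs ρ m).card

theorem mem_prs {ρ : Ctx} {m : ℕ} {xy : BS m × BS m} :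
    xy ∈ prs ρ m ↔ (⟨m, xy⟩ : (m : ℕ) × (BS m × BS m)) ∈ ρ := by
  simp [prs]

/-- partial injection -/
def PInj (ρ : Ctx) : Prop := ∀ (m : ℕ) (x y x' y' : BS m),
  (⟨m, (x, y)⟩ : (m : ℕ) × (BS m × BS m)) ∈ ρ → (⟨m, (x', y')⟩ : (m : ℕ) × (BS m × BS m)) ∈ ρ →
    (x = x' ↔ y = y')

/-- number of elements of `Y` of length `m` -/
def ya (Y : Finset Str) (m : ℕ) : ℕ := (Finset.univ.filter fun y : BS m => (⟨m, y⟩ : Str) ∈ Y).card

/-- the images of the new pairs are not in `Y` -/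
def Avoid (Q : Ctx) (Y : Finset Str) (ρ : Ctx) : Prop :=
  ∀ (m : ℕ) (x y : BS m), (⟨m, (x, y)⟩ : (m : ℕ) × (BS m × BS m)) ∈ ρ →
    (⟨m, (x, y)⟩ : (m : ℕ) × (BS m × BS m)) ∉ Q → (⟨m, y⟩ : Str) ∉ Y

/-- the weight -/
noncomputable def pw (κ : ℕ → ℕ) (Q : Ctx) (M : ℕ) (ρ : Ctx) : ℝ :=
  ∏ m ∈ range (M + 1), ∏ j ∈ Ico (cnt Q m) (cnt ρ m), (1 / ((2 : ℝ) ^ m - κ m - j))

open Classical in
/-- the weight of the contexts that are partial injections avoiding `Y` -/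
noncomputable def wt (Y : Finset Str) (Q : Ctx) (M : ℕ) (ρ : Ctx) : ℝ :=
  if PInj ρ ∧ Avoid Q Y ρ then pw (ya Y) Q M ρ else 0

theorem PInj.mono {ρ ρ' : Ctx} (h : PInj ρ') (hs : ρ ⊆ ρ') : PInj ρ :=
  fun m x y x' y' h1 h2 => h m x y x' y' (hs h1) (hs h2)

theorem PInj.fn {ρ : Ctx} (h : PInj ρ) : Fn ρ := fun x y y' h1 h2 =>
  (h x.1 x.2 y x.2 y' h1 h2).1 rfl

theorem Cons.pinj {ρ : Ctx} {π : PermFam} (h : Cons ρ π) : PInj ρ := by
  intro m x y x' y' h1 h2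
  have e1 := h ⟨m, x⟩ y h1
  have e2 := h ⟨m, x'⟩ y' h2
  simp only at e1 e2
  constructor
  · rintro rfl; rw [← e1, ← e2]
  · rintro rfl; exact (π m).injective (e1.trans e2.symm)

/-- a partial injection extends to a permutation family -/
theorem PInj.exists_cons {ρ : Ctx} (h : PInj ρ) : ∃ π : PermFam, Cons ρ π := by
  classical
  have key : ∀ m : ℕ, ∃ g : Equiv.Perm (BS m), ∀ x y : BS m,
      (⟨m, (x, y)⟩ : (m : ℕ) × (BS m × BS m)) ∈ ρ → g x = y := by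
    intro m
    let s : Finset (BS m) := Finset.univ.filter fun x => ∃ y,
      (⟨m, (x, y)⟩ : (m : ℕ) × (BS m × BS m)) ∈ ρ
    let f : BS m → BS m := fun x => if hx : ∃ y, (⟨m, (x, y)⟩ : (m : ℕ) × (BS m × BS m)) ∈ ρ then
      hx.choose else x
    have hf : ∀ x y, (⟨m, (x, y)⟩ : (m : ℕ) × (BS m × BS m)) ∈ ρ → f x = y := by
      intro x y hxy
      have hx : ∃ y, (⟨m, (x, y)⟩ : (m : ℕ) × (BS m × BS m)) ∈ ρ := ⟨y, hxy⟩
      simp only [f, dif_pos hx]
      exact (h m x _ x y hx.choose_spec hxy).1 rfl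
    have hinj : Set.InjOn f s := by
      intro x hx x' hx' hxx
      obtain ⟨y, hy⟩ := (Finset.mem_filter.1 hx).2
      obtain ⟨y', hy'⟩ := (Finset.mem_filter.1 hx').2
      rw [hf x y hy, hf x' y' hy'] at hxx
      exact (h m x y x' y' hy hy').2 hxx
    obtain ⟨g, hg⟩ := Finset.exists_equiv_extend_of_card_eq (α := BS m) (t := Finset.univ)
      (by rw [Finset.card_univ]) (Finset.subset_univ (s.image f)) hinj
    refine ⟨g.trans (Equiv.subtypeUnivEquiv (by simp)), fun x y hxy => ?_⟩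
    have h1 := hg x (Finset.mem_filter.2 ⟨Finset.mem_univ _, y, hxy⟩)
    rw [hf x y hxy] at h1
    simpa using h1
  choose g hg using key
  exact ⟨g, fun x y hxy => hg x.1 x.2 y hxy⟩

theorem cnt_insert_self {ρ : Ctx} {x : Str} (hx : Fresh ρ x) (y : BS x.1) :
    cnt (insert (pr x y) ρ) x.1 = cnt ρ x.1 + 1 := by
  unfold cnt
  have : prs (insert (pr x y) ρ) x.1 = insert (x.2, y) (prs ρ x.1) := by
    ext z
    rw [Finset.mem_insert, mem_prs, mem_prs, Finset.mem_insert, pr]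
    simp
  rw [this, Finset.card_insert_of_notMem]
  intro h
  exact hx y (mem_prs.1 h)

theorem cnt_insert_ne {ρ : Ctx} {x : Str} (y : BS x.1) {m : ℕ} (hm : m ≠ x.1) :
    cnt (insert (pr x y) ρ) m = cnt ρ m := by
  unfold cnt
  congr 1
  ext z
  rw [mem_prs, mem_prs, Finset.mem_insert, pr]
  constructor
  · rintro (h | h)
    · exact absurd (congrArg Sigma.fst h) hm
    · exact h
  · exact Or.inr

theorem cnt_mono {ρ ρ' : Ctx} (h : ρ ⊆ ρ') (m : ℕ) : cnt ρ m ≤ cnt ρ' m :=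
  Finset.card_le_card fun z hz => mem_prs.2 (h (mem_prs.1 hz))

theorem sum_cnt_le (ρ : Ctx) (M : ℕ) : ∑ m ∈ range (M + 1), cnt ρ m ≤ ρ.card := by
  unfold cnt
  rw [← Finset.card_sigma]
  refine Finset.card_le_card ?_
  intro z hz
  rw [Finset.mem_sigma] at hz
  exact mem_prs.1 hz.2

theorem cnt_le_card (ρ : Ctx) (m : ℕ) : cnt ρ m ≤ ρ.card :=
  (Finset.single_le_sum (f := fun m => cnt ρ m) (fun _ _ => Nat.zero_le _)
    (Finset.mem_range.2 (Nat.lt_succ_self m))).trans (sum_cnt_le ρ m)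

theorem cnt_sdiff {ρ Q : Ctx} (h : Q ⊆ ρ) (m : ℕ) : cnt ρ m = cnt Q m + cnt (ρ \ Q) m := by
  unfold cnt
  have h1 : prs (ρ \ Q) m = prs ρ m \ prs Q m := by
    ext z
    rw [Finset.mem_sdiff, mem_prs, mem_prs, mem_prs, Finset.mem_sdiff]
  have h2 : prs Q m ⊆ prs ρ m := fun z hz => mem_prs.2 (h (mem_prs.1 hz))
  rw [h1, Finset.card_sdiff_of_subset h2]
  have := Finset.card_le_card h2
  omega

/-- there is room at all lengths `≤ M`: either the length is exhausted by `Q`, or there are many free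
images -/
def Room (Y : Finset Str) (Q : Ctx) (M D : ℕ) : Prop :=
  ∀ m ≤ M, (∀ x : BS m, ¬ Fresh Q ⟨m, x⟩) ∨ cnt Q m + ya Y m + D ≤ 2 ^ m

/-- `Y` contains no image of `Q` -/
def DisjIm (Y : Finset Str) (Q : Ctx) : Prop :=
  ∀ (m : ℕ) (x y : BS m), (⟨m, (x, y)⟩ : (m : ℕ) × (BS m × BS m)) ∈ Q → (⟨m, y⟩ : Str) ∉ Y

theorem pw_insert (κ : ℕ → ℕ) {Q ρ : Ctx} (hQ : Q ⊆ ρ) {M : ℕ} {x : Str} (hx : Fresh ρ x)
    (hM : x.1 ≤ M) (y : BS x.1) :
    pw κ Q M (insert (pr x y) ρ) =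
      pw κ Q M ρ * (1 / ((2 : ℝ) ^ x.1 - κ x.1 - (cnt ρ x.1 : ℕ))) := by
  unfold pw
  have hmem : x.1 ∈ range (M + 1) := Finset.mem_range.2 (Nat.lt_succ_of_le hM)
  rw [← Finset.mul_prod_erase _ _ hmem, ← Finset.mul_prod_erase _ _ hmem]
  rw [cnt_insert_self hx y, Finset.prod_Ico_succ_top (cnt_mono hQ _)]
  have : ∏ m ∈ (range (M + 1)).erase x.1, ∏ j ∈ Ico (cnt Q m) (cnt (insert (pr x y) ρ) m),
        (1 / ((2 : ℝ) ^ m - κ m - j)) =
      ∏ m ∈ (range (M + 1)).erase x.1, ∏ j ∈ Ico (cnt Q m) (cnt ρ m),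
        (1 / ((2 : ℝ) ^ m - κ m - j)) := by
    refine Finset.prod_congr rfl fun m hm => ?_
    rw [cnt_insert_ne y (Finset.ne_of_mem_erase hm)]
  rw [this]
  ring

theorem pinj_insert_iff {ρ : Ctx} (hρ : PInj ρ) {x : Str} (hx : Fresh ρ x) (y : BS x.1) :
    PInj (insert (pr x y) ρ) ↔ ∀ x', (⟨x.1, (x', y)⟩ : (m : ℕ) × (BS m × BS m)) ∉ ρ := by
  constructor
  · intro h x' hx'
    have h1 : (⟨x.1, (x.2, y)⟩ : (m : ℕ) × (BS m × BS m)) ∈ insert (pr x y) ρ :=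
      Finset.mem_insert_self _ _
    have h2 := (h x.1 x.2 y x' y h1 (Finset.mem_insert_of_mem hx')).2 rfl
    subst h2
    exact hx y hx'
  · intro h m a b a' b' h1 h2
    rw [Finset.mem_insert] at h1 h2
    rcases x with ⟨mx, xx⟩
    unfold pr at h1 h2
    rcases h1 with h1 | h1 <;> rcases h2 with h2 | h2
    · rw [Sigma.mk.injEq] at h1
      obtain ⟨rfl, h1⟩ := h1
      rw [Sigma.mk.injEq] at h2
      have h2 := h2.2
      simp only [heq_eq_eq, Prod.mk.injEq] at h1 h2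
      rw [h1.1, h1.2, h2.1, h2.2]
      simp
    · rw [Sigma.mk.injEq] at h1
      obtain ⟨rfl, h1⟩ := h1
      simp only [heq_eq_eq, Prod.mk.injEq] at h1
      obtain ⟨rfl, rfl⟩ := h1
      constructor
      · rintro rfl; exact absurd h2 (hx b')
      · rintro rfl; exact absurd h2 (h a')
    · rw [Sigma.mk.injEq] at h2
      obtain ⟨rfl, h2⟩ := h2
      simp only [heq_eq_eq, Prod.mk.injEq] at h2
      obtain ⟨rfl, rfl⟩ := h2
      constructor
      · rintro rfl; exact absurd h1 (hx b)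
      · rintro rfl; exact absurd h1 (h a)
    · exact hρ m a b a' b' h1 h2

theorem avoid_insert_iff {Q ρ : Ctx} {Y : Finset Str} (hρ : Avoid Q Y ρ) (hQ : Q ⊆ ρ) {x : Str}
    (hx : Fresh ρ x) (y : BS x.1) :
    Avoid Q Y (insert (pr x y) ρ) ↔ (⟨x.1, y⟩ : Str) ∉ Y := by
  constructor
  · intro h
    exact h x.1 x.2 y (Finset.mem_insert_self _ _) (fun h' => hx y (hQ h'))
  · intro h m a b h1 h2
    rw [Finset.mem_insert] at h1
    rcases x with ⟨mx, xx⟩
    unfold pr at h1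
    rcases h1 with h1 | h1
    · rw [Sigma.mk.injEq] at h1
      obtain ⟨rfl, h1⟩ := h1
      simp only [heq_eq_eq, Prod.mk.injEq] at h1
      obtain ⟨rfl, rfl⟩ := h1
      exact h
    · exact hρ m a b h1 h2

/-- the weight is refined correctly -/
theorem wt_ref {Y : Finset Str} {Q : Ctx} {M D : ℕ} (hroom : Room Y Q M D) (hdis : DisjIm Y Q) :
    Ref (wt Y Q M) Q M D := by
  classical
  intro ρ hQ hρ hD x hM hx
  by_cases hc : PInj ρ ∧ Avoid Q Y ρ
  · obtain ⟨h1, h2⟩ := hc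
    -- the available images
    let F : Finset (BS x.1) := Finset.univ.filter fun y =>
      (∀ x', (⟨x.1, (x', y)⟩ : (m : ℕ) × (BS m × BS m)) ∉ ρ) ∧ (⟨x.1, y⟩ : Str) ∉ Y
    have e1 : ∀ y, wt Y Q M (insert (pr x y) ρ) =
        if y ∈ F then pw (ya Y) Q M ρ * (1 / ((2 : ℝ) ^ x.1 - ya Y x.1 - (cnt ρ x.1 : ℕ)))
        else 0 := by
      intro y
      unfold wt
      rw [pinj_insert_iff h1 hx, avoid_insert_iff h2 hQ hx, pw_insert _ hQ hx hM]
      simp [F]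
    rw [Finset.sum_congr rfl fun y _ => e1 y, Finset.sum_ite_mem, Finset.univ_inter,
      Finset.sum_const, nsmul_eq_mul]
    have hroom' : cnt Q x.1 + ya Y x.1 + D ≤ 2 ^ x.1 := by
      rcases hroom x.1 hM with h | h
      · exact absurd (hx.mono hQ) (h x.2)
      · exact h
    have hcard : F.card + (cnt ρ x.1 + ya Y x.1) = 2 ^ x.1 := by
      have hA : ((prs ρ x.1).image Prod.snd).card = cnt ρ x.1 := by
        unfold cnt
        refine Finset.card_image_of_injOn ?_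
        intro z hz z' hz' hzz
        have hz1 := mem_prs.1 hz
        have hz2 := mem_prs.1 hz'
        have := (h1 x.1 z.1 z.2 z'.1 z'.2 hz1 hz2).2 hzz
        exact Prod.ext this hzz
      have hdisj : Disjoint ((prs ρ x.1).image Prod.snd)
          (Finset.univ.filter fun y : BS x.1 => (⟨x.1, y⟩ : Str) ∈ Y) := by
        rw [Finset.disjoint_left]
        intro y hy hy'
        rw [Finset.mem_image] at hy
        obtain ⟨z, hz, rfl⟩ := hy
        rw [Finset.mem_filter] at hy'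
        have hz1 := mem_prs.1 hz
        by_cases hzQ : (⟨x.1, z⟩ : (m : ℕ) × (BS m × BS m)) ∈ Q
        · exact hdis x.1 z.1 z.2 hzQ hy'.2
        · exact h2 x.1 z.1 z.2 hz1 hzQ hy'.2
      have hF : F = ((prs ρ x.1).image Prod.snd ∪
          (Finset.univ.filter fun y : BS x.1 => (⟨x.1, y⟩ : Str) ∈ Y))ᶜ := by
        ext y
        simp only [F, Finset.mem_filter, Finset.mem_univ, true_and, Finset.mem_compl,
          Finset.mem_union, Finset.mem_image, not_or, not_exists, not_and]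
        constructor
        · rintro ⟨h3, h4⟩
          refine ⟨fun z hz hzy => ?_, h4⟩
          have := mem_prs.1 hz
          rw [← hzy] at h3
          exact h3 z.1 this
        · rintro ⟨h3, h4⟩
          exact ⟨fun x' hx' => h3 (x', y) (mem_prs.2 hx') rfl, h4⟩
      have hle := Finset.card_le_univ ((prs ρ x.1).image Prod.snd ∪
          (Finset.univ.filter fun y : BS x.1 => (⟨x.1, y⟩ : Str) ∈ Y))
      rw [hF, Finset.card_compl, ← hA, ya, ← Finset.card_union_of_disjoint hdisj,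
        Nat.sub_add_cancel hle]
      simp
    have hcnt : cnt ρ x.1 = cnt Q x.1 + cnt (ρ \ Q) x.1 := cnt_sdiff hQ _
    have hle := cnt_le_card (ρ \ Q) x.1
    have hF1 : 1 ≤ F.card := by omega
    have hFr : (F.card : ℝ) = (2 : ℝ) ^ x.1 - ya Y x.1 - (cnt ρ x.1 : ℕ) := by
      have : ((F.card + (cnt ρ x.1 + ya Y x.1) : ℕ) : ℝ) = ((2 ^ x.1 : ℕ) : ℝ) := by rw [hcard]
      push_cast at this
      linarith
    rw [← hFr]
    have : (F.card : ℝ) ≠ 0 := by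
      have : (0 : ℝ) < F.card := by exact_mod_cast hF1
      exact this.ne'
    unfold wt
    rw [if_pos ⟨h1, h2⟩]
    field_simp
  · have e0 : wt Y Q M ρ = 0 := by unfold wt; rw [if_neg hc]
    rw [e0]
    refine Finset.sum_eq_zero fun y _ => ?_
    unfold wt
    rw [if_neg]
    rintro ⟨h1, h2⟩
    exact hc ⟨h1.mono (Finset.subset_insert _ _), fun m a b ha hb =>
      h2 m a b (Finset.mem_insert_of_mem ha) hb⟩

theorem factor_pos {Y : Finset Str} {Q ρ : Ctx} {M D : ℕ} (hroom : Room Y Q M D) (hQ : Q ⊆ ρ)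
    (hρ : PInj ρ) (hc : (ρ \ Q).card ≤ D) {m : ℕ} (hm : m ∈ range (M + 1)) {j : ℕ}
    (hj : j ∈ Ico (cnt Q m) (cnt ρ m)) {κ : ℕ} (hκ : κ ≤ ya Y m) :
    (0 : ℝ) < (2 : ℝ) ^ m - κ - j := by
  rw [Finset.mem_Ico] at hj
  rcases hroom m (Nat.lt_succ_iff.1 (Finset.mem_range.1 hm)) with h | h
  · exfalso
    have hne : ¬ prs ρ m ⊆ prs Q m := fun h' => by
      have := Finset.card_le_card h'
      unfold cnt at hj
      omega
    rw [Finset.not_subset] at hne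
    obtain ⟨z, hz, hz'⟩ := hne
    refine h z.1 fun y hy => ?_
    have h1 := hQ hy
    have h2 := (hρ m z.1 y z.1 z.2 h1 (mem_prs.1 hz)).1 rfl
    subst h2
    exact hz' (mem_prs.2 hy)
  · have hcnt := cnt_sdiff hQ m
    have hle := cnt_le_card (ρ \ Q) m
    have : κ + j + 1 ≤ 2 ^ m := by omega
    have h' : ((κ + j + 1 : ℕ) : ℝ) ≤ ((2 ^ m : ℕ) : ℝ) := by exact_mod_cast this
    push_cast at h'
    linarith

theorem pw_pos {Y : Finset Str} {Q ρ : Ctx} {M D : ℕ} (hroom : Room Y Q M D) (hQ : Q ⊆ ρ)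
    (hρ : PInj ρ) (hc : (ρ \ Q).card ≤ D) {κ : ℕ → ℕ} (hκ : ∀ m, κ m ≤ ya Y m) :
    0 < pw κ Q M ρ := by
  refine Finset.prod_pos fun m hm => Finset.prod_pos fun j hj => ?_
  exact one_div_pos.2 (factor_pos hroom hQ hρ hc hm hj (hκ m))

/-- monotonicity in `κ` -/
theorem pw_mono {Y : Finset Str} {Q ρ : Ctx} {M D : ℕ} (hroom : Room Y Q M D) (hQ : Q ⊆ ρ)
    (hρ : PInj ρ) (hc : (ρ \ Q).card ≤ D) {κ κ' : ℕ → ℕ} (hκκ : ∀ m, κ m ≤ κ' m)
    (hκ : ∀ m, κ' m ≤ ya Y m) :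
    pw κ Q M ρ ≤ pw κ' Q M ρ := by
  refine Finset.prod_le_prod (fun m hm => Finset.prod_nonneg fun j hj => ?_) fun m hm => ?_
  · exact (one_div_pos.2 (factor_pos hroom hQ hρ hc hm hj ((hκκ m).trans (hκ m)))).le
  · refine Finset.prod_le_prod (fun j hj => ?_) fun j hj => ?_
    · exact (one_div_pos.2 (factor_pos hroom hQ hρ hc hm hj ((hκκ m).trans (hκ m)))).le
    · refine one_div_le_one_div_of_le (factor_pos hroom hQ hρ hc hm hj (hκ m)) ?_
      have : (κ m : ℝ) ≤ κ' m := by exact_mod_cast hκκ m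
      linarith

/-- the ratio bound -/
theorem pw_half {Y : Finset Str} {Q ρ : Ctx} {M D q : ℕ} (hroom : Room Y Q M D) (hQ : Q ⊆ ρ)
    (hρ : PInj ρ) (hc : (ρ \ Q).card ≤ q) (hq : 1 ≤ q) (hqD : q ≤ D)
    (hbig : ∀ m ≤ M, 2 * q * ya Y m ≤ D - q) :
    (1 / 2 : ℝ) * pw (ya Y) Q M ρ ≤ pw (fun _ => 0) Q M ρ := by
  have hcD : (ρ \ Q).card ≤ D := hc.trans hqD
  set δ : ℝ := 1 / (2 * q) with hδ
  have hq0 : (0 : ℝ) < q := by exact_mod_cast hq
  have hδ0 : 0 < δ := by positivity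
  have hδ1 : δ ≤ 1 / 2 := by
    rw [hδ]
    have : (1 : ℝ) ≤ q := by exact_mod_cast hq
    exact one_div_le_one_div_of_le (by norm_num) (by linarith)
  -- factorwise comparison
  have h1 : ∀ m ∈ range (M + 1), ∀ j ∈ Ico (cnt Q m) (cnt ρ m),
      (1 - δ) * (1 / ((2 : ℝ) ^ m - (ya Y m : ℕ) - j)) ≤ 1 / ((2 : ℝ) ^ m - ((0 : ℕ) : ℝ) - j) := by
    intro m hm j hj
    have hp1 := factor_pos hroom hQ hρ hcD hm hj le_rfl
    have hp2 := factor_pos hroom hQ hρ hcD hm hj (Nat.zero_le _)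
    rw [mul_one_div, div_le_div_iff₀ hp1 hp2]
    -- room
    have hm' := Nat.lt_succ_iff.1 (Finset.mem_range.1 hm)
    have hj' := Finset.mem_Ico.1 hj
    have h3 : 2 * q * ya Y m + j ≤ 2 ^ m := by
      rcases hroom m hm' with h | h
      · exfalso
        have hne : ¬ prs ρ m ⊆ prs Q m := fun h' => by
          have := Finset.card_le_card h'
          unfold cnt at hj'
          omega
        rw [Finset.not_subset] at hne
        obtain ⟨z, hz, hz'⟩ := hne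
        refine h z.1 fun y hy => ?_
        have h1 := hQ hy
        have h2 := (hρ m z.1 y z.1 z.2 h1 (mem_prs.1 hz)).1 rfl
        subst h2
        exact hz' (mem_prs.2 hy)
      · have hcnt := cnt_sdiff hQ m
        have hle := cnt_le_card (ρ \ Q) m
        have := hbig m hm'
        omega
    have h4 : ((2 * q * ya Y m + j : ℕ) : ℝ) ≤ ((2 ^ m : ℕ) : ℝ) := by exact_mod_cast h3
    push_cast at h4
    have h5 : δ * ((2 : ℝ) ^ m - j) ≥ (ya Y m : ℝ) := by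
      have : δ * (2 * q * ya Y m) = ya Y m := by
        rw [hδ]; field_simp
      calc (ya Y m : ℝ) = δ * (2 * q * ya Y m) := this.symm
        _ ≤ δ * ((2 : ℝ) ^ m - j) := mul_le_mul_of_nonneg_left (by linarith) hδ0.le
    push_cast
    nlinarith
  -- product
  have h2 : ∏ m ∈ range (M + 1), ∏ j ∈ Ico (cnt Q m) (cnt ρ m), ((1 - δ) *
      (1 / ((2 : ℝ) ^ m - (ya Y m : ℕ) - j))) ≤ pw (fun _ => 0) Q M ρ := by
    refine Finset.prod_le_prod (fun m hm => Finset.prod_nonneg fun j hj => ?_) fun m hm => ?_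
    · exact mul_nonneg (by linarith)
        (one_div_pos.2 (factor_pos hroom hQ hρ hcD hm hj le_rfl)).le
    · refine Finset.prod_le_prod (fun j hj => ?_) fun j hj => h1 m hm j hj
      exact mul_nonneg (by linarith)
        (one_div_pos.2 (factor_pos hroom hQ hρ hcD hm hj le_rfl)).le
  have h3 : ∏ m ∈ range (M + 1), ∏ j ∈ Ico (cnt Q m) (cnt ρ m), ((1 - δ) *
      (1 / ((2 : ℝ) ^ m - (ya Y m : ℕ) - j))) =
      (1 - δ) ^ (∑ m ∈ range (M + 1), cnt (ρ \ Q) m) * pw (ya Y) Q M ρ := by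
    unfold pw
    rw [← Finset.prod_pow_eq_pow_sum, ← Finset.prod_mul_distrib]
    refine Finset.prod_congr rfl fun m _ => ?_
    rw [Finset.prod_mul_distrib, Finset.prod_const, Nat.card_Ico]
    congr 2
    have := cnt_sdiff hQ m
    omega
  have h4 : (1 / 2 : ℝ) ≤ (1 - δ) ^ (∑ m ∈ range (M + 1), cnt (ρ \ Q) m) := by
    have h5 : ∑ m ∈ range (M + 1), cnt (ρ \ Q) m ≤ q := (sum_cnt_le _ _).trans hc
    have h6 : (1 - δ) ^ q ≤ (1 - δ) ^ (∑ m ∈ range (M + 1), cnt (ρ \ Q) m) :=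
      pow_le_pow_of_le_one (by linarith) (by linarith) h5
    have h7 : 1 + (q : ℝ) * (-δ) ≤ (1 + (-δ)) ^ q := one_add_mul_le_pow (by linarith) q
    have h8 : (q : ℝ) * δ = 1 / 2 := by rw [hδ]; field_simp
    have h9 : (1 + (-δ)) ^ q = (1 - δ) ^ q := by ring
    rw [h9] at h7
    linarith
  have h10 : 0 < pw (ya Y) Q M ρ := pw_pos hroom hQ hρ hcD (fun _ => le_rfl)
  calc (1 / 2 : ℝ) * pw (ya Y) Q M ρ
      ≤ (1 - δ) ^ (∑ m ∈ range (M + 1), cnt (ρ \ Q) m) * pw (ya Y) Q M ρ :=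
        mul_le_mul_of_nonneg_right h4 h10.le
    _ = _ := h3.symm
    _ ≤ _ := h2

theorem wt_self {Y : Finset Str} {Q : Ctx} (hQ : PInj Q) (M : ℕ) : wt Y Q M Q = 1 := by
  unfold wt
  rw [if_pos ⟨hQ, fun m x y h1 h2 => absurd h1 h2⟩]
  unfold pw
  refine Finset.prod_eq_one fun m _ => ?_
  simp

end Pool.Agent.H616R2.SVL
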