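import Mathlib
import Pool.Agent.H616R2.SVLWeight

/-!
# Covering: a short list of accepting leaves that avoids every possible set of images
-/

namespace Pool.Agent.H616R2.SVL

open Finset

/-- the images of a context -/
def imS (ρ : Ctx) : Finset Str := ρ.image fun p => ⟨p.1, p.2.2⟩

theorem mem_imS {ρ : Ctx} {m : ℕ} {y : BS m} :
    (⟨m, y⟩ : Str) ∈ imS ρ ↔ ∃ x, (⟨m, (x, y)⟩ : (m : ℕ) × (BS m × BS m)) ∈ ρ := by
  unfold imS
  rw [Finset.mem_image]
  constructor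
  · rintro ⟨⟨m', x, y'⟩, hp, h⟩
    rw [Sigma.mk.injEq] at h
    obtain ⟨rfl, h⟩ := h
    simp only [heq_eq_eq] at h
    subst h
    exact ⟨x, hp⟩
  · rintro ⟨x, hx⟩
    exact ⟨_, hx, rfl⟩

/-- data of a line of vertices that is verified by `V` on all permutation families with `O` -/
structure Line (X : Type) [Fintype X] [DecidableEq X] where
  V : ℕ → X → PComp Bool
  T : X → PComp X
  T0 : PComp X
  vt : PermFam → ℕ → X
  O : PermFam → Prop
  N : ℕ
  L : ℕ
  t : ℕ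
  M : ℕ
  q : ℕ
  D : ℕ
  hO : ∀ π, O π → ∀ j < N, ∀ x, (V j x).run (orc π) = true ↔ x = vt π j
  hT0 : ∀ π, O π → T0.run (orc π) = vt π 0
  hT : ∀ π, O π → ∀ j, (T (vt π j)).run (orc π) = vt π (j + 1)
  hdV : ∀ j x, DepthLE M q (V j x)
  hdT : ∀ x, DepthLE M q (T x)
  hdT0 : DepthLE M q T0
  hD : (t + 4) * q ≤ D
  hL : L ≤ 2 ^ t
  hLN : L < N
  hq : 1 ≤ q

variable {X : Type} [Fintype X] [DecidableEq X] (𝓛 : Line X)

/-- robustness: every small partial injection extending `Q` with new images outside `K` extends to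
a permutation family with `O` -/
def Robust (O : PermFam → Prop) (M D : ℕ) (Q : Ctx) (K : Finset Str) : Prop :=
  ∀ ρ, Q ⊆ ρ → PInj ρ → (ρ \ Q).card ≤ D → (∀ p ∈ ρ \ Q, p.1 ≤ M) → Avoid Q K ρ →
    ∃ π, Cons ρ π ∧ O π

/-- index set for the sets of at most `s` images of length at most `M` -/
abbrev Idx (M s : ℕ) : Type := Fin s → Option ((m : Fin (M + 1)) × BS m)

/-- the string given by an optional element -/
def optS {M : ℕ} : Option ((m : Fin (M + 1)) × BS m) → Finset Str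
  | none => ∅
  | some z => {⟨z.1, z.2⟩}

/-- the set with index `f` -/
def Yof {M s : ℕ} (f : Idx M s) : Finset Str := Finset.univ.biUnion fun i : Fin s => optS (f i)

theorem card_Yof {M s : ℕ} (f : Idx M s) : (Yof f).card ≤ s := by
  unfold Yof
  refine (Finset.card_biUnion_le).trans ?_
  have : ∀ i ∈ (Finset.univ : Finset (Fin s)), (optS (f i)).card ≤ 1 := by
    intro i _
    cases f i <;> simp [optS]
  refine (Finset.sum_le_sum this).trans ?_
  simp

theorem exists_Yof {M s : ℕ} (Y : Finset Str) (hc : Y.card ≤ s) (hl : ∀ y ∈ Y, y.1 ≤ M) :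
    ∃ f : Idx M s, Y ⊆ Yof f := by
  classical
  have hmem : ∀ (i : ℕ) (h : i < Y.toList.length), (Y.toList[i]'h).1 < M + 1 := fun i h =>
    Nat.lt_succ_of_le (hl _ (Finset.mem_toList.1 (List.getElem_mem h)))
  let g : Idx M s := fun i => if h : (i : ℕ) < Y.toList.length then
    some ⟨⟨(Y.toList[(i : ℕ)]'h).1, hmem i h⟩, (Y.toList[(i : ℕ)]'h).2⟩ else none
  refine ⟨g, ?_⟩
  intro y hy
  rw [← Finset.mem_toList] at hy
  obtain ⟨i, hi, hiy⟩ := List.mem_iff_getElem.1 hy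
  have hi' : i < s := by
    have : Y.toList.length = Y.card := Finset.length_toList Y
    omega
  unfold Yof
  rw [Finset.mem_biUnion]
  refine ⟨⟨i, hi'⟩, Finset.mem_univ _, ?_⟩
  have hg : g ⟨i, hi'⟩ = some ⟨⟨(Y.toList[i]'hi).1, hmem i hi⟩, (Y.toList[i]'hi).2⟩ := by
    simp only [g]
    rw [dif_pos hi]
  rw [hg]
  simp only [optS, Finset.mem_singleton]
  rw [← hiy]

theorem card_Idx (M s : ℕ) : Fintype.card (Idx M s) = 2 ^ ((M + 1) * s) := by
  have h : ∀ k : ℕ, ∑ m ∈ range k, 2 ^ m + 1 = 2 ^ k := by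
    intro k
    induction k with
    | zero => simp
    | succ k ih => rw [Finset.sum_range_succ, pow_succ]; omega
  have h1 : Fintype.card ((m : Fin (M + 1)) × BS m) + 1 = 2 ^ (M + 1) := by
    rw [Fintype.card_sigma, ← h (M + 1)]
    simp only [Fintype.card_fun, Fintype.card_bool, Fintype.card_fin]
    rw [Fin.sum_univ_eq_sum_range (fun m => 2 ^ m) (M + 1)]
  rw [Fintype.card_fun, Fintype.card_option, h1, Fintype.card_fin, ← pow_mul]

theorem ya_le_card (Y : Finset Str) (m : ℕ) : ya Y m ≤ Y.card := by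
  unfold ya
  refine Finset.card_le_card_of_injOn (fun y => (⟨m, y⟩ : Str)) ?_ ?_
  · intro y hy
    exact (Finset.mem_filter.1 hy).2
  · intro y _ y' _ h
    simpa using h

theorem avoid_of_sdiff {Q ρ : Ctx} {K : Finset Str} (hQ : Q ⊆ ρ) (hρ : PInj ρ)
    (h : Avoid Q (K \ imS Q) ρ) : Avoid Q K ρ := by
  intro m x y h1 h2 h3
  refine h m x y h1 h2 ?_
  rw [Finset.mem_sdiff]
  refine ⟨h3, fun h4 => ?_⟩
  obtain ⟨x', hx'⟩ := mem_imS.1 h4
  have := (hρ m x y x' y h1 (hQ hx')).2 rfl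
  subst this
  exact h2 hx'

theorem Avoid.anti {Q ρ : Ctx} {K K' : Finset Str} (h : Avoid Q K' ρ) (hs : K ⊆ K') :
    Avoid Q K ρ := fun m x y h1 h2 h3 => h m x y h1 h2 (hs h3)

/-- numerical room condition -/
def Room' (M : ℕ) (Q : Ctx) (kk D : ℕ) : Prop :=
  ∀ m ≤ M, (∀ x : BS m, ¬ Fresh Q ⟨m, x⟩) ∨ cnt Q m + kk + D ≤ 2 ^ m

theorem identity {Q : Ctx} {K Y : Finset Str} (hQ : PInj Q) (hrob : Robust 𝓛.O 𝓛.M 𝓛.D Q K)
    (hKY : K \ imS Q ⊆ Y) (hdis : DisjIm Y Q) (hroom : Room Y Q 𝓛.M 𝓛.D) :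
    tot (wt Y Q 𝓛.M) (𝓛.V 𝓛.L) Q = 1 := by
  rw [line_identity 𝓛.V 𝓛.T 𝓛.T0 𝓛.vt 𝓛.O 𝓛.hO 𝓛.hT0 𝓛.hT (wt_ref hroom hdis) ?_ 𝓛.hdV 𝓛.hdT
    𝓛.hdT0 𝓛.t 𝓛.hD hQ.fn 𝓛.hL 𝓛.hLN]
  · exact wt_self hQ _
  · intro ρ h1 _ h3 h4 h5
    have hc : PInj ρ ∧ Avoid Q Y ρ := by
      by_contra hc
      exact h5 (by unfold wt; rw [if_neg hc])
    exact hrob ρ h1 hc.1 h3 h4 (avoid_of_sdiff h1 hc.1 (hc.2.anti hKY))

/-- accepting leaves that are partial injections and avoid `K` -/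
def Good (Q : Ctx) (K : Finset Str) (c : Ctx) : Prop :=
  ∃ x, Leaf (𝓛.V 𝓛.L x) Q c true ∧ PInj c ∧ Avoid Q K c

open Classical in
theorem exists_good {Q : Ctx} {K : Finset Str} {s D' : ℕ} (hQ : PInj Q)
    (hrob : Robust 𝓛.O 𝓛.M 𝓛.D Q K) (hroom : Room' 𝓛.M Q (K.card + s) D') (hDD : 𝓛.D ≤ D')
    (hqD : 𝓛.q ≤ D') (hbig : 2 * 𝓛.q * (K.card + s) ≤ D' - 𝓛.q)
    (F : Finset (Idx 𝓛.M s)) (hF : F.Nonempty) :
    ∃ c, Good 𝓛 Q K c ∧ F.card ≤ 2 * (F.filter fun f => Avoid Q (Yof f) c).card := by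
  by_contra hcon
  push Not at hcon
  let ψ : Idx 𝓛.M s → Ctx → Bool → ℝ := fun f ρ b =>
    if b = true ∧ PInj ρ ∧ Avoid Q K ρ ∧ Avoid Q (Yof f) ρ then pw (fun _ => 0) Q 𝓛.M ρ else 0
  let ψK : Ctx → Bool → ℝ := fun ρ b =>
    if b = true ∧ PInj ρ ∧ Avoid Q K ρ then pw (fun _ => 0) Q 𝓛.M ρ else 0
  -- room for the sets that occur
  have hroomY : ∀ Y : Finset Str, Y.card ≤ K.card + s → Room Y Q 𝓛.M D' := by
    intro Y hY m hm
    rcases hroom m hm with h | h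
    · exact Or.inl h
    · have := ya_le_card Y m
      exact Or.inr (by omega)
  have hroomY' : ∀ Y : Finset Str, Y.card ≤ K.card + s → Room Y Q 𝓛.M 𝓛.D := by
    intro Y hY m hm
    rcases hroomY Y hY m hm with h | h
    · exact Or.inl h
    · exact Or.inr (by omega)
  have hdis : ∀ Y : Finset Str, DisjIm (Y \ imS Q) Q := by
    intro Y m x y h1 h2
    rw [Finset.mem_sdiff] at h2
    exact h2.2 (mem_imS.2 ⟨x, h1⟩)
  have hcardl : ∀ {x : X} {ρ : Ctx} {b : Bool}, Leaf (𝓛.V 𝓛.L x) Q ρ b → (ρ \ Q).card ≤ 𝓛.q :=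
    fun hl => hl.card (𝓛.hdV _ _)
  -- lower bound
  have h1 : ∀ f : Idx 𝓛.M s, (1 / 2 : ℝ) ≤ ∑ x, PE (ψ f) (𝓛.V 𝓛.L x) Q := by
    intro f
    set Y : Finset Str := (K ∪ Yof f) \ imS Q with hY
    have hYc : Y.card ≤ K.card + s :=
      (Finset.card_le_card Finset.sdiff_subset).trans ((Finset.card_union_le _ _).trans
        (Nat.add_le_add_left (card_Yof f) _))
    have hid := identity 𝓛 (Y := Y) hQ hrob
      (Finset.sdiff_subset_sdiff Finset.subset_union_left (subset_refl _)) (hdis _) (hroomY' Y hYc)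
    unfold tot at hid
    calc (1 / 2 : ℝ) = (1 / 2) * ∑ x, PE (acc (wt Y Q 𝓛.M)) (𝓛.V 𝓛.L x) Q := by rw [hid, mul_one]
      _ = ∑ x, PE (fun ρ b => (1 / 2) * acc (wt Y Q 𝓛.M) ρ b) (𝓛.V 𝓛.L x) Q := by
        rw [Finset.mul_sum]
        exact Finset.sum_congr rfl fun x _ => (PE_mul _ _ _ _).symm
      _ ≤ _ := by
        refine Finset.sum_le_sum fun x _ => PE_mono _ hQ.fn fun ρ b hl => ?_
        by_cases hb : b = true ∧ PInj ρ ∧ Avoid Q Y ρ
        · obtain ⟨hb, hρ, hav⟩ := hb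
          have h2 : Avoid Q (K ∪ Yof f) ρ := avoid_of_sdiff hl.sub hρ hav
          have h3 : b = true ∧ PInj ρ ∧ Avoid Q K ρ ∧ Avoid Q (Yof f) ρ :=
            ⟨hb, hρ, h2.anti Finset.subset_union_left, h2.anti Finset.subset_union_right⟩
          simp only [ψ, if_pos h3]
          simp only [acc, hb, if_true, wt, if_pos (And.intro hρ hav)]
          refine pw_half (hroomY Y hYc) hl.sub hρ (hcardl hl) 𝓛.hq hqD fun m _ => ?_
          refine le_trans ?_ hbig
          exact Nat.mul_le_mul_left _ ((ya_le_card Y m).trans hYc)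
        · have h4 : acc (wt Y Q 𝓛.M) ρ b = 0 := by
            unfold acc wt
            by_cases hb1 : b = true
            · rw [if_pos hb1, if_neg]
              exact fun h => hb ⟨hb1, h⟩
            · rw [if_neg hb1]
          rw [h4, mul_zero]
          simp only [ψ]
          split_ifs with h5
          · exact (pw_pos (hroomY Y hYc) hl.sub h5.2.1 ((hcardl hl).trans hqD)
              (fun _ => Nat.zero_le _)).le
          · exact le_rfl
  -- upper bound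
  have h2 : ∑ x, PE ψK (𝓛.V 𝓛.L x) Q ≤ 1 := by
    set Y : Finset Str := K \ imS Q with hY
    have hYc : Y.card ≤ K.card + s :=
      (Finset.card_le_card Finset.sdiff_subset).trans (Nat.le_add_right _ _)
    have hid := identity 𝓛 (Y := Y) hQ hrob (subset_refl _) (hdis _) (hroomY' Y hYc)
    rw [← hid]
    unfold tot
    refine Finset.sum_le_sum fun x _ => PE_mono _ hQ.fn fun ρ b hl => ?_
    simp only [ψK]
    split_ifs with h5
    · obtain ⟨hb, hρ, hav⟩ := h5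
      have h6 : Avoid Q Y ρ := hav.anti Finset.sdiff_subset
      simp only [acc, hb, if_true, wt, if_pos (And.intro hρ h6)]
      exact pw_mono (hroomY Y hYc) hl.sub hρ ((hcardl hl).trans hqD) (fun _ => Nat.zero_le _)
        (fun _ => le_rfl)
    · unfold acc wt
      split_ifs with h7 h8
      · exact (pw_pos (hroomY Y hYc) hl.sub h8.1 ((hcardl hl).trans hqD) (fun _ => le_rfl)).le
      · exact le_rfl
      · exact le_rfl
  -- comparison
  have h3 : ∑ f ∈ F, ∑ x, PE (ψ f) (𝓛.V 𝓛.L x) Q ≤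
      (((F.card : ℝ) - 1) / 2) * ∑ x, PE ψK (𝓛.V 𝓛.L x) Q := by
    rw [Finset.sum_comm, Finset.mul_sum]
    refine Finset.sum_le_sum fun x _ => ?_
    rw [← PE_sum, ← PE_mul]
    refine PE_mono _ hQ.fn fun ρ b hl => ?_
    by_cases h5 : b = true ∧ PInj ρ ∧ Avoid Q K ρ
    · have e1 : ∑ f ∈ F, ψ f ρ b =
          ((F.filter fun f => Avoid Q (Yof f) ρ).card : ℝ) * pw (fun _ => 0) Q 𝓛.M ρ := by
        rw [← nsmul_eq_mul, ← Finset.sum_const, Finset.sum_filter]
        refine Finset.sum_congr rfl fun f _ => ?_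
        simp only [ψ, h5.1, h5.2.1, h5.2.2, true_and]
      have e2 : ψK ρ b = pw (fun _ => 0) Q 𝓛.M ρ := by simp only [ψK, if_pos h5]
      rw [e1, e2]
      have hgood : Good 𝓛 Q K ρ := by
        refine ⟨x, ?_, h5.2⟩
        have := h5.1
        subst this
        exact hl
      have h6 := hcon ρ hgood
      have hYc : (∅ : Finset Str).card ≤ K.card + s := by simp
      have hpos : 0 ≤ pw (fun _ => 0) Q 𝓛.M ρ := (pw_pos (hroomY ∅ hYc) hl.sub h5.2.1
        ((hcardl hl).trans hqD) (fun _ => Nat.zero_le _)).le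
      refine mul_le_mul_of_nonneg_right ?_ hpos
      have h7 : 2 * (F.filter fun f => Avoid Q (Yof f) ρ).card + 1 ≤ F.card := by omega
      have h8 : ((2 * (F.filter fun f => Avoid Q (Yof f) ρ).card + 1 : ℕ) : ℝ) ≤ (F.card : ℝ) := by
        exact_mod_cast h7
      push_cast at h8
      linarith
    · have e1 : ∑ f ∈ F, ψ f ρ b = 0 := by
        refine Finset.sum_eq_zero fun f _ => ?_
        simp only [ψ]
        rw [if_neg]
        exact fun h => h5 ⟨h.1, h.2.1, h.2.2.1⟩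
      have e2 : ψK ρ b = 0 := by simp only [ψK, if_neg h5]
      rw [e1, e2, mul_zero]
  have h4 : (F.card : ℝ) * (1 / 2) ≤ ∑ f ∈ F, ∑ x, PE (ψ f) (𝓛.V 𝓛.L x) Q := by
    rw [← nsmul_eq_mul, ← Finset.sum_const]
    exact Finset.sum_le_sum fun f _ => h1 f
  have hF1 : (1 : ℝ) ≤ F.card := by exact_mod_cast hF.card_pos
  have h5 : (((F.card : ℝ) - 1) / 2) * ∑ x, PE ψK (𝓛.V 𝓛.L x) Q ≤ ((F.card : ℝ) - 1) / 2 :=
    mul_le_of_le_one_right (by linarith) h2
  linarith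

/-- the covering property of a list of contexts -/
def Covers (s : ℕ) (Q : Ctx) (K : Finset Str) (cs : List Ctx) : Prop :=
  cs.length ≤ (𝓛.M + 1) * s + 1 ∧ (∀ c ∈ cs, Good 𝓛 Q K c) ∧
    ∀ Y : Finset Str, Y.card ≤ s → (∀ y ∈ Y, y.1 ≤ 𝓛.M) → ∃ c ∈ cs, Avoid Q Y c

theorem exists_covers {Q : Ctx} {K : Finset Str} {s D' : ℕ} (hQ : PInj Q)
    (hrob : Robust 𝓛.O 𝓛.M 𝓛.D Q K) (hroom : Room' 𝓛.M Q (K.card + s) D') (hDD : 𝓛.D ≤ D')
    (hqD : 𝓛.q ≤ D') (hbig : 2 * 𝓛.q * (K.card + s) ≤ D' - 𝓛.q) :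
    ∃ cs, Covers 𝓛 s Q K cs := by
  classical
  have key : ∀ (k : ℕ) (F : Finset (Idx 𝓛.M s)), F.card < 2 ^ k → ∃ cs : List Ctx,
      cs.length ≤ k ∧ (∀ c ∈ cs, Good 𝓛 Q K c) ∧ ∀ f ∈ F, ∃ c ∈ cs, Avoid Q (Yof f) c := by
    intro k
    induction k with
    | zero =>
      intro F hF
      refine ⟨[], by simp, by simp, fun f hf => ?_⟩
      have : F.card = 0 := by simpa using hF
      rw [Finset.card_eq_zero] at this
      rw [this] at hf
      exact absurd hf (Finset.notMem_empty f)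
    | succ k ih =>
      intro F hF
      rcases F.eq_empty_or_nonempty with rfl | hne
      · exact ⟨[], by simp, by simp, fun f hf => absurd hf (Finset.notMem_empty f)⟩
      · obtain ⟨c, hc, hcard⟩ := exists_good 𝓛 hQ hrob hroom hDD hqD hbig F hne
        obtain ⟨cs, h1, h2, h3⟩ := ih (F.filter fun f => ¬ Avoid Q (Yof f) c) (by
          have h4 := Finset.card_filter_add_card_filter_not (s := F)
            (fun f : Idx 𝓛.M s => Avoid Q (Yof f) c)
          rw [pow_succ] at hF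
          omega)
        refine ⟨c :: cs, by simpa using h1, ?_, ?_⟩
        · intro c' hc'
          rcases List.mem_cons.1 hc' with rfl | h
          · exact hc
          · exact h2 c' h
        · intro f hf
          by_cases hfc : Avoid Q (Yof f) c
          · exact ⟨c, List.mem_cons_self, hfc⟩
          · obtain ⟨c', h5, h6⟩ := h3 f (Finset.mem_filter.2 ⟨hf, hfc⟩)
            exact ⟨c', List.mem_cons_of_mem _ h5, h6⟩
  obtain ⟨cs, h1, h2, h3⟩ := key ((𝓛.M + 1) * s + 1) Finset.univ (by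
    rw [Finset.card_univ, card_Idx]
    exact Nat.pow_lt_pow_right (by norm_num) (Nat.lt_succ_self _))
  refine ⟨cs, h1, h2, fun Y hY hl => ?_⟩
  obtain ⟨f, hf⟩ := exists_Yof (M := 𝓛.M) Y hY hl
  obtain ⟨c, hc, hav⟩ := h3 f (Finset.mem_univ _)
  exact ⟨c, hc, hav.anti hf⟩

end Pool.Agent.H616R2.SVL
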