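import Mathlib
import Pool.Agent.H616R2.SVLCover

/-!
# The attack
-/

namespace Pool.Agent.H616R2.SVL

open Finset

/-- leaves started in nested contexts -/
theorem Leaf.union {R : Type} {T : PComp R} {π : PermFam} :
    ∀ {ρ1 ρ2 ρ1' ρ2' : Ctx} {r1 r2 : R}, ρ1 ⊆ ρ2 → Leaf T ρ1 ρ1' r1 → Leaf T ρ2 ρ2' r2 →
      Cons ρ1' π → Cons ρ2' π → ρ2' = ρ2 ∪ ρ1' := by
  induction T with
  | ret r =>
    intro ρ1 ρ2 ρ1' ρ2' r1 r2 hs h1 h2 _ _
    rw [h1.1, h2.1, Finset.union_eq_left.2 hs]
  | ask x k ih =>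
    intro ρ1 ρ2 ρ1' ρ2' r1 r2 hs h1 h2 c1 c2
    rcases h1 with ⟨y1, hy1, h1⟩ | ⟨hf1, y1, h1⟩ <;> rcases h2 with ⟨y2, hy2, h2⟩ | ⟨hf2, y2, h2⟩
    · have e1 : π x.1 x.2 = y1 := c1 x y1 (h1.sub hy1)
      have e2 : π x.1 x.2 = y2 := c2 x y2 (h2.sub hy2)
      have : y1 = y2 := by rw [← e1, ← e2]
      subst this
      exact ih y1 hs h1 h2 c1 c2
    · exact absurd (hs hy1) (hf2 y1)
    · have e1 : π x.1 x.2 = y1 := c1 x y1 (h1.sub (Finset.mem_insert_self _ _))
      have e2 : π x.1 x.2 = y2 := c2 x y2 (h2.sub hy2)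
      have : y1 = y2 := by rw [← e1, ← e2]
      subst this
      refine ih y1 ?_ h1 h2 c1 c2
      intro z hz
      rcases Finset.mem_insert.1 hz with rfl | hz
      · exact hy2
      · exact hs hz
    · have e1 : π x.1 x.2 = y1 := c1 x y1 (h1.sub (Finset.mem_insert_self _ _))
      have e2 : π x.1 x.2 = y2 := c2 x y2 (h2.sub (Finset.mem_insert_self _ _))
      have : y1 = y2 := by rw [← e1, ← e2]
      subst this
      rw [ih y1 (Finset.insert_subset_insert _ hs) h1 h2 c1 c2, Finset.insert_union]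
      rw [Finset.insert_eq_self.2]
      exact Finset.mem_union_right _ (h1.sub (Finset.mem_insert_self _ _))

theorem union_pinj {c τ Q : Ctx} {π : PermFam} (hQc : Q ⊆ c) (hc : PInj c) (hτ : Cons τ π)
    (hQ : Cons Q π)
    (hdom : ∀ (m : ℕ) (x y y' : BS m), (⟨m, (x, y)⟩ : (m : ℕ) × (BS m × BS m)) ∈ c →
      (⟨m, (x, y)⟩ : (m : ℕ) × (BS m × BS m)) ∉ Q →
      (⟨m, (x, y')⟩ : (m : ℕ) × (BS m × BS m)) ∈ τ →
      (⟨m, (x, y')⟩ : (m : ℕ) × (BS m × BS m)) ∈ Q)
    (him : ∀ (m : ℕ) (x y x' : BS m), (⟨m, (x, y)⟩ : (m : ℕ) × (BS m × BS m)) ∈ c →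
      (⟨m, (x, y)⟩ : (m : ℕ) × (BS m × BS m)) ∉ Q →
      (⟨m, (x', y)⟩ : (m : ℕ) × (BS m × BS m)) ∈ τ →
      (⟨m, (x', y)⟩ : (m : ℕ) × (BS m × BS m)) ∈ Q) : PInj (c ∪ τ) := by
  have hQτ : Cons (Q ∪ τ) π := by
    intro x y h
    rcases Finset.mem_union.1 h with h | h
    · exact hQ x y h
    · exact hτ x y h
  have mixed : ∀ (m : ℕ) (x y x' y' : BS m), (⟨m, (x, y)⟩ : (m : ℕ) × (BS m × BS m)) ∈ c →
      (⟨m, (x', y')⟩ : (m : ℕ) × (BS m × BS m)) ∈ τ → (x = x' ↔ y = y') := by
    intro m x y x' y' h1 h2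
    by_cases h3 : (⟨m, (x, y)⟩ : (m : ℕ) × (BS m × BS m)) ∈ Q
    · exact hQτ.pinj m x y x' y' (Finset.mem_union_left _ h3) (Finset.mem_union_right _ h2)
    · by_cases h4 : (⟨m, (x', y')⟩ : (m : ℕ) × (BS m × BS m)) ∈ Q
      · exact hc m x y x' y' h1 (hQc h4)
      · constructor
        · rintro rfl
          exact absurd (hdom m x y y' h1 h3 h2) h4
        · rintro rfl
          exact absurd (him m x y x' h1 h3 h2) h4
  intro m x y x' y' h1 h2
  rcases Finset.mem_union.1 h1 with h1 | h1 <;> rcases Finset.mem_union.1 h2 with h2 | h2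
  · exact hc m x y x' y' h1 h2
  · exact mixed m x y x' y' h1 h2
  · have := mixed m x' y' x y h2 h1
    rw [eq_comm, this, eq_comm]
  · exact hτ.pinj m x y x' y' h1 h2

/-- domain points of the new pairs -/
noncomputable def newPts (Q c : Ctx) : List Str :=
  ((c \ Q).image fun p => (⟨p.1, p.2.1⟩ : Str)).toList

theorem mem_newPts {Q c : Ctx} {m : ℕ} {x : BS m} :
    (⟨m, x⟩ : Str) ∈ newPts Q c ↔ ∃ y, (⟨m, (x, y)⟩ : (m : ℕ) × (BS m × BS m)) ∈ c \ Q := by
  unfold newPts
  rw [Finset.mem_toList, Finset.mem_image]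
  constructor
  · rintro ⟨⟨m', x', y'⟩, hp, h⟩
    rw [Sigma.mk.injEq] at h
    obtain ⟨rfl, h⟩ := h
    simp only [heq_eq_eq] at h
    subst h
    exact ⟨y', hp⟩
  · rintro ⟨y, hy⟩
    exact ⟨_, hy, rfl⟩

theorem newPts_length (Q c : Ctx) : (newPts Q c).length ≤ (c \ Q).card := by
  unfold newPts
  rw [Finset.length_toList]
  exact Finset.card_image_le

theorem newPts_len {Q c : Ctx} {M : ℕ} (h : ∀ p ∈ c \ Q, p.1 ≤ M) : ∀ z ∈ newPts Q c, z.1 ≤ M := by
  rintro ⟨m, x⟩ hz
  obtain ⟨y, hy⟩ := mem_newPts.1 hz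
  exact h _ hy

/-- ask all queries of a list, then continue with the enlarged context -/
def learn {R : Type} (k : Ctx → PComp R) : List Str → Ctx → PComp R
  | [], Q => k Q
  | z :: zs, Q => .ask z (fun y => learn k zs (insert (pr z y) Q))

/-- the enlarged context -/
def ext (π : PermFam) : List Str → Ctx → Ctx
  | [], Q => Q
  | z :: zs, Q => ext π zs (insert (pr z (π z.1 z.2)) Q)

theorem learn_run {R : Type} (k : Ctx → PComp R) (π : PermFam) : ∀ (zs : List Str) (Q : Ctx),
    (learn k zs Q).run (orc π) = (k (ext π zs Q)).run (orc π)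
  | [], _ => rfl
  | _ :: zs, _ => learn_run k π zs _

theorem learn_depth {R : Type} {M d : ℕ} {k : Ctx → PComp R} (hk : ∀ Q, DepthLE M d (k Q)) :
    ∀ (zs : List Str) (Q : Ctx), (∀ z ∈ zs, z.1 ≤ M) → DepthLE M (zs.length + d) (learn k zs Q)
  | [], Q, _ => by simpa [learn] using hk Q
  | z :: zs, Q, h => by
    refine ⟨h z List.mem_cons_self, by rw [List.length_cons]; omega, fun y => ?_⟩
    have := learn_depth hk zs (insert (pr z y) Q) (fun z hz => h z (List.mem_cons_of_mem _ hz))
    have e : (z :: zs).length + d - 1 = zs.length + d := by rw [List.length_cons]; omega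
    rw [e]
    exact this

theorem ext_cons {π : PermFam} : ∀ (zs : List Str) {Q : Ctx}, Cons Q π → Cons (ext π zs Q) π
  | [], _, h => h
  | z :: zs, _, h => ext_cons zs (h.insert z)

theorem sub_ext {π : PermFam} : ∀ (zs : List Str) {Q : Ctx}, Q ⊆ ext π zs Q
  | [], _ => subset_refl _
  | z :: zs, _ => (Finset.subset_insert _ _).trans (sub_ext zs)

theorem mem_ext {π : PermFam} : ∀ (zs : List Str) {Q : Ctx} {z : Str}, z ∈ zs →
    pr z (π z.1 z.2) ∈ ext π zs Q
  | z' :: zs, Q, z, h => by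
    rcases List.mem_cons.1 h with rfl | h
    · exact sub_ext zs (Finset.mem_insert_self _ _)
    · exact mem_ext zs h

theorem cnt_insert_le (Q : Ctx) (z : Str) (y : BS z.1) (m : ℕ) :
    cnt (insert (pr z y) Q) m ≤ cnt Q m + 1 := by
  unfold cnt
  have h : prs (insert (pr z y) Q) m ⊆ prs Q m ∪ (prs {pr z y} m) := by
    intro w hw
    rw [mem_prs, Finset.mem_insert] at hw
    rw [Finset.mem_union, mem_prs, mem_prs, Finset.mem_singleton]
    exact hw.symm
  refine (Finset.card_le_card h).trans ((Finset.card_union_le _ _).trans ?_)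
  have := cnt_le_card {pr z y} m
  rw [Finset.card_singleton] at this
  unfold cnt at this
  omega

theorem cnt_ext_le {π : PermFam} (m : ℕ) : ∀ (zs : List Str) {Q : Ctx},
    cnt (ext π zs Q) m ≤ cnt Q m + zs.length
  | [], _ => by simp [ext]
  | z :: zs, Q => by
    have h1 := cnt_ext_le (π := π) m zs (Q := insert (pr z (π z.1 z.2)) Q)
    have h2 := cnt_insert_le Q z (π z.1 z.2) m
    simp only [ext, List.length_cons]
    omega

theorem cnt_ext_ne {π : PermFam} (m : ℕ) : ∀ (zs : List Str) {Q : Ctx}, (∀ z ∈ zs, m ≠ z.1) →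
    cnt (ext π zs Q) m = cnt Q m
  | [], _, _ => rfl
  | z :: zs, Q, h => by
    have h1 := cnt_ext_ne (π := π) m zs (Q := insert (pr z (π z.1 z.2)) Q)
      (fun z hz => h z (List.mem_cons_of_mem _ hz))
    rw [ext, h1, cnt_insert_ne _ (h z List.mem_cons_self)]

variable {X : Type} [Fintype X] [DecidableEq X] (𝓛 : Line X)

/-- the context determines the vertex with index `L` -/
def Cert (Q : Ctx) (x : X) : Prop := ∀ π, 𝓛.O π → Cons Q π → 𝓛.vt π 𝓛.L = x

/-- a witness that `Q, K` is not robust -/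
def Bad (Q : Ctx) (K : Finset Str) (ρ : Ctx) : Prop :=
  Q ⊆ ρ ∧ PInj ρ ∧ (ρ \ Q).card ≤ 𝓛.D ∧ (∀ p ∈ ρ \ Q, p.1 ≤ 𝓛.M) ∧ Avoid Q K ρ ∧
    ¬ ∃ π, Cons ρ π ∧ 𝓛.O π

open Classical in
/-- the next queries and the next set `K` -/
noncomputable def step (s : ℕ) (Q : Ctx) (K : Finset Str) : List Str × Finset Str :=
  if h : ∃ ρ, Bad 𝓛 Q K ρ then (newPts Q h.choose, K ∪ imS (h.choose \ Q))
  else if h : ∃ cs, Covers 𝓛 s Q K cs then (h.choose.flatMap (newPts Q), K)
  else ([], K)

/-- bound on the number of queries in a step -/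
def stepBound (s : ℕ) : ℕ := 𝓛.D + ((𝓛.M + 1) * s + 1) * 𝓛.q

theorem flatMap_length {α β : Type} (f : α → List β) (q : ℕ) : ∀ (l : List α),
    (∀ a ∈ l, (f a).length ≤ q) → (l.flatMap f).length ≤ l.length * q
  | [], _ => by simp
  | a :: l, h => by
    have h1 := flatMap_length f q l (fun a ha => h a (List.mem_cons_of_mem _ ha))
    have h2 := h a List.mem_cons_self
    rw [List.flatMap_cons, List.length_append, List.length_cons, add_mul, one_mul]
    omega

theorem step_length (s : ℕ) (Q : Ctx) (K : Finset Str) :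
    (step 𝓛 s Q K).1.length ≤ stepBound 𝓛 s := by
  unfold step stepBound
  split_ifs with h h'
  · exact (newPts_length _ _).trans (h.choose_spec.2.2.1.trans (Nat.le_add_right _ _))
  · have h1 := h'.choose_spec
    refine (flatMap_length (newPts Q) 𝓛.q _ ?_).trans
      ((Nat.mul_le_mul_right _ h1.1).trans (Nat.le_add_left _ _))
    intro c hc
    obtain ⟨x, hl, _⟩ := h1.2.1 c hc
    exact (newPts_length _ _).trans (hl.card (𝓛.hdV _ _))
  · simp

theorem step_len (s : ℕ) (Q : Ctx) (K : Finset Str) : ∀ z ∈ (step 𝓛 s Q K).1, z.1 ≤ 𝓛.M := by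
  unfold step
  split_ifs with h h'
  · exact newPts_len h.choose_spec.2.2.2.1
  · have h1 := h'.choose_spec
    intro z hz
    rw [List.mem_flatMap] at hz
    obtain ⟨c, hc, hz⟩ := hz
    obtain ⟨x, hl, _⟩ := h1.2.1 c hc
    exact newPts_len (hl.len (𝓛.hdV _ _)) z hz
  · simp

theorem step_card (s : ℕ) (Q : Ctx) (K : Finset Str) :
    (step 𝓛 s Q K).2.card ≤ K.card + stepBound 𝓛 s := by
  unfold step stepBound
  split_ifs with h h'
  · refine (Finset.card_union_le _ _).trans ?_
    have := (Finset.card_image_le (s := h.choose \ Q)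
      (f := fun p => (⟨p.1, p.2.2⟩ : Str))).trans h.choose_spec.2.2.1
    unfold imS
    omega
  · exact Nat.le_add_right _ _
  · exact Nat.le_add_right _ _

open Classical in
/-- the attack with `f` rounds -/
noncomputable def att (s : ℕ) : ℕ → Ctx → Finset Str → PComp X
  | 0, _, _ => .ret (𝓛.vt (fun _ => Equiv.refl _) 0)
  | f + 1, Q, K =>
    if h : ∃ x, Cert 𝓛 Q x then .ret h.choose
    else learn (fun Q' => att s f Q' (step 𝓛 s Q K).2) (step 𝓛 s Q K).1 Q

theorem att_depth (s : ℕ) : ∀ (f : ℕ) (Q : Ctx) (K : Finset Str),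
    DepthLE 𝓛.M (f * stepBound 𝓛 s) (att 𝓛 s f Q K)
  | 0, _, _ => trivial
  | f + 1, Q, K => by
    rw [att]
    split_ifs with h
    · trivial
    · refine DepthLE.mono _ le_rfl ?_ (learn_depth (fun Q' => att_depth s f Q' _) _ _
        (step_len 𝓛 s Q K))
      have := step_length 𝓛 s Q K
      rw [add_mul, one_mul]
      omega

/-- potential function -/
noncomputable def pot (p : ℕ) (γ τ Q : Ctx) (K : Finset Str) : ℕ :=
  (p + 1) * (τ \ Q).card + (p - ((γ \ Q).filter fun z => (⟨z.1, z.2.2⟩ : Str) ∈ K).card)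

theorem pot_lt_of_card {p : ℕ} {γ τ Q Q' : Ctx} {K K' : Finset Str}
    (h : (τ \ Q').card < (τ \ Q).card) : pot p γ τ Q' K' < pot p γ τ Q K := by
  unfold pot
  have h1 : (p + 1) * ((τ \ Q').card + 1) ≤ (p + 1) * (τ \ Q).card :=
    Nat.mul_le_mul_left _ h
  have h2 : (p + 1) * ((τ \ Q').card + 1) = (p + 1) * (τ \ Q').card + (p + 1) := by ring
  omega

/-- the new pairs of `τ` are not touched if there is no progress -/
theorem no_progress {π : PermFam} {τ Q : Ctx} (hτ : Cons τ π) (zs : List Str)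
    (h : ¬ (τ \ ext π zs Q).card < (τ \ Q).card) :
    ∀ (m : ℕ) (x y : BS m), (⟨m, (x, y)⟩ : (m : ℕ) × (BS m × BS m)) ∈ τ →
      (⟨m, x⟩ : Str) ∈ zs → (⟨m, (x, y)⟩ : (m : ℕ) × (BS m × BS m)) ∈ Q := by
  intro m x y h1 h2
  by_contra h3
  apply h
  refine Finset.card_lt_card ?_
  refine ⟨Finset.sdiff_subset_sdiff (subset_refl _) (sub_ext zs), fun h4 => ?_⟩
  have h5 : (⟨m, (x, y)⟩ : (m : ℕ) × (BS m × BS m)) ∈ τ \ ext π zs Q :=
    h4 (Finset.mem_sdiff.2 ⟨h1, h3⟩)
  have h6 := mem_ext (π := π) zs (Q := Q) h2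
  have h7 : π m x = y := hτ ⟨m, x⟩ y h1
  rw [pr] at h6
  simp only at h6
  rw [h7] at h6
  exact (Finset.mem_sdiff.1 h5).2 h6

theorem att_correct {π : PermFam} (hO : 𝓛.O π) {γ cst : Ctx} (hγ : Cons γ π)
    (hγO : ∀ π', Cons γ π' → 𝓛.O π') {p : ℕ} (hγc : γ.card ≤ p) (hγl : ∀ z ∈ γ, z.1 ≤ 𝓛.M)
    (hcst : Leaf (𝓛.V 𝓛.L (𝓛.vt π 𝓛.L)) ∅ cst true) (hcstπ : Cons cst π)
    {F m0 D' : ℕ} (hDD : 𝓛.D ≤ D') (hqD : 𝓛.q ≤ D')
    (hbig : 2 * 𝓛.q * (F * stepBound 𝓛 (p + 𝓛.q) + (p + 𝓛.q)) ≤ D' - 𝓛.q)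
    (hm0 : ∀ m, m0 ≤ m → F * stepBound 𝓛 (p + 𝓛.q) +
      (F * stepBound 𝓛 (p + 𝓛.q) + (p + 𝓛.q)) + D' ≤ 2 ^ m) :
    ∀ (f t : ℕ) (Q : Ctx) (K : Finset Str), Cons Q π → (∀ m < m0, ∀ x : BS m, ¬ Fresh Q ⟨m, x⟩) →
      (∀ m, m0 ≤ m → cnt Q m ≤ t * stepBound 𝓛 (p + 𝓛.q)) →
      K.card ≤ t * stepBound 𝓛 (p + 𝓛.q) → t + f ≤ F → pot p γ (γ ∪ cst) Q K < f →
      (att 𝓛 (p + 𝓛.q) f Q K).run (orc π) = 𝓛.vt π 𝓛.L := by
  set s := p + 𝓛.q with hs
  set E := stepBound 𝓛 s with hE
  set τ := γ ∪ cst with hτdef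
  have hτ : Cons τ π := by
    intro x y h
    rcases Finset.mem_union.1 h with h | h
    · exact hγ x y h
    · exact hcstπ x y h
  have hcstc : cst.card ≤ 𝓛.q := by
    have := hcst.card (𝓛.hdV _ _)
    simpa using this
  have hcstl : ∀ z ∈ cst, z.1 ≤ 𝓛.M := by
    have := hcst.len (𝓛.hdV _ _)
    simpa using this
  have hτc : τ.card ≤ s := (Finset.card_union_le _ _).trans (by omega)
  have hτl : ∀ z ∈ τ, z.1 ≤ 𝓛.M := by
    intro z hz
    rcases Finset.mem_union.1 hz with h | h
    · exact hγl z h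
    · exact hcstl z h
  intro f
  induction f with
  | zero => intro t Q K _ _ _ _ _ h; exact absurd h (Nat.not_lt_zero _)
  | succ f ih =>
    intro t Q K hQ hsmall hcnt hK htF hpot
    rw [att]
    split_ifs with hc
    · exact (hc.choose_spec π hO hQ).symm
    · rw [learn_run]
      have hstep1 := step_length 𝓛 s Q K
      have hstep2 := step_card 𝓛 s Q K
      have htE : (t + 1) * E = t * E + E := by ring
      refine ih (t + 1) (ext π (step 𝓛 s Q K).1 Q) (step 𝓛 s Q K).2 (ext_cons _ hQ) ?_ ?_ ?_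
        (by omega) ?_
      · intro m hm x hfr
        exact hsmall m hm x (hfr.mono (sub_ext _))
      · intro m hm
        have h1 := cnt_ext_le (π := π) m (step 𝓛 s Q K).1 (Q := Q)
        have h2 := hcnt m hm
        omega
      · omega
      · -- the potential decreases
        refine lt_of_lt_of_le ?_ (Nat.lt_succ_iff.1 hpot)
        by_cases hprog : (τ \ ext π (step 𝓛 s Q K).1 Q).card < (τ \ Q).card
        · exact pot_lt_of_card hprog
        · have hnp := no_progress hτ _ hprog
          by_cases hbad : ∃ ρ, Bad 𝓛 Q K ρ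
          · -- not robust
            have hstepeq : step 𝓛 s Q K = (newPts Q hbad.choose, K ∪ imS (hbad.choose \ Q)) := by
              unfold step; rw [dif_pos hbad]
            obtain ⟨hb1, hb2, hb3, hb4, hb5, hb6⟩ := hbad.choose_spec
            set ρ := hbad.choose with hρ
            rw [hstepeq] at hnp ⊢
            -- some new pair of `γ` has its image in the new part
            have hex : ∃ z ∈ γ \ Q, (⟨z.1, z.2.2⟩ : Str) ∈ imS (ρ \ Q) := by
              by_contra hno
              push Not at hno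
              have hpinj : PInj (ρ ∪ γ) := by
                refine union_pinj hb1 hb2 hγ hQ ?_ ?_
                · intro m x y y' h1 h2 h3
                  exact hnp m x y' (Finset.mem_union_left _ h3)
                    (mem_newPts.2 ⟨y, Finset.mem_sdiff.2 ⟨h1, h2⟩⟩)
                · intro m x y x' h1 h2 h3
                  by_contra h4
                  exact hno ⟨m, (x', y)⟩ (Finset.mem_sdiff.2 ⟨h3, h4⟩)
                    (mem_imS.2 ⟨x, Finset.mem_sdiff.2 ⟨h1, h2⟩⟩)
              obtain ⟨π', hπ'⟩ := hpinj.exists_cons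
              exact hb6 ⟨π', hπ'.mono Finset.subset_union_left,
                hγO π' (hπ'.mono Finset.subset_union_right)⟩
            obtain ⟨z, hz, hzi⟩ := hex
            -- the pair is still new
            have hτeq : τ \ ext π (newPts Q ρ) Q = τ \ Q := by
              refine Finset.eq_of_subset_of_card_le
                (Finset.sdiff_subset_sdiff (subset_refl _) (sub_ext _)) ?_
              have := hprog
              rw [hstepeq] at this
              exact not_lt.1 this
            have hγeq : γ \ ext π (newPts Q ρ) Q = γ \ Q := by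
              ext w
              rw [Finset.mem_sdiff, Finset.mem_sdiff]
              constructor
              · rintro ⟨h1, h2⟩
                exact ⟨h1, fun h3 => h2 (sub_ext _ h3)⟩
              · rintro ⟨h1, h2⟩
                have h3 : w ∈ τ \ Q := Finset.mem_sdiff.2 ⟨Finset.mem_union_left _ h1, h2⟩
                rw [← hτeq] at h3
                exact ⟨h1, (Finset.mem_sdiff.1 h3).2⟩
            have hznotK : (⟨z.1, z.2.2⟩ : Str) ∉ K := by
              obtain ⟨x, hx⟩ := mem_imS.1 hzi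
              rw [Finset.mem_sdiff] at hx
              exact hb5 z.1 x z.2.2 hx.1 hx.2
            have hlt : ((γ \ Q).filter fun z => (⟨z.1, z.2.2⟩ : Str) ∈ K).card <
                ((γ \ Q).filter fun z => (⟨z.1, z.2.2⟩ : Str) ∈ K ∪ imS (ρ \ Q)).card := by
              refine Finset.card_lt_card ⟨?_, fun h => ?_⟩
              · intro w hw
                rw [Finset.mem_filter] at hw ⊢
                exact ⟨hw.1, Finset.mem_union_left _ hw.2⟩
              · have h1 := h (Finset.mem_filter.2 ⟨hz, Finset.mem_union_right _ hzi⟩)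
                exact hznotK (Finset.mem_filter.1 h1).2
            have hle : ((γ \ Q).filter fun z => (⟨z.1, z.2.2⟩ : Str) ∈ K ∪ imS (ρ \ Q)).card ≤ p :=
              (Finset.card_filter_le _ _).trans ((Finset.card_le_card Finset.sdiff_subset).trans hγc)
            unfold pot
            simp only
            rw [hτeq, hγeq]
            omega
          · -- robust
            exfalso
            have hrob : Robust 𝓛.O 𝓛.M 𝓛.D Q K := by
              intro ρ h1 h2 h3 h4 h5
              by_contra h6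
              exact hbad ⟨ρ, h1, h2, h3, h4, h5, h6⟩
            have htE' : t * E ≤ F * E := Nat.mul_le_mul_right _ (by omega)
            have hcov : ∃ cs, Covers 𝓛 s Q K cs := by
              refine exists_covers 𝓛 hQ.pinj hrob (D' := D') ?_ hDD hqD ?_
              · intro m _
                by_cases hm : m < m0
                · exact Or.inl (hsmall m hm)
                · have h1 := hm0 m (not_lt.1 hm)
                  have h2 := hcnt m (not_lt.1 hm)
                  exact Or.inr (by omega)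
              · refine le_trans ?_ hbig
                exact Nat.mul_le_mul_left _ (by omega)
            have hstepeq : step 𝓛 s Q K = (hcov.choose.flatMap (newPts Q), K) := by
              unfold step; rw [dif_neg hbad, dif_pos hcov]
            obtain ⟨_, hc2, hc3⟩ := hcov.choose_spec
            rw [hstepeq] at hnp
            obtain ⟨c, hcmem, hav⟩ := hc3 (imS (τ \ Q))
              ((Finset.card_image_le).trans ((Finset.card_le_card Finset.sdiff_subset).trans hτc))
              (by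
                intro y hy
                unfold imS at hy
                rw [Finset.mem_image] at hy
                obtain ⟨z, hz, rfl⟩ := hy
                exact hτl z (Finset.mem_sdiff.1 hz).1)
            obtain ⟨x, hl, hcinj, _⟩ := hc2 c hcmem
            have hdom : ∀ (m : ℕ) (x y y' : BS m),
                (⟨m, (x, y)⟩ : (m : ℕ) × (BS m × BS m)) ∈ c →
                (⟨m, (x, y)⟩ : (m : ℕ) × (BS m × BS m)) ∉ Q →
                (⟨m, (x, y')⟩ : (m : ℕ) × (BS m × BS m)) ∈ τ →
                (⟨m, (x, y')⟩ : (m : ℕ) × (BS m × BS m)) ∈ Q := by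
              intro m x y y' h1 h2 h3
              refine hnp m x y' h3 ?_
              rw [List.mem_flatMap]
              exact ⟨c, hcmem, mem_newPts.2 ⟨y, Finset.mem_sdiff.2 ⟨h1, h2⟩⟩⟩
            have hpinj : PInj (c ∪ τ) := by
              refine union_pinj hl.sub hcinj hτ hQ hdom ?_
              intro m x y x' h1 h2 h3
              by_contra h4
              exact hav m x y h1 h2 (mem_imS.2 ⟨x', Finset.mem_sdiff.2 ⟨h3, h4⟩⟩)
            obtain ⟨π', hπ'⟩ := hpinj.exists_cons
            have hcπ' : Cons c π' := hπ'.mono Finset.subset_union_left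
            have hτπ' : Cons τ π' := hπ'.mono Finset.subset_union_right
            have hOπ' : 𝓛.O π' := hγO π' (hτπ'.mono Finset.subset_union_left)
            have e1 := (𝓛.hO π' hOπ' 𝓛.L 𝓛.hLN x).1 (hl.run hcπ')
            have e2 := (𝓛.hO π' hOπ' 𝓛.L 𝓛.hLN (𝓛.vt π 𝓛.L)).1
              (hcst.run (hτπ'.mono Finset.subset_union_right))
            have e3 : x = 𝓛.vt π 𝓛.L := by rw [e1, e2]
            subst e3
            have e4 : c = Q ∪ cst := Leaf.union (Finset.empty_subset _) hcst hl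
              (hτπ'.mono Finset.subset_union_right) hcπ'
            have e5 : c = Q := by
              refine Finset.Subset.antisymm ?_ hl.sub
              rw [e4]
              refine Finset.union_subset (subset_refl _) ?_
              rintro ⟨m, x, y⟩ hz
              by_contra h4
              exact h4 (hdom m x y y (by rw [e4]; exact Finset.mem_union_right _ hz) h4
                (Finset.mem_union_right _ hz))
            refine hc ⟨𝓛.vt π 𝓛.L, fun π'' hO'' hQ'' => ?_⟩
            rw [e5] at hl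
            exact ((𝓛.hO π'' hO'' 𝓛.L 𝓛.hLN _).1 (hl.run hQ'')).symm

end Pool.Agent.H616R2.SVL
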