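import Mathlib
import Pool.Agent.H616R2.SVLAttack

/-!
# Random permutations are hard to invert with few queries
-/

namespace Pool.Agent.H616R2.SVL

open Finset

/-- the queries made on oracle `o` -/
def qs {R : Type} (π : PermFam) : PComp R → List Str
  | .ret _ => []
  | .ask x k => x :: qs π (k (π x.1 x.2))

theorem qs_length {R : Type} {M : ℕ} (π : PermFam) (T : PComp R) :
    ∀ {d : ℕ}, DepthLE M d T → (qs π T).length ≤ d := by
  induction T with
  | ret r => intro d _; exact Nat.zero_le _
  | ask x k ih =>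
    intro d h
    have := ih (π x.1 x.2) (h.2.2 _)
    have h1 := h.2.1
    rw [qs, List.length_cons]
    omega

theorem run_agree {R : Type} (π π' : PermFam) (T : PComp R)
    (h : ∀ z ∈ qs π T, π z.1 z.2 = π' z.1 z.2) : T.run (orc π') = T.run (orc π) := by
  induction T with
  | ret r => rfl
  | ask x k ih =>
    have h1 := h x List.mem_cons_self
    rw [OComp.run, OComp.run]
    have e : orc π' x = orc π x := h1.symm
    rw [e]
    exact ih _ fun z hz => h z (List.mem_cons_of_mem _ hz)

theorem run_agree_len {R : Type} {M : ℕ} (π π' : PermFam) (T : PComp R) :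
    ∀ {d : ℕ}, DepthLE M d T → (∀ m ≤ M, π m = π' m) → T.run (orc π') = T.run (orc π) := by
  induction T with
  | ret r => intro d _ _; rfl
  | ask x k ih =>
    intro d h h'
    rw [OComp.run, OComp.run]
    have e : orc π' x = orc π x := by unfold orc; rw [h' x.1 h.1]
    rw [e]
    exact ih _ (h.2.2 _) h'

theorem qs_prefix {R : Type} (π π' : PermFam) (z0 : Str) (T : PComp R) (h0 : z0 ∈ qs π T)
    (h : ∀ z ∈ qs π T, z ≠ z0 → π z.1 z.2 = π' z.1 z.2) : z0 ∈ qs π' T := by
  induction T with
  | ret r => exact absurd h0 (by simp [qs])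
  | ask x k ih =>
    by_cases hx : x = z0
    · subst hx; exact List.mem_cons_self
    · have h1 := h x List.mem_cons_self hx
      rw [qs, ← h1]
      rw [qs, List.mem_cons] at h0
      rcases h0 with h0 | h0
      · exact absurd h0.symm hx
      · exact List.mem_cons_of_mem _ (ih _ h0 fun z hz => h z (List.mem_cons_of_mem _ hz))

/-- permutations of the strings of length at most `M` -/
abbrev Om (M : ℕ) : Type := ∀ m : Fin (M + 1), Equiv.Perm (BS m)

/-- extension by the identity -/
def lift {M : ℕ} (ω : Om M) : PermFam := fun m => if h : m < M + 1 then ω ⟨m, h⟩ else Equiv.refl _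

/-- swap two points, at length `n` -/
def swapAt {M : ℕ} (n : Fin (M + 1)) (ω : Om M) (x b : BS n) : Om M :=
  Function.update ω n ((Equiv.swap x b).trans (ω n))

theorem lift_apply {M : ℕ} (ω : Om M) (n : Fin (M + 1)) : lift ω (n : ℕ) = ω n := by
  unfold lift
  rw [dif_pos n.2]

theorem lift_swapAt_self {M : ℕ} (n : Fin (M + 1)) (ω : Om M) (x b z : BS n) :
    lift (swapAt n ω x b) n z = lift ω n (Equiv.swap x b z) := by
  rw [lift_apply, lift_apply, swapAt, Function.update_self]
  rfl

theorem lift_swapAt_ne {M : ℕ} (n : Fin (M + 1)) (ω : Om M) (x b : BS n) (z : Str)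
    (h1 : z ≠ ⟨n, x⟩) (h2 : z ≠ ⟨n, b⟩) :
    lift ω z.1 z.2 = lift (swapAt n ω x b) z.1 z.2 := by
  by_cases hz : z.1 = n
  · rcases z with ⟨m, z⟩
    simp only at hz
    subst hz
    rw [lift_swapAt_self, Equiv.swap_apply_of_ne_of_ne]
    · rintro rfl; exact h1 rfl
    · rintro rfl; exact h2 rfl
  · rcases z with ⟨m, z⟩
    simp only at hz ⊢
    unfold lift
    split_ifs with h
    · rw [swapAt, Function.update_of_ne]
      intro h'
      apply hz
      rw [← h']
    · rfl

theorem swapAt_swapAt {M : ℕ} (n : Fin (M + 1)) (ω : Om M) (x b : BS n) :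
    swapAt n (swapAt n ω x b) b x = ω := by
  unfold swapAt
  rw [Function.update_self, Function.update_idem]
  have : (Equiv.swap b x).trans ((Equiv.swap x b).trans (ω n)) = ω n := by
    ext z
    simp [Equiv.swap_comm b x]
  rw [this, Function.update_eq_self]

open Classical in
theorem card_qs {n t : ℕ} (l : List Str) (hl : l.length ≤ t) :
    (Finset.univ.filter fun b : BS n => (⟨n, b⟩ : Str) ∈ l).card ≤ t := by
  have h1 : (Finset.univ.filter fun b : BS n => (⟨n, b⟩ : Str) ∈ l).card ≤ l.toFinset.card := by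
    refine Finset.card_le_card_of_injOn (fun b => (⟨n, b⟩ : Str)) ?_ ?_
    · intro b hb
      rw [Finset.mem_coe, List.mem_toFinset]
      exact (Finset.mem_filter.1 hb).2
    · intro b _ b' _ h
      simpa using h
  exact h1.trans ((List.toFinset_card_le l).trans hl)

open Classical in
/-- inversion bound -/
theorem inversion_bound {M t : ℕ} (n : Fin (M + 1)) (T : BS n → PComp (BS n))
    (hT : ∀ y, ∃ M', DepthLE M' t (T y)) :
    ∑ ω : Om M, (Finset.univ.filter fun x : BS n =>
      (T (lift ω n x)).run (orc (lift ω)) = x).card ≤ (2 * t + 1) * Fintype.card (Om M) := by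
  -- the set of successes
  let S : Finset ((ω : Om M) × BS n) := Finset.univ.filter fun p =>
    (T (lift p.1 n p.2)).run (orc (lift p.1)) = p.2
  let B : Type := BS n
  -- triples
  let A1 : Finset (Om M × (BS n × BS n)) := Finset.univ.filter fun p =>
    (⟨n, p.2.2⟩ : Str) ∈ qs (lift p.1) (T (lift p.1 n p.2.1))
  let A2 : Finset (Om M × (BS n × BS n)) := Finset.univ.filter fun p =>
    (T (lift p.1 n p.2.1)).run (orc (lift p.1)) = p.2.2
  let A : Finset (Om M × (BS n × BS n)) := Finset.univ.filter fun p =>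
    (T (lift p.1 n p.2.1)).run (orc (lift p.1)) = p.2.1
  let Φ : Om M × (BS n × BS n) → Om M × (BS n × BS n) := fun p =>
    (swapAt n p.1 p.2.1 p.2.2, (p.2.2, p.2.1))
  have hΦ : Function.Injective Φ := by
    intro p p' h
    simp only [Φ, Prod.mk.injEq] at h
    obtain ⟨h1, h2, h3⟩ := h
    have e := swapAt_swapAt n p.1 p.2.1 p.2.2
    rw [h1, h2, h3, swapAt_swapAt] at e
    exact Prod.ext e.symm (Prod.ext h3 h2)
  have hcov : A ⊆ A1 ∪ (A1 ∪ A2).preimage Φ hΦ.injOn := by
    rintro ⟨ω, x, b⟩ hp
    rw [Finset.mem_filter] at hp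
    have hp := hp.2
    simp only at hp
    rw [Finset.mem_union]
    by_cases h1 : (⟨n, b⟩ : Str) ∈ qs (lift ω) (T (lift ω n x))
    · left
      rw [Finset.mem_filter]
      exact ⟨Finset.mem_univ _, h1⟩
    · right
      rw [Finset.mem_preimage, Finset.mem_union]
      have hy : lift (swapAt n ω x b) n b = lift ω n x := by
        rw [lift_swapAt_self, Equiv.swap_apply_right]
      by_cases h2 : (⟨n, x⟩ : Str) ∈ qs (lift ω) (T (lift ω n x))
      · left
        rw [Finset.mem_filter]
        refine ⟨Finset.mem_univ _, ?_⟩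
        simp only [Φ]
        rw [hy]
        refine qs_prefix (lift ω) _ _ _ h2 fun z hz hne => ?_
        refine lift_swapAt_ne n ω x b z hne ?_
        rintro rfl
        exact h1 hz
      · right
        rw [Finset.mem_filter]
        refine ⟨Finset.mem_univ _, ?_⟩
        simp only [Φ]
        rw [hy, ← hp]
        have := run_agree (lift ω) (lift (swapAt n ω x b)) (T (lift ω n x)) ?_
        · rw [hp] at this ⊢
          exact this
        · intro z hz
          refine lift_swapAt_ne n ω x b z ?_ ?_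
          · rintro rfl; exact h2 hz
          · rintro rfl; exact h1 hz
  have hBpos : 0 < Fintype.card (BS n) := Fintype.card_pos
  -- cardinalities
  have hA1 : A1.card ≤ Fintype.card (Om M) * (Fintype.card (BS n) * t) := by
    have e : A1.card = ∑ ω : Om M, ∑ x : BS n, (Finset.univ.filter fun b : BS n =>
        (⟨n, b⟩ : Str) ∈ qs (lift ω) (T (lift ω n x))).card := by
      simp only [A1, Finset.card_filter]
      rw [Fintype.sum_prod_type]
      refine Finset.sum_congr rfl fun ω _ => ?_
      rw [Fintype.sum_prod_type]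
    rw [e]
    have e2 : ∑ _ω : Om M, ∑ _x : BS n, t = Fintype.card (Om M) * (Fintype.card (BS n) * t) := by
      rw [Finset.sum_const, Finset.sum_const, Finset.card_univ, Finset.card_univ, smul_eq_mul,
        smul_eq_mul]
    rw [← e2]
    refine Finset.sum_le_sum fun ω _ => Finset.sum_le_sum fun x _ => ?_
    obtain ⟨M', hM'⟩ := hT (lift ω n x)
    exact card_qs _ (qs_length _ _ hM')
  have hA2 : A2.card ≤ Fintype.card (Om M) * (Fintype.card (BS n) * 1) := by
    have e : A2.card = ∑ ω : Om M, ∑ x : BS n, (Finset.univ.filter fun b : BS n =>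
        (T (lift ω n x)).run (orc (lift ω)) = b).card := by
      simp only [A2, Finset.card_filter]
      rw [Fintype.sum_prod_type]
      refine Finset.sum_congr rfl fun ω _ => ?_
      rw [Fintype.sum_prod_type]
    rw [e]
    have e2 : ∑ _ω : Om M, ∑ _x : BS n, 1 = Fintype.card (Om M) * (Fintype.card (BS n) * 1) := by
      rw [Finset.sum_const, Finset.sum_const, Finset.card_univ, Finset.card_univ, smul_eq_mul,
        smul_eq_mul]
    rw [← e2]
    refine Finset.sum_le_sum fun ω _ => Finset.sum_le_sum fun x _ => ?_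
    rw [Finset.filter_eq]
    simp
  have hA : A.card = (∑ ω : Om M, (Finset.univ.filter fun x : BS n =>
      (T (lift ω n x)).run (orc (lift ω)) = x).card) * Fintype.card (BS n) := by
    simp only [A, Finset.card_filter]
    rw [Fintype.sum_prod_type, Finset.sum_mul]
    refine Finset.sum_congr rfl fun ω _ => ?_
    rw [Fintype.sum_prod_type, Finset.sum_mul]
    refine Finset.sum_congr rfl fun x _ => ?_
    by_cases hx : (T (lift ω n x)).run (orc (lift ω)) = x
    · simp [hx]
    · simp [hx]
  have hle : A.card ≤ A1.card + (A1.card + A2.card) := by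
    refine (Finset.card_le_card hcov).trans ((Finset.card_union_le _ _).trans ?_)
    refine Nat.add_le_add_left ?_ _
    refine le_trans ?_ (Finset.card_union_le _ _)
    rw [Finset.card_preimage]
    exact Finset.card_filter_le _ _
  rw [hA] at hle
  refine Nat.le_of_mul_le_mul_right (c := Fintype.card (BS n)) ?_ hBpos
  calc _ ≤ A1.card + (A1.card + A2.card) := hle
    _ ≤ Fintype.card (Om M) * (Fintype.card (BS n) * t) +
        (Fintype.card (Om M) * (Fintype.card (BS n) * t) +
          Fintype.card (Om M) * (Fintype.card (BS n) * 1)) := by omega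
    _ = _ := by ring

/-! ### Compactness -/

open Classical in
theorem exists_all_good (bad : ℕ → PermFam → Prop) (Mb : ℕ → ℕ)
    (hdep : ∀ n π π', (∀ m ≤ Mb n, π m = π' m) → bad n π → bad n π')
    (hcount : ∀ n M, Mb n ≤ M → (Finset.univ.filter fun ω : Om M => bad n (lift ω)).card *
      (2 * ((n + 1) * (n + 2))) ≤ Fintype.card (Om M)) :
    ∃ π : PermFam, ∀ n, ¬ bad n π := by
  by_contra hcon
  push Not at hcon
  let _ : ∀ m : ℕ, TopologicalSpace (Equiv.Perm (BS m)) := fun _ => ⊥
  have _ : ∀ m : ℕ, DiscreteTopology (Equiv.Perm (BS m)) := fun _ => ⟨rfl⟩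
  have _ : ∀ m : ℕ, CompactSpace (Equiv.Perm (BS m)) := fun _ => Finite.compactSpace
  have hopen : ∀ n, IsOpen {π : PermFam | bad n π} := by
    intro n
    rw [isOpen_iff_forall_mem_open]
    intro π hπ
    refine ⟨Set.pi ((Finset.range (Mb n + 1) : Finset ℕ) : Set ℕ) (fun m => {π m}), ?_, ?_, ?_⟩
    · intro π' hπ'
      refine hdep n π π' (fun m hm => ?_) hπ
      exact (hπ' m (by simpa using Nat.lt_succ_of_le hm)).symm
    · exact isOpen_set_pi (Finset.finite_toSet _) fun m _ => isOpen_discrete _
    · intro m _; rfl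
  obtain ⟨s, hs⟩ := isCompact_univ.elim_finite_subcover (fun n => {π : PermFam | bad n π}) hopen
    (by intro π _; obtain ⟨n, hn⟩ := hcon π; exact Set.mem_iUnion.2 ⟨n, hn⟩)
  -- a common level
  obtain ⟨M, hM⟩ : ∃ M, ∀ n ∈ s, Mb n ≤ M := ⟨s.sup Mb, fun n hn => Finset.le_sup hn⟩
  obtain ⟨N, hN⟩ : ∃ N, ∀ n ∈ s, n < N := ⟨s.sup id + 1, fun n hn =>
    Nat.lt_succ_of_le (Finset.le_sup (f := id) hn)⟩
  have h1 : (Finset.univ : Finset (Om M)) ⊆
      s.biUnion fun n => Finset.univ.filter fun ω : Om M => bad n (lift ω) := by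
    intro ω _
    have := hs (Set.mem_univ (lift ω))
    simp only [Set.mem_iUnion] at this
    obtain ⟨n, hn, hb⟩ := this
    rw [Finset.mem_biUnion]
    exact ⟨n, hn, Finset.mem_filter.2 ⟨Finset.mem_univ _, hb⟩⟩
  have h2 : Fintype.card (Om M) ≤
      ∑ n ∈ s, (Finset.univ.filter fun ω : Om M => bad n (lift ω)).card := by
    rw [← Finset.card_univ]
    exact (Finset.card_le_card h1).trans Finset.card_biUnion_le
  have hpos : (0 : ℝ) < Fintype.card (Om M) := by exact_mod_cast Fintype.card_pos
  have h3 : ∀ n ∈ s, ((Finset.univ.filter fun ω : Om M => bad n (lift ω)).card : ℝ) ≤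
      Fintype.card (Om M) * (1 / (2 * (((n : ℝ) + 1) * (n + 2)))) := by
    intro n hn
    have h4 := hcount n M (hM n hn)
    have h5 : (((Finset.univ.filter fun ω : Om M => bad n (lift ω)).card *
      (2 * ((n + 1) * (n + 2))) : ℕ) : ℝ) ≤ (Fintype.card (Om M) : ℝ) := by exact_mod_cast h4
    push_cast at h5
    rw [mul_one_div, le_div_iff₀ (by positivity)]
    exact h5
  have h6 : ∑ n ∈ range N, (1 / (2 * (((n : ℝ) + 1) * (n + 2)))) ≤ 1 / 2 := by
    have h7 : ∀ N : ℕ, ∑ n ∈ range N, (1 / (2 * (((n : ℝ) + 1) * (n + 2)))) =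
        1 / 2 * (1 - 1 / ((N : ℝ) + 1)) := by
      intro N
      induction N with
      | zero => simp
      | succ N ih =>
        rw [Finset.sum_range_succ, ih]
        push_cast
        field_simp
        ring
    rw [h7]
    have : (0 : ℝ) ≤ 1 / ((N : ℝ) + 1) := by positivity
    linarith
  have h8 : (Fintype.card (Om M) : ℝ) ≤ Fintype.card (Om M) * (1 / 2) := by
    calc (Fintype.card (Om M) : ℝ)
        ≤ ((∑ n ∈ s, (Finset.univ.filter fun ω : Om M => bad n (lift ω)).card : ℕ) : ℝ) := by
          exact_mod_cast h2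
      _ = ∑ n ∈ s, ((Finset.univ.filter fun ω : Om M => bad n (lift ω)).card : ℝ) := by
          push_cast; rfl
      _ ≤ ∑ n ∈ s, (Fintype.card (Om M) : ℝ) * (1 / (2 * (((n : ℝ) + 1) * (n + 2)))) :=
          Finset.sum_le_sum h3
      _ ≤ ∑ n ∈ range N, (Fintype.card (Om M) : ℝ) * (1 / (2 * (((n : ℝ) + 1) * (n + 2)))) := by
          refine Finset.sum_le_sum_of_subset_of_nonneg
            (fun n hn => Finset.mem_range.2 (hN n hn)) fun n _ _ => ?_
          positivity
      _ = (Fintype.card (Om M) : ℝ) * ∑ n ∈ range N, (1 / (2 * (((n : ℝ) + 1) * (n + 2)))) := by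
          rw [Finset.mul_sum]
      _ ≤ _ := mul_le_mul_of_nonneg_left h6 hpos.le
  linarith

end Pool.Agent.H616R2.SVL
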