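import Mathlib
import Pool.Agent.H616R2.SVLInv

/-!
# No fully black-box construction of SVL instances from one-way permutations
-/

namespace Pool.Agent.H616R2.SVL

open Finset

/-! ### depth of circuits -/

theorem runGates_depth : ∀ (g : List Gate) (w : List Bool) (M d : ℕ),
    (g.map Gate.size).sum ≤ M → (g.map Gate.size).sum ≤ d → DepthLE M d (runGates g w)
  | [], w, M, d, _, _ => trivial
  | .nand i j :: g, w, M, d, h1, h2 => by
    rw [List.map_cons, List.sum_cons] at h1 h2
    exact runGates_depth g _ M d (by omega) (by omega)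
  | .orc ws :: g, w, M, d, h1, h2 => by
    rw [List.map_cons, List.sum_cons, Gate.size] at h1 h2
    exact ⟨by simp only; omega, by omega, fun y => runGates_depth g _ M (d - 1) (by omega) (by omega)⟩

theorem map_depth {R R' : Type} (f : R → R') {M : ℕ} (T : PComp R) :
    ∀ {d : ℕ}, DepthLE M d T → DepthLE M d (T.map f) := by
  induction T with
  | ret r => intro d _; trivial
  | ask x k ih => intro d h; exact ⟨h.1, h.2.1, fun y => ih y (h.2.2 y)⟩

theorem comp_depth (c : Circ) (x : List Bool) {M : ℕ} (h : c.size ≤ M) :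
    DepthLE M c.size (c.comp x) := by
  unfold Circ.size at *
  exact map_depth _ _ (runGates_depth _ _ _ _ (by omega) (by omega))

theorem Sc_depth (I : Inst) (x : BS I.n) {M q : ℕ} (hM : I.size ≤ M) (hq : I.size ≤ q) :
    DepthLE M q (I.Sc x) := by
  unfold Inst.size at *
  exact DepthLE.mono _ le_rfl (by omega) (map_depth _ _ (comp_depth I.S _ (by omega)))

theorem Vc_depth (I : Inst) (x : BS I.n) (i) {M q : ℕ} (hM : I.size ≤ M) (hq : I.size ≤ q) :
    DepthLE M q (I.Vc x i) := by
  unfold Inst.size at *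
  exact DepthLE.mono _ le_rfl (by omega) (map_depth _ _ (comp_depth I.V _ (by omega)))

theorem CostLE.depth {R : Type} (T : PComp R) :
    ∀ {b : ℕ}, T.CostLE (fun x => x.1) b → DepthLE b b T := by
  induction T with
  | ret r => intro b _; trivial
  | ask x k ih =>
    intro b h
    have h1 : x.1 + 1 ≤ b := h.1
    exact ⟨by omega, by omega, fun y => DepthLE.mono _ (by omega) (by omega) (ih y (h.2 y))⟩

/-! ### the attack on an instance -/

/-- `V` as a family indexed by natural numbers -/
def Vn (I : Inst) (j : ℕ) (x : BS I.n) : PComp Bool :=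
  if h : j < 2 ^ I.n then I.Vc x ⟨j, h⟩ else .ret false

/-- the line of the instance `I`; the permutation families with `O` are those for which `I` is an
output of the sampler -/
noncomputable def mkLine (e : ℕ) (he : e ≤ 1) (G : Sampler)
    (hG : ∀ π n r, (G.out π n r).Valid e π) (p n : ℕ) (I : Inst) : Line (BS I.n) where
  V := Vn I
  T := I.Sc
  T0 := if e = 0 then .ret (fun _ => false) else I.Sc (fun _ => false)
  vt := fun π j => I.vertex e π j
  O := fun π => ∃ r, G.out π n r = I
  N := 2 ^ I.n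
  L := I.L
  t := I.n
  M := p + I.size
  q := I.size + 1
  D := (I.n + 4) * (I.size + 1)
  hO := by
    rintro π ⟨r, hr⟩ j hj x
    have h := hG π n r
    rw [hr] at h
    unfold Vn
    rw [dif_pos hj]
    exact h x ⟨j, hj⟩
  hT0 := by
    intro π _
    have he' : e = 0 ∨ e = 1 := by omega
    rcases he' with rfl | rfl
    · rfl
    · rfl
  hT := by
    intro π _ j
    show I.Sf π _ = _
    unfold Inst.vertex
    rw [show j + 1 + e = (j + e) + 1 by ring, Function.iterate_succ_apply']
  hdV := by
    intro j x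
    unfold Vn
    split_ifs with h
    · exact Vc_depth I x _ (by omega) (by omega)
    · trivial
  hdT := fun x => Sc_depth I x (by omega) (by omega)
  hdT0 := by
    split_ifs with h
    · trivial
    · exact Sc_depth I _ (by omega) (by omega)
  hD := le_rfl
  hL := I.L.2.le
  hLN := I.L.2
  hq := by omega

/-- all strings of length less than `m0` -/
noncomputable def smallPts (m0 : ℕ) : List Str :=
  ((range m0).sigma fun m => (Finset.univ : Finset (BS m))).toList

theorem smallPts_length (m0 : ℕ) : (smallPts m0).length ≤ 2 ^ m0 := by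
  have h : ∀ k : ℕ, ∑ m ∈ range k, 2 ^ m + 1 = 2 ^ k := by
    intro k
    induction k with
    | zero => simp
    | succ k ih => rw [Finset.sum_range_succ, pow_succ]; omega
  unfold smallPts
  rw [Finset.length_toList, Finset.card_sigma]
  have := h m0
  simp only [Finset.card_univ, Fintype.card_fun, Fintype.card_bool, Fintype.card_fin]
  omega

theorem mem_smallPts {m0 : ℕ} {z : Str} : z ∈ smallPts m0 ↔ z.1 < m0 := by
  unfold smallPts
  rw [Finset.mem_toList, Finset.mem_sigma]
  simp

/-- parameters, as functions of the query bound `p` of the sampler and the size `z` -/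
def sP (p z : ℕ) : ℕ := p + (z + 1)
/-- bound for the queries in a step -/
def eP (p z : ℕ) : ℕ := (z + 4) * (z + 1) + ((p + z + 1) * sP p z + 1) * (z + 1)
/-- number of rounds -/
def fP (p z : ℕ) : ℕ := (p + 1) * sP p z + p + 1
/-- room -/
def dP (p z : ℕ) : ℕ := (z + 4) * (z + 1) + (z + 1) +
  2 * (z + 1) * (fP p z * eP p z + (p + (z + 1)))
/-- threshold -/
def bP (p z : ℕ) : ℕ := fP p z * eP p z + (fP p z * eP p z + (p + (z + 1))) + dP p z + 2
/-- final bound -/
def aP (p z : ℕ) : ℕ := 2 * bP p z + fP p z * eP p z + p + z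

theorem clog_bound (b : ℕ) (hb : 2 ≤ b) : b ≤ 2 ^ Nat.clog 2 b ∧ 2 ^ Nat.clog 2 b ≤ 2 * b := by
  refine ⟨Nat.le_pow_clog (by norm_num) b, ?_⟩
  have h1 := Nat.pow_pred_clog_lt_self (b := 2) (by norm_num) (x := b) (by omega)
  have h2 : 0 < Nat.clog 2 b := Nat.clog_pos (by norm_num) hb
  obtain ⟨k, hk⟩ : ∃ k, Nat.clog 2 b = k + 1 := ⟨Nat.clog 2 b - 1, by omega⟩
  rw [hk] at h1 ⊢
  rw [Nat.pred_succ] at h1
  rw [pow_succ]
  omega

theorem stepBound_le (e : ℕ) (he : e ≤ 1) (G : Sampler)
    (hG : ∀ π n r, (G.out π n r).Valid e π) (p n : ℕ) (I : Inst) :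
    stepBound (mkLine e he G hG p n I) (sP p I.size) ≤ eP p I.size := by
  unfold stepBound eP
  have h1 : (mkLine e he G hG p n I).D = (I.n + 4) * (I.size + 1) := rfl
  have h2 : (mkLine e he G hG p n I).M = p + I.size := rfl
  have h3 : (mkLine e he G hG p n I).q = I.size + 1 := rfl
  rw [h1, h2, h3]
  have h4 : I.n ≤ I.size := by unfold Inst.size; omega
  exact Nat.add_le_add_right (Nat.mul_le_mul_right _ (by omega)) _

/-- the attack -/
noncomputable def Att (e : ℕ) (he : e ≤ 1) (G : Sampler)
    (hG : ∀ π n r, (G.out π n r).Valid e π) (p n : ℕ) (I : Inst) : PComp (BS I.n) :=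
  learn (fun Q => att (mkLine e he G hG p n I) (sP p I.size) (fP p I.size) Q ∅)
    (smallPts (Nat.clog 2 (bP p I.size))) ∅

theorem Att_depth (e : ℕ) (he : e ≤ 1) (G : Sampler)
    (hG : ∀ π n r, (G.out π n r).Valid e π) (p n : ℕ) (I : Inst) :
    DepthLE (aP p I.size) (aP p I.size) (Att e he G hG p n I) := by
  have hb : 2 ≤ bP p I.size := by unfold bP; omega
  obtain ⟨_, h2⟩ := clog_bound _ hb
  have hclog : Nat.clog 2 (bP p I.size) ≤ 2 * bP p I.size :=
    (Nat.lt_two_pow_self).le.trans h2
  unfold Att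
  have h3 := learn_depth (M := aP p I.size) (d := fP p I.size * eP p I.size)
    (k := fun Q => att (mkLine e he G hG p n I) (sP p I.size) (fP p I.size) Q ∅) (fun Q => by
      refine DepthLE.mono _ ?_ ?_ (att_depth _ _ _ _ _)
      · show p + I.size ≤ _
        unfold aP; omega
      · exact Nat.mul_le_mul_left _ (stepBound_le e he G hG p n I))
    (smallPts (Nat.clog 2 (bP p I.size))) ∅ (by
      intro z hz
      have := mem_smallPts.1 hz
      unfold aP
      omega)
  refine DepthLE.mono _ le_rfl ?_ h3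
  have := smallPts_length (Nat.clog 2 (bP p I.size))
  unfold aP
  omega

theorem Att_correct (e : ℕ) (he : e ≤ 1) (G : Sampler)
    (hG : ∀ π n r, (G.out π n r).Valid e π) (p n : ℕ)
    (hp : ∀ r, DepthLE p p (G.comp n r)) (π : PermFam) (r : BS (G.coins n)) :
    (Att e he G hG p n (G.out π n r)).run (orc π) = (G.out π n r).sol e π := by
  set I := G.out π n r with hI
  set 𝓛 := mkLine e he G hG p n I with h𝓛
  have hO : 𝓛.O π := ⟨r, rfl⟩
  -- the view of the sampler
  obtain ⟨γ, hγl, hγ⟩ := Leaf.exists (G.comp n r) (π := π) (ρ := ∅)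
    (fun x y h => absurd h (Finset.notMem_empty _))
  have hγO : ∀ π', Cons γ π' → 𝓛.O π' := fun π' h => ⟨r, hγl.run h⟩
  have hγc : γ.card ≤ p := by simpa using hγl.card (hp r)
  have hγlen : ∀ z ∈ γ, z.1 ≤ 𝓛.M := by
    intro z hz
    have := hγl.len (hp r) z (by simpa using hz)
    show z.1 ≤ p + I.size
    omega
  -- the verification of the solution
  have hV : (𝓛.V 𝓛.L (𝓛.vt π 𝓛.L)).run (orc π) = true :=
    (𝓛.hO π hO 𝓛.L 𝓛.hLN _).2 rfl
  obtain ⟨cst, hcl, hc⟩ := Leaf.exists (𝓛.V 𝓛.L (𝓛.vt π 𝓛.L)) (π := π) (ρ := ∅)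
    (fun x y h => absurd h (Finset.notMem_empty _))
  rw [hV] at hcl
  have hb : 2 ≤ bP p I.size := by unfold bP; omega
  obtain ⟨h1, _⟩ := clog_bound _ hb
  have hE := stepBound_le e he G hG p n I
  have hsP : sP p I.size = p + 𝓛.q := rfl
  have hD : 𝓛.D ≤ (I.size + 4) * (I.size + 1) := by
    have h4 : I.n ≤ I.size := by unfold Inst.size; omega
    exact Nat.mul_le_mul_right _ (by omega)
  have hq : 𝓛.q = I.size + 1 := rfl
  have hFE : fP p I.size * stepBound 𝓛 (p + 𝓛.q) ≤ fP p I.size * eP p I.size :=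
    Nat.mul_le_mul_left _ hE
  unfold Att
  rw [learn_run]
  refine att_correct 𝓛 hO hγ hγO hγc hγlen hcl hc (F := fP p I.size)
    (m0 := Nat.clog 2 (bP p I.size)) (D' := dP p I.size) ?_ ?_ ?_ ?_ (fP p I.size) 0 _ ∅
    (ext_cons _ (fun x y h => absurd h (Finset.notMem_empty _))) ?_ ?_ ?_ ?_ ?_
  · unfold dP; omega
  · rw [hq]; unfold dP; omega
  · rw [hq]
    have h5 : dP p I.size - (I.size + 1) = (I.size + 4) * (I.size + 1) +
        2 * (I.size + 1) * (fP p I.size * eP p I.size + (p + (I.size + 1))) := by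
      unfold dP; omega
    rw [h5]
    refine le_trans ?_ (Nat.le_add_left _ _)
    refine Nat.mul_le_mul_left _ ?_
    rw [← hq]
    omega
  · intro m hm
    have h6 : 2 ^ Nat.clog 2 (bP p I.size) ≤ 2 ^ m := Nat.pow_le_pow_right (by norm_num) hm
    refine le_trans ?_ (h1.trans h6)
    have h7 : bP p I.size = fP p I.size * eP p I.size +
      (fP p I.size * eP p I.size + (p + (I.size + 1))) + dP p I.size + 2 := rfl
    rw [h7, ← hq]
    omega
  · intro m hm x hfr
    have := mem_ext (π := π) (smallPts (Nat.clog 2 (bP p I.size))) (Q := ∅) (z := ⟨m, x⟩)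
      (mem_smallPts.2 hm)
    exact hfr _ this
  · intro m hm
    rw [cnt_ext_ne]
    · have := cnt_le_card ∅ m
      simpa using this
    · intro z hz
      have := mem_smallPts.1 hz
      omega
  · simp
  · omega
  · -- the initial potential
    unfold pot
    have h8 : ((γ ∪ cst) \ ext π (smallPts (Nat.clog 2 (bP p I.size))) ∅).card ≤ p + 𝓛.q := by
      refine (Finset.card_le_card Finset.sdiff_subset).trans ((Finset.card_union_le _ _).trans ?_)
      have : cst.card ≤ 𝓛.q := by simpa using hcl.card (𝓛.hdV _ _)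
      omega
    have h9 : (p + 1) * ((γ ∪ cst) \ ext π (smallPts (Nat.clog 2 (bP p I.size))) ∅).card ≤
        (p + 1) * (p + 𝓛.q) := Nat.mul_le_mul_left _ h8
    have h10 : fP p I.size = (p + 1) * (p + 𝓛.q) + p + 1 := rfl
    omega

/-! ### composition of a reduction with the attack -/

/-- sequential composition -/
def bind' {R R' : Type} : PComp R → (R → PComp R') → PComp R'
  | .ret r, f => f r
  | .ask x k, f => .ask x (fun a => bind' (k a) f)

theorem bind_run {R R' : Type} (π : PermFam) (T : PComp R) (f : R → PComp R') :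
    (bind' T f).run (orc π) = (f (T.run (orc π))).run (orc π) := by
  induction T with
  | ret r => rfl
  | ask x k ih => exact ih _

theorem bind_depth {R R' : Type} {M d2 : ℕ} (T : PComp R) (f : R → PComp R')
    (hf : ∀ r, DepthLE M d2 (f r)) : ∀ {d1 : ℕ}, DepthLE M d1 T →
      DepthLE M (d1 + d2) (bind' T f) := by
  induction T with
  | ret r => intro d1 _; exact DepthLE.mono _ le_rfl (Nat.le_add_left _ _) (hf r)
  | ask x k ih =>
    intro d1 h
    have h1 := h.2.1
    refine ⟨h.1, by omega, fun y => ?_⟩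
    exact DepthLE.mono _ le_rfl (by omega) (ih y (h.2.2 y))

/-- replace the queries to the adversary by the computation `At` -/
def compose (At : ∀ (_ : ℕ) (I : Inst), PComp (BS I.n)) {R : Type} : OComp RA R → PComp R
  | .ret r => .ret r
  | .ask (.inl x) k => .ask x (fun a => compose At (k a))
  | .ask (.inr p) k => bind' (At p.1 p.2) (fun a => compose At (k a))

theorem compose_run (At : ∀ (_ : ℕ) (I : Inst), PComp (BS I.n)) {R : Type} (π : PermFam)
    (T : OComp RA R) : (compose At T).run (orc π) =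
      T.run (orcR π (fun n I => (At n I).run (orc π))) := by
  induction T with
  | ret r => rfl
  | ask q k ih =>
    rcases q with x | p
    · exact ih _
    · rw [compose, bind_run]
      exact ih _

theorem compose_depth (At : ∀ (_ : ℕ) (I : Inst), PComp (BS I.n)) {B M d : ℕ}
    (hAt : ∀ (n : ℕ) (I : Inst), n + I.size ≤ B → DepthLE M d (At n I)) (hBM : B ≤ M) {R : Type}
    (T : OComp RA R) : ∀ {b : ℕ}, b ≤ B →
      T.CostLE (Sum.elim (fun x => x.1) (fun p => p.1 + p.2.size)) b →
      DepthLE M (b * (d + 1)) (compose At T) := by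
  induction T with
  | ret r => intro b _ _; trivial
  | ask q k ih =>
    intro b hb h
    rcases q with x | p
    · have h1 : x.1 + 1 ≤ b := h.1
      have h2 : (b - (x.1 + 1)) * (d + 1) ≤ (b - 1) * (d + 1) := Nat.mul_le_mul_right _ (by omega)
      have h3 : b * (d + 1) = (b - 1) * (d + 1) + (d + 1) := by
        obtain ⟨c, rfl⟩ : ∃ c, b = c + 1 := ⟨b - 1, by omega⟩
        rw [Nat.add_sub_cancel]; ring
      refine ⟨by omega, by omega, fun y => ?_⟩
      refine DepthLE.mono _ le_rfl ?_ (ih y (b := b - (x.1 + 1)) (by omega) (h.2 y))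
      omega
    · have h1 : p.1 + p.2.size + 1 ≤ b := h.1
      have h2 : (b - (p.1 + p.2.size + 1)) * (d + 1) ≤ (b - 1) * (d + 1) :=
        Nat.mul_le_mul_right _ (by omega)
      have h3 : b * (d + 1) = (b - 1) * (d + 1) + (d + 1) := by
        obtain ⟨c, rfl⟩ : ∃ c, b = c + 1 := ⟨b - 1, by omega⟩
        rw [Nat.add_sub_cancel]; ring
      rw [compose]
      have h4 := bind_depth (At p.1 p.2) (fun a => compose At (k a))
        (d2 := (b - (p.1 + p.2.size + 1)) * (d + 1)) (M := M)
        (fun a => ih a (b := b - (p.1 + p.2.size + 1)) (by omega) (h.2 a))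
        (hAt p.1 p.2 (by omega))
      exact DepthLE.mono _ le_rfl (by omega) h4

/-! ### polynomial bounds -/

/-- polynomially bounded functions -/
def PB (f : ℕ → ℕ) : Prop := ∃ k, ∀ n, f n ≤ (n + 2) ^ k

theorem PB.const (c : ℕ) : PB fun _ => c := ⟨c, fun n => by
  calc c ≤ 2 ^ c := Nat.lt_two_pow_self.le
    _ ≤ (n + 2) ^ c := Nat.pow_le_pow_left (by omega) c⟩

theorem PB.id : PB fun n => n := ⟨1, fun n => by simp⟩

theorem PB.add {f g : ℕ → ℕ} (hf : PB f) (hg : PB g) : PB fun n => f n + g n := by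
  obtain ⟨a, ha⟩ := hf
  obtain ⟨b, hb⟩ := hg
  refine ⟨a + b + 1, fun n => ?_⟩
  have h1 : (n + 2) ^ a ≤ (n + 2) ^ (a + b) := Nat.pow_le_pow_right (by omega) (by omega)
  have h2 : (n + 2) ^ b ≤ (n + 2) ^ (a + b) := Nat.pow_le_pow_right (by omega) (by omega)
  calc f n + g n ≤ (n + 2) ^ (a + b) * 2 := by have := ha n; have := hb n; omega
    _ ≤ (n + 2) ^ (a + b) * (n + 2) := Nat.mul_le_mul_left _ (by omega)
    _ = (n + 2) ^ (a + b + 1) := (pow_succ _ _).symm

theorem PB.mul {f g : ℕ → ℕ} (hf : PB f) (hg : PB g) : PB fun n => f n * g n := by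
  obtain ⟨a, ha⟩ := hf
  obtain ⟨b, hb⟩ := hg
  refine ⟨a + b, fun n => ?_⟩
  rw [pow_add]
  exact Nat.mul_le_mul (ha n) (hb n)

theorem PB.pow {f : ℕ → ℕ} (hf : PB f) (c : ℕ) : PB fun n => f n ^ c := by
  obtain ⟨a, ha⟩ := hf
  refine ⟨a * c, fun n => ?_⟩
  rw [pow_mul]
  exact Nat.pow_le_pow_left (ha n) c

theorem PB.aP {f g : ℕ → ℕ} (hf : PB f) (hg : PB g) : PB fun n => aP (f n) (g n) := by
  have hs : PB fun n => sP (f n) (g n) := hf.add (hg.add (.const 1))
  have hE : PB fun n => eP (f n) (g n) :=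
    ((hg.add (.const 4)).mul (hg.add (.const 1))).add
      (((((hf.add hg).add (.const 1)).mul hs).add (.const 1)).mul (hg.add (.const 1)))
  have hF : PB fun n => fP (f n) (g n) := (((hf.add (.const 1)).mul hs).add hf).add (.const 1)
  have hD : PB fun n => dP (f n) (g n) :=
    (((hg.add (.const 4)).mul (hg.add (.const 1))).add (hg.add (.const 1))).add
      (((PB.const 2).mul (hg.add (.const 1))).mul
        ((hF.mul hE).add (hf.add (hg.add (.const 1)))))
  have hB : PB fun n => bP (f n) (g n) :=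
    (((hF.mul hE).add ((hF.mul hE).add (hf.add (hg.add (.const 1))))).add hD).add (.const 2)
  exact ((((PB.const 2).mul hB).add (hF.mul hE)).add hf).add hg

theorem aP_mono {p p' z z' : ℕ} (hp : p ≤ p') (hz : z ≤ z') : aP p z ≤ aP p' z' := by
  have hs : sP p z ≤ sP p' z' := by unfold sP; omega
  have hE : eP p z ≤ eP p' z' := by unfold eP; gcongr
  have hF : fP p z ≤ fP p' z' := by unfold fP; gcongr
  have hD : dP p z ≤ dP p' z' := by unfold dP; gcongr
  have hB : bP p z ≤ bP p' z' := by unfold bP; gcongr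
  unfold aP
  gcongr

theorem PB_negl {f : ℕ → ℕ} (hf : PB f) (c : ℕ) :
    ∀ᶠ n : ℕ in Filter.atTop, (f n : ℝ) / 2 ^ n ≤ 1 / (n : ℝ) ^ c := by
  obtain ⟨k, hk⟩ := hf
  have h1 := tendsto_pow_const_div_const_pow_of_one_lt (k + c) (r := (2 : ℝ)) (by norm_num)
  have h2 : ∀ᶠ n : ℕ in Filter.atTop, (n : ℝ) ^ (k + c) / 2 ^ n < 1 / 3 ^ k :=
    h1.eventually_lt_const (by positivity)
  filter_upwards [h2, Filter.eventually_ge_atTop 1] with n hn hn1
  have hn0 : (0 : ℝ) < n := by exact_mod_cast hn1
  have h3 : (f n : ℝ) ≤ ((n : ℝ) + 2) ^ k := by exact_mod_cast hk n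
  have h4 : ((n : ℝ) + 2) ^ k ≤ (3 * n) ^ k := by
    have : (1 : ℝ) ≤ n := by exact_mod_cast hn1
    exact pow_le_pow_left₀ (by positivity) (by linarith) k
  rw [le_div_iff₀ (by positivity)]
  calc (f n : ℝ) / 2 ^ n * (n : ℝ) ^ c ≤ (3 * n) ^ k / 2 ^ n * (n : ℝ) ^ c := by
        gcongr
        exact h3.trans h4
    _ = 3 ^ k * ((n : ℝ) ^ (k + c) / 2 ^ n) := by rw [mul_pow, pow_add]; ring
    _ ≤ 3 ^ k * (1 / 3 ^ k) := mul_le_mul_of_nonneg_left hn.le (by positivity)
    _ = 1 := by field_simp

/-! ### the theorem -/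

theorem main (e : ℕ) (he : e ≤ 1) (G : Sampler) (R : Reduction) : ¬ FullyBB e G R := by
  classical
  rintro ⟨⟨cG, hcG⟩, ⟨cR, hcR⟩, hG, hBB⟩
  -- parameters
  let p : ℕ → ℕ := fun n => n ^ cG + cG
  let b : ℕ → ℕ := fun n => n ^ cR + cR
  let At : ∀ (_ : ℕ) (I : Inst), PComp (BS I.n) := fun n I => Att e he G hG (p n) n I
  let A : PermFam → Adv := fun π n I => (At n I).run (orc π)
  have hAt : ∀ B (n : ℕ) (I : Inst), n + I.size ≤ B →
      DepthLE (aP (p B) B) (aP (p B) B) (At n I) := by
    intro B n I h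
    have h1 : p n ≤ p B := by
      simp only [p]
      exact Nat.add_le_add_right (Nat.pow_le_pow_left (by omega) _) _
    have h2 : aP (p n) I.size ≤ aP (p B) B := aP_mono h1 (by omega)
    exact DepthLE.mono _ h2 h2 (Att_depth e he G hG (p n) n I)
  -- the composed computation
  let C : ∀ n, BS n → BS (R.coins n) → PComp (BS n) := fun n y r => compose At (R.comp n y r)
  let Mn : ℕ → ℕ := fun n => n + b n + aP (p (b n)) (b n)
  let tn : ℕ → ℕ := fun n => b n * (aP (p (b n)) (b n) + 1)
  have hC : ∀ n y r, DepthLE (Mn n) (tn n) (C n y r) := by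
    intro n y r
    refine compose_depth At (B := b n) (M := Mn n) (d := aP (p (b n)) (b n)) ?_ ?_ _ le_rfl
      (hcR n y r)
    · intro n' I h
      exact DepthLE.mono _ (by simp only [Mn]; omega) le_rfl (hAt (b n) n' I h)
    · simp only [Mn]; omega
  have hCrun : ∀ π n y r, (C n y r).run (orc π) = (R.comp n y r).run (orcR π (A π)) :=
    fun π n y r => compose_run At π _
  -- number of successes
  let cnt' : ℕ → PermFam → ℕ := fun n π => (Finset.univ.filter fun q : BS n × BS (R.coins n) =>
    (C n (π n q.1) q.2).run (orc π) = q.1).card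
  let bad : ℕ → PermFam → Prop := fun n π =>
    2 * ((n + 1) * (n + 2)) * ((2 * tn n + 1) * 2 ^ R.coins n) < cnt' n π
  have hcnt' : ∀ n π, cnt' n π = ∑ r : BS (R.coins n), (Finset.univ.filter fun x : BS n =>
      (C n (π n x) r).run (orc π) = x).card := by
    intro n π
    simp only [cnt', Finset.card_filter]
    rw [Fintype.sum_prod_type, Finset.sum_comm]
  obtain ⟨π, hπ⟩ := exists_all_good bad Mn (by
    intro n π π' h hb
    have e1 : cnt' n π' = cnt' n π := by
      simp only [cnt']
      congr 1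
      ext q
      rw [Finset.mem_filter, Finset.mem_filter]
      have e2 : π' n = π n := (h n (by simp only [Mn]; omega)).symm
      rw [e2, run_agree_len π π' _ (hC n _ _) h]
    show _ < cnt' n π'
    rw [e1]
    exact hb) (by
    intro n M hM
    have hnM : n < M + 1 := by
      have : n ≤ Mn n := by simp only [Mn]; omega
      omega
    have h1 : ∑ ω : Om M, cnt' n (lift ω) ≤
        2 ^ R.coins n * ((2 * tn n + 1) * Fintype.card (Om M)) := by
      rw [Finset.sum_congr rfl fun ω _ => hcnt' n (lift ω), Finset.sum_comm]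
      have h2 : ∀ r ∈ (Finset.univ : Finset (BS (R.coins n))), ∑ ω : Om M,
          (Finset.univ.filter fun x : BS n => (C n (lift ω n x) r).run (orc (lift ω)) = x).card ≤
          (2 * tn n + 1) * Fintype.card (Om M) := by
        intro r _
        exact inversion_bound (⟨n, hnM⟩ : Fin (M + 1)) (fun y => C n y r)
          (fun y => ⟨_, hC n y r⟩)
      refine (Finset.sum_le_sum h2).trans_eq ?_
      rw [Finset.sum_const, Finset.card_univ, smul_eq_mul]
      congr 1
      simp
    set F := Finset.univ.filter fun ω : Om M => bad n (lift ω) with hF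
    set c := (2 * tn n + 1) * 2 ^ R.coins n with hc
    have hcpos : 0 < c := by positivity
    have h3 : F.card * (2 * ((n + 1) * (n + 2)) * c) ≤ c * Fintype.card (Om M) := by
      calc F.card * (2 * ((n + 1) * (n + 2)) * c) = ∑ _ω ∈ F, 2 * ((n + 1) * (n + 2)) * c := by
            rw [Finset.sum_const, smul_eq_mul]
        _ ≤ ∑ ω ∈ F, cnt' n (lift ω) :=
            Finset.sum_le_sum fun ω hω => (Finset.mem_filter.1 hω).2.le
        _ ≤ ∑ ω : Om M, cnt' n (lift ω) :=
            Finset.sum_le_sum_of_subset (Finset.subset_univ _)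
        _ ≤ _ := h1
        _ = c * Fintype.card (Om M) := by rw [hc]; ring
    have hfin : c * (F.card * (2 * ((n + 1) * (n + 2)))) ≤ c * Fintype.card (Om M) := by
      calc c * (F.card * (2 * ((n + 1) * (n + 2)))) =
            F.card * (2 * ((n + 1) * (n + 2)) * c) := by ring
        _ ≤ _ := h3
    have hfin2 := Nat.le_of_mul_le_mul_left hfin hcpos
    convert hfin2)
  -- the adversary solves everything
  have hsolve : ∀ n, solveProb e G π (A π) n = 1 := by
    intro n
    unfold solveProb
    have h1 : (Finset.univ.filter fun r : BS (G.coins n) =>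
        A π n (G.out π n r) = (G.out π n r).sol e π) = Finset.univ := by
      rw [Finset.filter_eq_self]
      intro r _
      exact Att_correct e he G hG (p n) n (fun r => CostLE.depth _ (hcG n r).1) π r
    rw [h1, Finset.card_univ]
    simp
  refine hBB π (A π) ?_ ?_
  · intro h
    have h1 := h 1
    have h2 := h1.and (Filter.eventually_ge_atTop 2)
    obtain ⟨n, hn, hn2⟩ := h2.exists
    rw [hsolve n, pow_one] at hn
    have hn2' : (2 : ℝ) ≤ n := by exact_mod_cast hn2
    rw [le_div_iff₀ (by linarith)] at hn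
    linarith
  · -- the reduction fails
    intro c
    have hPBb : PB b := (PB.id.pow cR).add (.const cR)
    have hPBp : PB fun n => p (b n) := (hPBb.pow cG).add (.const cG)
    have hPBt : PB tn := hPBb.mul ((hPBp.aP hPBb).add (.const 1))
    have hPB : PB fun n => 2 * ((n + 1) * (n + 2)) * (2 * tn n + 1) :=
      ((PB.const 2).mul ((PB.id.add (.const 1)).mul (PB.id.add (.const 2)))).mul
        (((PB.const 2).mul hPBt).add (.const 1))
    filter_upwards [PB_negl hPB c] with n hn
    refine le_trans ?_ hn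
    have h1 := hπ n
    simp only [bad, not_lt] at h1
    have h2 : invProb R π (A π) n = (cnt' n π : ℝ) / (2 ^ n * 2 ^ R.coins n) := by
      unfold invProb
      congr 2
      simp only [cnt']
      congr 1
      ext q
      rw [Finset.mem_filter, Finset.mem_filter, hCrun]
    rw [h2, div_le_div_iff₀ (by positivity) (by positivity)]
    have h3 : (cnt' n π : ℝ) ≤
        ((2 * ((n + 1) * (n + 2)) * ((2 * tn n + 1) * 2 ^ R.coins n) : ℕ) : ℝ) := by
      exact_mod_cast h1
    calc (cnt' n π : ℝ) * 2 ^ n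
        ≤ ((2 * ((n + 1) * (n + 2)) * ((2 * tn n + 1) * 2 ^ R.coins n) : ℕ) : ℝ) * 2 ^ n :=
          mul_le_mul_of_nonneg_right h3 (by positivity)
      _ = _ := by push_cast; ring

end Pool.Agent.H616R2.SVL
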