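import Mathlib
import Pool.Agent.Helper12.SketchSep

set_option autoImplicit false

/-!
# Randomized linear sketches and one-way communication are not polynomially related
-/

namespace Pool.Agent.H616R2.Sketch

open Finset Pool.Agent.Helper12.SketchSep

/-! ### Lucas -/

theorem lucas_top (p : ℕ) [hp : Fact p.Prime] : ∀ (k t : ℕ),
    ¬ p ∣ t.choose (p ^ k - 1) ↔ p ^ k ∣ t + 1
  | 0, t => by
    simp only [pow_zero, Nat.sub_self, Nat.choose_zero_right, one_dvd, iff_true]
    exact fun h => hp.out.one_lt.ne' (Nat.dvd_one.1 h)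
  | k + 1, t => by
    have hp1 := hp.out.one_lt
    have hpk : 1 ≤ p ^ k := Nat.one_le_pow _ _ (by omega)
    have e : p ^ (k + 1) - 1 = p * (p ^ k - 1) + (p - 1) := by
      rw [pow_succ, mul_comm (p ^ k) p, Nat.mul_sub, mul_one]
      have h1 : p ≤ p * p ^ k := Nat.le_mul_of_pos_right _ (by omega)
      omega
    have e1 : (p ^ (k + 1) - 1) % p = p - 1 := by
      rw [e, Nat.mul_add_mod, Nat.mod_eq_of_lt (by omega)]
    have e2 : (p ^ (k + 1) - 1) / p = p ^ k - 1 := by
      rw [e, Nat.mul_add_div (by omega), Nat.div_eq_of_lt (by omega), add_zero]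
    have h := Choose.choose_modEq_choose_mod_mul_choose_div_nat (n := t) (k := p ^ (k + 1) - 1)
      (p := p)
    rw [e1, e2] at h
    have h' : p ∣ t.choose (p ^ (k + 1) - 1) ↔
        p ∣ (t % p).choose (p - 1) * (t / p).choose (p ^ k - 1) := by
      rw [Nat.dvd_iff_mod_eq_zero, Nat.dvd_iff_mod_eq_zero, h]
    rw [h', hp.out.dvd_mul, not_or, lucas_top p k (t / p)]
    have hmod : t % p < p := Nat.mod_lt _ (by omega)
    have hdm := Nat.div_add_mod t p
    constructor
    · rintro ⟨h1, h2⟩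
      have h3 : t % p = p - 1 := by
        by_contra h4
        exact h1 (by rw [Nat.choose_eq_zero_of_lt (by omega)]; exact dvd_zero p)
      obtain ⟨c, hc⟩ := h2
      refine ⟨c, ?_⟩
      calc t + 1 = p * (t / p) + t % p + 1 := by rw [hdm]
        _ = p * (t / p + 1) := by rw [h3]; rw [mul_add]; omega
        _ = p ^ (k + 1) * c := by rw [hc, pow_succ]; ring
    · rintro ⟨c, hc⟩
      have h3 : p ∣ t + 1 := by rw [hc, pow_succ]; exact Dvd.intro_left _ (by ring : p ^ k * c * p = _)
      have h4 : t % p = p - 1 := by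
        obtain ⟨m, hm⟩ := h3
        have hm0 : 1 ≤ m := by
          rcases Nat.eq_zero_or_pos m with rfl | h
          · omega
          · exact h
        have : t = p * (m - 1) + (p - 1) := by
          obtain ⟨m', rfl⟩ : ∃ m', m = m' + 1 := ⟨m - 1, by omega⟩
          rw [Nat.add_sub_cancel]
          rw [mul_add] at hm
          omega
        rw [this, Nat.mul_add_mod, Nat.mod_eq_of_lt (by omega)]
      refine ⟨?_, ?_⟩
      · rw [h4, Nat.choose_self]
        exact fun h => hp1.ne' (Nat.dvd_one.1 h)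
      · refine ⟨c, ?_⟩
        have h5 : p * (t / p + 1) = p * (p ^ k * c) := by
          calc p * (t / p + 1) = p * (t / p) + t % p + 1 := by rw [h4, mul_add]; omega
            _ = t + 1 := by rw [hdm]
            _ = p * (p ^ k * c) := by rw [hc, pow_succ]; ring
        exact Nat.eq_of_mul_eq_mul_left (by omega) h5

instance fact2 : Fact (Nat.Prime 2) := ⟨Nat.prime_two⟩
instance fact3 : Fact (Nat.Prime 3) := ⟨Nat.prime_three⟩

theorem cast_ne_zero (p k t : ℕ) [hp : Fact p.Prime] :
    ((t.choose (p ^ k - 1) : ℕ) : ZMod p) ≠ 0 ↔ p ^ k ∣ t + 1 := by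
  rw [Ne, ZMod.natCast_eq_zero_iff, lucas_top]

/-! ### The function -/

/-- the `s`-subsets of `[N]` -/
abbrev Ts (N s : ℕ) : Type := {X : Finset (Fin N) // X.card = s}

theorem card_Ts (N s : ℕ) : Fintype.card (Ts N s) = N.choose s := by
  rw [Fintype.card_subtype]
  have : (Finset.univ.filter fun X : Finset (Fin N) => X.card = s) =
      Finset.powersetCard s (Finset.univ : Finset (Fin N)) := by
    ext X; simp [Finset.mem_powersetCard]
  rw [this, Finset.card_powersetCard, Finset.card_univ, Fintype.card_fin]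

variable {N s : ℕ}

/-- coordinates -/
noncomputable def es (N s : ℕ) : Fin (N + N.choose s) ≃ Fin N ⊕ Ts N s :=
  Fintype.equivOfCardEq (by rw [Fintype.card_sum, Fintype.card_fin, Fintype.card_fin, card_Ts])

/-- put together an input -/
noncomputable def ins (w : Fin N → ZMod 2) (z : Ts N s → ZMod 2) :
    Fin (N + N.choose s) → ZMod 2 := fun i => Sum.elim w z (es N s i)

/-- first part -/
noncomputable def q1 (x : Fin (N + N.choose s) → ZMod 2) : Fin N → ZMod 2 :=
  fun a => x ((es N s).symm (Sum.inl a))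

/-- second part -/
noncomputable def q2 (x : Fin (N + N.choose s) → ZMod 2) : Ts N s → ZMod 2 :=
  fun X => x ((es N s).symm (Sum.inr X))

theorem q1_ins (w : Fin N → ZMod 2) (z : Ts N s → ZMod 2) : q1 (ins w z) = w := by
  funext a; simp [q1, ins]

theorem q2_ins (w : Fin N → ZMod 2) (z : Ts N s → ZMod 2) : q2 (ins w z) = z := by
  funext a; simp [q2, ins]

/-- support -/
def supp (w : Fin N → ZMod 2) : Finset (Fin N) := Finset.univ.filter fun a => w a ≠ 0

/-- the coefficient -/
def rh (d : ℕ) (w : Fin N → ZMod 2) (X : Finset (Fin N)) : ZMod 3 :=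
  (((X ∩ supp w).card.choose d : ℕ) : ZMod 3)

open Classical in
/-- The function: `f(w, z) = 1` iff `C(|X ∩ supp w|, d)` is divisible by `3` for every `s`-subset
`X` with `z_X = 1`. -/
noncomputable def gg (N s d : ℕ) (x : Fin (N + N.choose s) → ZMod 2) : Bool :=
  decide (∀ X : Ts N s, q2 x X ≠ 0 → rh d (q1 x) X.1 = 0)

/-- the sums sent by Alice -/
def ms (d : ℕ) (u : Ts N s → ZMod 2) (D : Ts N d) : ZMod 3 :=
  ∑ X : Ts N s, if D.1 ⊆ X.1 then lf (u X) else 0

/-- Bob's value computed from the message -/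
def bv (d : ℕ) (w : Fin N → ZMod 2) (m : Ts N d → ZMod 3) : ZMod 3 :=
  ∑ D : Ts N d, if D.1 ⊆ supp w then m D else 0

theorem choose_count (d : ℕ) (A B : Finset (Fin N)) :
    (A ∩ B).card.choose d = (Finset.univ.filter fun D : Ts N d => D.1 ⊆ A ∧ D.1 ⊆ B).card := by
  rw [← Finset.card_powersetCard]
  symm
  refine Finset.card_bij (fun D _ => D.1) ?_ ?_ ?_
  · intro D hD
    rw [Finset.mem_filter] at hD
    rw [Finset.mem_powersetCard]
    exact ⟨Finset.subset_inter hD.2.1 hD.2.2, D.2⟩
  · intro D _ D' _ h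
    exact Subtype.ext h
  · intro X hX
    rw [Finset.mem_powersetCard] at hX
    exact ⟨⟨X, hX.2⟩, Finset.mem_filter.2 ⟨Finset.mem_univ _,
      hX.1.trans Finset.inter_subset_left, hX.1.trans Finset.inter_subset_right⟩, rfl⟩

theorem bv_ms (d : ℕ) (w : Fin N → ZMod 2) (u : Ts N s → ZMod 2) :
    bv d w (ms d u) = ∑ X : Ts N s, rh d w X.1 * lf (u X) := by
  unfold bv ms rh
  have h : ∀ X : Ts N s, (((X.1 ∩ supp w).card.choose d : ℕ) : ZMod 3) * lf (u X) =
      ∑ D : Ts N d, if D.1 ⊆ supp w then (if D.1 ⊆ X.1 then lf (u X) else 0) else 0 := by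
    intro X
    rw [choose_count, Finset.card_filter, Nat.cast_sum, Finset.sum_mul]
    refine Finset.sum_congr rfl fun D _ => ?_
    by_cases h1 : D.1 ⊆ X.1 <;> by_cases h2 : D.1 ⊆ supp w <;> simp [h1, h2]
  rw [Finset.sum_congr rfl fun X _ => h X, Finset.sum_comm]
  refine Finset.sum_congr rfl fun D _ => ?_
  by_cases h2 : D.1 ⊆ supp w <;> simp [h2]

/-- the check -/
def ck (d : ℕ) (w : Fin N → ZMod 2) (u v : Ts N s → ZMod 2) : Prop :=
  (∑ X : Ts N s, rh d w X.1 * lf (v X)) = ∑ X : Ts N s, rh d w X.1 * lf (u X)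

theorem ck_yes (d : ℕ) (w : Fin N → ZMod 2) (x y r : Ts N s → ZMod 2)
    (h : ∀ X : Ts N s, (x + y) X ≠ 0 → rh d w X.1 = 0) : ck d w (x + r) (y + r) := by
  unfold ck
  refine Finset.sum_congr rfl fun X _ => ?_
  by_cases hX : (x + y) X = 0
  · have : x X = y X := by
      have h1 : x X + y X = 0 := hX
      generalize x X = a at h1 ⊢
      generalize y X = b at h1 ⊢
      revert a b; decide
    simp [this]
  · rw [h X hX]; simp

/-- unit vector -/
def ssg (X0 : Ts N s) : Ts N s → ZMod 2 := fun X => if X = X0 then 1 else 0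

theorem ssg_self (X0 : Ts N s) : ssg X0 X0 = 1 := if_pos rfl

theorem ssg_ne {X0 X : Ts N s} (h : X ≠ X0) : ssg X0 X = 0 := if_neg h

theorem ck_flip (d : ℕ) (w : Fin N → ZMod 2) (x y r : Ts N s → ZMod 2) (X0 : Ts N s)
    (hX : (x + y) X0 ≠ 0) (hw : rh d w X0.1 ≠ 0) (h : ck d w (x + r) (y + r)) :
    ¬ ck d w (x + (r + ssg X0)) (y + (r + ssg X0)) := by
  intro h'
  unfold ck at h h'
  have key : (∑ X : Ts N s, rh d w X.1 * lf ((y + (r + ssg X0)) X) -
      ∑ X : Ts N s, rh d w X.1 * lf ((x + (r + ssg X0)) X)) -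
      (∑ X : Ts N s, rh d w X.1 * lf ((y + r) X) - ∑ X : Ts N s, rh d w X.1 * lf ((x + r) X)) =
      rh d w X0.1 * ((lf ((y + r) X0 + 1) - lf ((x + r) X0 + 1)) -
        (lf ((y + r) X0) - lf ((x + r) X0))) := by
    rw [← Finset.sum_sub_distrib, ← Finset.sum_sub_distrib, ← Finset.sum_sub_distrib]
    rw [Finset.sum_eq_single X0]
    · have e1 : (y + (r + ssg X0)) X0 = (y + r) X0 + 1 := by
        simp only [Pi.add_apply, ssg_self, add_assoc]
      have e2 : (x + (r + ssg X0)) X0 = (x + r) X0 + 1 := by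
        simp only [Pi.add_apply, ssg_self, add_assoc]
      rw [e1, e2]; ring
    · intro X _ hne
      have e1 : (y + (r + ssg X0)) X = (y + r) X := by
        simp only [Pi.add_apply, ssg_ne hne, add_zero]
      have e2 : (x + (r + ssg X0)) X = (x + r) X := by
        simp only [Pi.add_apply, ssg_ne hne, add_zero]
      rw [e1, e2]; ring
    · intro hh; exact absurd (Finset.mem_univ _) hh
  rw [h, h', sub_self, sub_self, sub_self] at key
  have h2 := (mul_eq_zero.1 key.symm).resolve_left hw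
  have h3 : x X0 + y X0 ≠ 0 := hX
  have e1 : (y + r) X0 = y X0 + r X0 := rfl
  have e2 : (x + r) X0 = x X0 + r X0 := rfl
  rw [e1, e2] at h2
  generalize x X0 = a at h2 h3
  generalize y X0 = b at h2 h3
  generalize r X0 = c at h2 h3
  revert a b c
  decide

open Classical in
theorem ck_no (d : ℕ) (w : Fin N → ZMod 2) (x y : Ts N s → ZMod 2) (X0 : Ts N s)
    (hX : (x + y) X0 ≠ 0) (hw : rh d w X0.1 ≠ 0) :
    2 * (Finset.univ.filter fun r : Ts N s → ZMod 2 => ck d w (x + r) (y + r)).card ≤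
      Fintype.card (Ts N s → ZMod 2) := by
  set P := Finset.univ.filter fun r : Ts N s → ZMod 2 => ck d w (x + r) (y + r) with hP
  have hinj : Function.Injective fun r : Ts N s → ZMod 2 => r + ssg X0 :=
    add_left_injective _
  have hdisj : Disjoint P (P.image fun r => r + ssg X0) := by
    rw [Finset.disjoint_left]
    intro r hr hr'
    rw [Finset.mem_image] at hr'
    obtain ⟨s', hs, rfl⟩ := hr'
    rw [hP, Finset.mem_filter] at hr hs
    exact ck_flip d w x y s' X0 hX hw hs.2 hr.2
  have := Finset.card_le_univ (P ∪ P.image fun r => r + ssg X0)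
  rw [Finset.card_union_of_disjoint hdisj, Finset.card_image_of_injective _ hinj] at this
  omega

open Classical in
theorem oneWay_gg (N s d : ℕ) : HasOneWay (xorFn (gg N s d)) (N + 4 * N.choose d) := by
  classical
  let R := Ts N s → ZMod 2
  let M := (Fin N → ZMod 2) × ((Ts N d → ZMod 3) × (Ts N d → ZMod 3))
  have hcard : Fintype.card M ≤ 2 ^ (N + 4 * N.choose d) := by
    have e : Fintype.card M = 2 ^ N * (3 ^ (N.choose d) * 3 ^ (N.choose d)) := by
      simp only [M, Fintype.card_prod, Fintype.card_fun, ZMod.card, Fintype.card_fin, card_Ts]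
    rw [e]
    have h4 : (3 : ℕ) ^ (N.choose d) ≤ 4 ^ (N.choose d) := Nat.pow_le_pow_left (by norm_num) _
    calc 2 ^ N * (3 ^ (N.choose d) * 3 ^ (N.choose d)) ≤
          2 ^ N * (4 ^ (N.choose d) * 4 ^ (N.choose d)) :=
          Nat.mul_le_mul_left _ (Nat.mul_le_mul h4 h4)
      _ = 2 ^ (N + 4 * N.choose d) := by
          rw [show (4 : ℕ) ^ (N.choose d) = 2 ^ (2 * N.choose d) by rw [pow_mul]; norm_num, ← pow_add,
            ← pow_add]
          congr 1; ring
  have hpos : 0 < Fintype.card (R × R) := Fintype.card_pos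
  have hposR : (0 : ℝ) < Fintype.card (R × R) := by exact_mod_cast hpos
  refine hasOneWay_of_msg (M := M) (xorFn (gg N s d)) (N + 4 * N.choose d) hcard (R × R)
    (fun _ => 1 / (Fintype.card (R × R) : ℝ))
    (fun ω x => (q1 x, (ms d (q2 x + ω.1), ms d (q2 x + ω.2))))
    (fun ω m y => decide (
      (∑ X : Ts N s, rh d (m.1 + q1 y) X.1 * lf ((q2 y + ω.1) X)) = bv d (m.1 + q1 y) m.2.1 ∧
      (∑ X : Ts N s, rh d (m.1 + q1 y) X.1 * lf ((q2 y + ω.2) X)) = bv d (m.1 + q1 y) m.2.2))
    (fun _ => by positivity) ?_ ?_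
  · rw [Finset.sum_const, Finset.card_univ, nsmul_eq_mul]
    field_simp
  · intro x y
    have hB : ∀ ω : R × R, (decide (
        (∑ X : Ts N s, rh d (q1 x + q1 y) X.1 * lf ((q2 y + ω.1) X)) =
          bv d (q1 x + q1 y) (ms d (q2 x + ω.1)) ∧
        (∑ X : Ts N s, rh d (q1 x + q1 y) X.1 * lf ((q2 y + ω.2) X)) =
          bv d (q1 x + q1 y) (ms d (q2 x + ω.2)))) =
        decide (ck d (q1 x + q1 y) (q2 x + ω.1) (q2 y + ω.1) ∧
          ck d (q1 x + q1 y) (q2 x + ω.2) (q2 y + ω.2)) := by
      intro ω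
      rw [bv_ms, bv_ms]
      exact decide_eq_decide.2 Iff.rfl
    simp only [hB]
    rw [sum_ite_const]
    by_cases hf : ∀ X : Ts N s, q2 (x + y) X ≠ 0 → rh d (q1 (x + y)) X.1 = 0
    · have h1 : xorFn (gg N s d) x y = true := by
        unfold xorFn gg
        exact decide_eq_true hf
      have h2 : (Finset.univ.filter fun ω : R × R =>
          decide (ck d (q1 x + q1 y) (q2 x + ω.1) (q2 y + ω.1) ∧
          ck d (q1 x + q1 y) (q2 x + ω.2) (q2 y + ω.2)) = xorFn (gg N s d) x y) = Finset.univ := by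
        rw [Finset.filter_eq_self]
        intro ω _
        rw [h1]
        exact decide_eq_true ⟨ck_yes _ _ _ _ _ hf, ck_yes _ _ _ _ _ hf⟩
      rw [h2, Finset.card_univ]
      rw [mul_one_div_cancel hposR.ne']
      norm_num
    · have h1 : xorFn (gg N s d) x y = false := by
        unfold xorFn gg
        exact decide_eq_false hf
      push Not at hf
      obtain ⟨X0, hX, hw⟩ := hf
      set P := Finset.univ.filter fun r : R => ck d (q1 x + q1 y) (q2 x + r) (q2 y + r) with hP
      have hP2 : 2 * P.card ≤ Fintype.card R := ck_no d _ _ _ X0 hX hw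
      have h2 : (Finset.univ.filter fun ω : R × R =>
          decide (ck d (q1 x + q1 y) (q2 x + ω.1) (q2 y + ω.1) ∧
          ck d (q1 x + q1 y) (q2 x + ω.2) (q2 y + ω.2)) = xorFn (gg N s d) x y) = (P ×ˢ P)ᶜ := by
        ext ω
        rw [h1]
        simp [hP, Finset.mem_product]
      rw [h2, Finset.card_compl, Finset.card_product]
      have hcc : Fintype.card (R × R) = Fintype.card R * Fintype.card R := Fintype.card_prod _ _
      have h3 : 4 * (P.card * P.card) ≤ Fintype.card (R × R) := by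
        rw [hcc]
        calc 4 * (P.card * P.card) = (2 * P.card) * (2 * P.card) := by ring
          _ ≤ _ := Nat.mul_le_mul hP2 hP2
      have h4 : P.card * P.card ≤ Fintype.card (R × R) := by omega
      rw [Nat.cast_sub h4]
      have h5 : (4 : ℝ) * ((P.card * P.card : ℕ) : ℝ) ≤ (Fintype.card (R × R) : ℝ) := by
        exact_mod_cast h3
      rw [mul_one_div, le_div_iff₀ hposR]
      linarith

/-! ### The lower bound for linear sketches -/

/-- the indicator of `w` -/
def ndi (w : Ts N s) : Fin N → ZMod 2 := fun a => if a ∈ w.1 then 1 else 0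

theorem supp_ndi (w : Ts N s) : supp (ndi w) = w.1 := by
  ext a
  unfold supp ndi
  simp

/-- the embedding of the second part -/
noncomputable def emm (N s : ℕ) : (Ts N s → ZMod 2) →ₗ[ZMod 2] (Fin (N + N.choose s) → ZMod 2) where
  toFun z := ins 0 z
  map_add' x y := by
    funext i
    have key : ∀ t : Fin N ⊕ Ts N s, Sum.elim (0 : Fin N → ZMod 2) (x + y) t =
        Sum.elim (0 : Fin N → ZMod 2) x t + Sum.elim (0 : Fin N → ZMod 2) y t := by
      rintro (a | a) <;> simp
    exact key (es N s i)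
  map_smul' c x := by
    funext i
    have key : ∀ t : Fin N ⊕ Ts N s, Sum.elim (0 : Fin N → ZMod 2) (c • x) t =
        c * Sum.elim (0 : Fin N → ZMod 2) x t := by
      rintro (a | a) <;> simp
    exact key (es N s i)

theorem ins_eq (w : Fin N → ZMod 2) (z : Ts N s → ZMod 2) : ins w z = ins w 0 + emm N s z := by
  funext i
  have key : ∀ t : Fin N ⊕ Ts N s, Sum.elim w z t =
      Sum.elim w (0 : Ts N s → ZMod 2) t + Sum.elim (0 : Fin N → ZMod 2) z t := by
    rintro (a | a) <;> simp
  exact key (es N s i)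

/-- `X` is allowed for `w` -/
def Al (d : ℕ) (w X : Ts N s) : Prop := (((X.1 ∩ w.1).card.choose d : ℕ) : ZMod 3) = 0

/-- inputs with value `1` -/
def Ys (d : ℕ) (w : Ts N s) : Submodule (ZMod 2) (Ts N s → ZMod 2) where
  carrier := {y | ∀ X : Ts N s, ¬ Al d w X → y X = 0}
  zero_mem' := fun _ _ => rfl
  add_mem' := by
    intro a b ha hb X hX
    show a X + b X = 0
    rw [ha X hX, hb X hX, add_zero]
  smul_mem' := by
    intro c a ha X hX
    show c * a X = 0
    rw [ha X hX, mul_zero]

theorem gg_yes (d : ℕ) (w : Ts N s) (y : Ts N s → ZMod 2) (hy : y ∈ Ys d w) :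
    gg N s d (ins (ndi w) y) = true := by
  unfold gg
  refine decide_eq_true fun X hX => ?_
  rw [q2_ins] at hX
  rw [q1_ins, rh, supp_ndi]
  by_contra h
  exact hX (hy X h)

theorem gg_no (d : ℕ) (w : Ts N s) (hd : ((s.choose d : ℕ) : ZMod 3) ≠ 0)
    (y : Ts N s → ZMod 2) (hy : y ∈ Ys d w) :
    gg N s d (ins (ndi w) (y + ssg w)) = false := by
  unfold gg
  refine decide_eq_false fun h => ?_
  have h3 : ¬ Al d w w := by
    unfold Al
    rw [Finset.inter_self, w.2]
    exact hd
  have h1 := h w (by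
    rw [q2_ins, Pi.add_apply, hy w h3, ssg_self]; decide)
  rw [q1_ins, rh, supp_ndi] at h1
  exact h3 h1

/-- `w` is good for the sketch `S` -/
def Gd {k : ℕ} (d : ℕ) (S : Fin k → Finset (Fin (N + N.choose s))) (w : Ts N s) : Prop :=
  ∃ γ : Fin k → ZMod 2, (∀ X : Ts N s, Al d w X → ∑ j, γ j * Lm S (emm N s (ssg X)) j = 0) ∧
    ∑ j, γ j * Lm S (emm N s (ssg w)) j = 1

theorem bad_ex {k : ℕ} (d : ℕ) (S : Fin k → Finset (Fin (N + N.choose s))) (w : Ts N s)
    (h : ¬ Gd d S w) : ∃ y ∈ Ys d w, Lm S (emm N s y) = Lm S (emm N s (ssg w)) := by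
  by_contra hno
  apply h
  have hv : Lm S (emm N s (ssg w)) ∉ (Ys d w).map ((Lm S).comp (emm N s)) := by
    rintro ⟨y, hy, e⟩
    exact hno ⟨y, hy, e⟩
  obtain ⟨f, hf1, hf2⟩ := Submodule.exists_le_ker_of_notMem hv
  have hrep : ∀ v : Fin k → ZMod 2, f v = ∑ j, f (Pi.single j 1) * v j := by
    intro v
    conv_lhs => rw [pi_eq_sum_univ v]
    rw [map_sum]
    refine Finset.sum_congr rfl fun j _ => ?_
    rw [map_smul, smul_eq_mul, mul_comm]
    congr 2
    funext i
    by_cases hi : j = i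
    · subst hi; simp
    · simp [hi, Ne.symm hi]
  refine ⟨fun j => f (Pi.single j 1), fun X hX => ?_, ?_⟩
  · rw [← hrep]
    have hm : ssg X ∈ Ys d w := by
      intro X' hX'
      refine ssg_ne ?_
      rintro rfl
      exact hX' hX
    exact hf2 ⟨ssg X, hm, rfl⟩
  · rw [← hrep]
    generalize f (Lm S (emm N s (ssg w))) = t at hf1
    revert t; decide

open Classical in
theorem card_Gd_le {k a b : ℕ} (hs : s + 1 = 2 ^ a * 3 ^ b)
    (S : Fin k → Finset (Fin (N + N.choose s))) :
    (Finset.univ.filter fun w : Ts N s => Gd (3 ^ b - 1) S w).card ≤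
      k * N.choose (2 ^ a - 1) := by
  set d := 2 ^ a - 1 with hdef
  set G := Finset.univ.filter fun w : Ts N s => Gd (3 ^ b - 1) S w with hG
  have hg : ∀ w : G, Gd (3 ^ b - 1) S w.1 := fun w => (Finset.mem_filter.1 w.2).2
  choose γ h0 h1 using hg
  let ind' : Ts N s → Ts N d → ZMod 2 := fun X D => if D.1 ⊆ X.1 then 1 else 0
  let V : Matrix G (Fin k × Ts N d) (ZMod 2) := fun w i => γ w i.1 * ind' w.1 i.2
  let U : Matrix (Fin k × Ts N d) G (ZMod 2) := fun i X =>
    Lm S (emm N s (ssg X.1)) i.1 * ind' X.1 i.2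
  have hVU : V * U = 1 := by
    ext w X
    rw [Matrix.mul_apply]
    have e : ∑ i : Fin k × Ts N d, V w i * U i X =
        (∑ j, γ w j * Lm S (emm N s (ssg X.1)) j) *
          (((X.1.1 ∩ w.1.1).card.choose d : ℕ) : ZMod 2) := by
      rw [Fintype.sum_prod_type, Finset.sum_mul]
      refine Finset.sum_congr rfl fun j _ => ?_
      have e2 : (((X.1.1 ∩ w.1.1).card.choose d : ℕ) : ZMod 2) =
          ∑ D, ind' w.1 D * ind' X.1 D := by
        rw [choose_count, Finset.card_filter, Nat.cast_sum]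
        refine Finset.sum_congr rfl fun D _ => ?_
        simp only [ind']
        by_cases h1 : D.1 ⊆ X.1.1 <;> by_cases h2 : D.1 ⊆ w.1.1 <;> simp [h1, h2]
      rw [e2, Finset.mul_sum]
      refine Finset.sum_congr rfl fun D _ => ?_
      show γ w j * ind' w.1 D * (Lm S (emm N s (ssg X.1)) j * ind' X.1 D) = _
      ring
    rw [e, Matrix.one_apply]
    by_cases hwX : w = X
    · subst hwX
      have h2 : (((w.1.1 ∩ w.1.1).card.choose d : ℕ) : ZMod 2) ≠ 0 := by
        rw [Finset.inter_self, w.1.2, hdef, cast_ne_zero 2 a s, hs]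
        exact Dvd.intro _ rfl
      rw [if_pos rfl, h1, one_mul]
      generalize (((w.1.1 ∩ w.1.1).card.choose d : ℕ) : ZMod 2) = t at h2
      revert t; decide
    · rw [if_neg hwX]
      have hle : (X.1.1 ∩ w.1.1).card < s := by
        by_contra hlt
        push Not at hlt
        have h3 : X.1.1 ∩ w.1.1 = X.1.1 := Finset.eq_of_subset_of_card_le
          Finset.inter_subset_left (by rw [X.1.2]; omega)
        have h4 : X.1.1 ∩ w.1.1 = w.1.1 := Finset.eq_of_subset_of_card_le
          Finset.inter_subset_right (by rw [w.1.2]; omega)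
        exact hwX (Subtype.ext (Subtype.ext (h4.symm.trans h3)))
      by_cases h5 : (((X.1.1 ∩ w.1.1).card.choose (3 ^ b - 1) : ℕ) : ZMod 3) = 0
      · rw [h0 w X.1 h5, zero_mul]
      · by_cases h6 : (((X.1.1 ∩ w.1.1).card.choose d : ℕ) : ZMod 2) = 0
        · rw [h6, mul_zero]
        · exfalso
          have h7 := (cast_ne_zero 3 b _).1 h5
          have h8 := (cast_ne_zero 2 a _).1 h6
          have h9 : 2 ^ a * 3 ^ b ∣ (X.1.1 ∩ w.1.1).card + 1 :=
            Nat.Coprime.mul_dvd_of_dvd_of_dvd (Nat.Coprime.pow a b (by norm_num)) h8 h7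
          rw [← hs] at h9
          have := Nat.le_of_dvd (by omega) h9
          omega
  have hr : (1 : Matrix G G (ZMod 2)).rank = Fintype.card G := Matrix.rank_one
  have hr2 : (V * U).rank ≤ V.rank := Matrix.rank_mul_le_left V U
  have hr3 : V.rank ≤ Fintype.card (Fin k × Ts N d) := Matrix.rank_le_card_width V
  rw [hVU, hr] at hr2
  have h6 : Fintype.card (Fin k × Ts N d) = k * N.choose d := by
    rw [Fintype.card_prod, Fintype.card_fin, card_Ts]
  have h7 : Fintype.card G = G.card := Fintype.card_coe G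
  omega

open Classical in
/-- count of the correct answers on a pair of inputs -/
noncomputable def cn {k : ℕ} (d : ℕ) (S : Fin k → Finset (Fin (N + N.choose s)))
    (g : (Fin k → ZMod 2) → Bool) (w : Ts N s) : ℕ :=
  ∑ y : Ys d w, ((if g (Lm S (ins (ndi w) y.1)) = true then 1 else 0) +
    (if g (Lm S (ins (ndi w) (y.1 + ssg w))) = false then 1 else 0))

theorem cn_le {k : ℕ} (d : ℕ) (S : Fin k → Finset (Fin (N + N.choose s)))
    (g : (Fin k → ZMod 2) → Bool) (w : Ts N s) : cn d S g w ≤ 2 * Nat.card (Ys d w) := by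
  classical
  unfold cn
  rw [Nat.card_eq_fintype_card, ← Finset.card_univ, mul_comm, ← smul_eq_mul, ← Finset.sum_const]
  refine Finset.sum_le_sum fun y _ => ?_
  split_ifs <;> norm_num

theorem cn_bad {k : ℕ} (d : ℕ) (S : Fin k → Finset (Fin (N + N.choose s)))
    (g : (Fin k → ZMod 2) → Bool) (w : Ts N s) (h : ¬ Gd d S w) :
    cn d S g w = Nat.card (Ys d w) := by
  classical
  obtain ⟨y0, hy0, he⟩ := bad_ex d S w h
  unfold cn
  rw [Finset.sum_add_distrib]
  have e1 : ∀ y : Ys d w, Lm S (ins (ndi w) (y.1 + ssg w)) =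
      Lm S (ins (ndi w) ((Equiv.addRight (⟨y0, hy0⟩ : Ys d w)) y).1) := by
    intro y
    show Lm S (ins (ndi w) (y.1 + ssg w)) = Lm S (ins (ndi w) (y.1 + y0))
    rw [ins_eq, ins_eq (ndi w) (y.1 + y0), map_add, map_add, map_add, map_add, map_add, map_add,
      he]
  have e2 : (∑ y : Ys d w, if g (Lm S (ins (ndi w) (y.1 + ssg w))) = false then 1 else 0) =
      ∑ y : Ys d w, if g (Lm S (ins (ndi w) y.1)) = false then 1 else 0 := by
    simp only [e1]
    exact Equiv.sum_comp (Equiv.addRight (⟨y0, hy0⟩ : Ys d w))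
      (fun y : Ys d w => if g (Lm S (ins (ndi w) y.1)) = false then 1 else 0)
  rw [e2, ← Finset.sum_add_distrib, Nat.card_eq_fintype_card, ← Finset.card_univ,
    Finset.card_eq_sum_ones]
  refine Finset.sum_congr rfl fun y _ => ?_
  cases g (Lm S (ins (ndi w) y.1)) <;> simp

theorem sk_bound {k a b : ℕ} (hs : s + 1 = 2 ^ a * 3 ^ b)
    (h : HasSketch (gg N s (3 ^ b - 1)) k) :
    N.choose s ≤ 3 * (k * N.choose (2 ^ a - 1)) := by
  classical
  set d := 3 ^ b - 1 with hd
  have hd0 : ((s.choose d : ℕ) : ZMod 3) ≠ 0 := by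
    rw [hd, cast_ne_zero 3 b s, hs]
    exact Dvd.intro_left _ rfl
  obtain ⟨p, g, hp0, hp1, hsk⟩ := h
  -- per w
  have hw : ∀ w : Ts N s, (1 : ℝ) / 3 ≤ ∑ S, if Gd d S w then p S else 0 := by
    intro w
    have hcard : (0 : ℝ) < Nat.card (Ys d w) := by
      have : 0 < Nat.card (Ys d w) := Nat.card_pos
      exact_mod_cast this
    have h1 : (4 : ℝ) / 3 * Nat.card (Ys d w) ≤ ∑ S, p S * cn d S (g S) w := by
      have h2 : ∀ y : Ys d w, (4 : ℝ) / 3 ≤ ∑ S, p S *
          (((if g S (Lm S (ins (ndi w) y.1)) = true then 1 else 0) +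
          (if g S (Lm S (ins (ndi w) (y.1 + ssg w))) = false then 1 else 0) : ℕ) : ℝ) := by
        intro y
        have ha := hsk (ins (ndi w) y.1)
        have hb := hsk (ins (ndi w) (y.1 + ssg w))
        rw [gg_yes d w y.1 y.2] at ha
        rw [gg_no d w hd0 y.1 y.2] at hb
        have hc : ∑ S, p S *
          (((if g S (Lm S (ins (ndi w) y.1)) = true then 1 else 0) +
          (if g S (Lm S (ins (ndi w) (y.1 + ssg w))) = false then 1 else 0) : ℕ) : ℝ) =
          (∑ S, if g S (fun j => chi (S j) (ins (ndi w) y.1)) = true then p S else 0) +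
          (∑ S, if g S (fun j => chi (S j) (ins (ndi w) (y.1 + ssg w))) = false
            then p S else 0) := by
          rw [← Finset.sum_add_distrib]
          refine Finset.sum_congr rfl fun S _ => ?_
          have q1 : (Lm S (ins (ndi w) y.1)) = fun j => chi (S j) (ins (ndi w) y.1) := rfl
          have q2 : (Lm S (ins (ndi w) (y.1 + ssg w))) =
            fun j => chi (S j) (ins (ndi w) (y.1 + ssg w)) := rfl
          rw [q1, q2]
          split_ifs <;> push_cast <;> ring
        rw [hc]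
        linarith
      have h3 : ∑ S, p S * (cn d S (g S) w : ℝ) = ∑ y : Ys d w, ∑ S, p S *
          (((if g S (Lm S (ins (ndi w) y.1)) = true then 1 else 0) +
          (if g S (Lm S (ins (ndi w) (y.1 + ssg w))) = false then 1 else 0) : ℕ) : ℝ) := by
        rw [Finset.sum_comm]
        refine Finset.sum_congr rfl fun S _ => ?_
        rw [← Finset.mul_sum]
        congr 1
        unfold cn
        rw [Nat.cast_sum]
      rw [h3, Nat.card_eq_fintype_card, ← Finset.card_univ, mul_comm, ← nsmul_eq_mul,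
        ← Finset.sum_const]
      exact Finset.sum_le_sum fun y _ => h2 y
    have h4 : ∑ S, p S * (cn d S (g S) w : ℝ) ≤
        ∑ S, (p S + if Gd d S w then p S else 0) * Nat.card (Ys d w) := by
      refine Finset.sum_le_sum fun S _ => ?_
      by_cases hG : Gd d S w
      · rw [if_pos hG]
        have : (cn d S (g S) w : ℝ) ≤ 2 * Nat.card (Ys d w) := by
          exact_mod_cast cn_le d S (g S) w
        nlinarith [hp0 S]
      · rw [if_neg hG, cn_bad d S (g S) w hG, add_zero]
    rw [← Finset.sum_mul, Finset.sum_add_distrib, hp1] at h4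
    have h5 := h1.trans h4
    have h6 := le_of_mul_le_mul_right h5 hcard
    linarith
  -- sum over w
  have h7 : (Fintype.card (Ts N s) : ℝ) * (1 / 3) ≤
      ∑ w : Ts N s, ∑ S, if Gd d S w then p S else 0 := by
    rw [← Finset.card_univ, ← nsmul_eq_mul, ← Finset.sum_const]
    exact Finset.sum_le_sum fun w _ => hw w
  have h8 : ∑ w : Ts N s, ∑ S, (if Gd d S w then p S else 0) ≤
      ((k * N.choose (2 ^ a - 1) : ℕ) : ℝ) := by
    rw [Finset.sum_comm]
    calc ∑ S, ∑ w : Ts N s, (if Gd d S w then p S else 0)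
        = ∑ S, p S * ((Finset.univ.filter fun w : Ts N s => Gd d S w).card : ℝ) := by
          refine Finset.sum_congr rfl fun S _ => ?_
          rw [sum_ite_const, mul_comm]
      _ ≤ ∑ S, p S * ((k * N.choose (2 ^ a - 1) : ℕ) : ℝ) := by
          refine Finset.sum_le_sum fun S _ => mul_le_mul_of_nonneg_left ?_ (hp0 S)
          exact_mod_cast card_Gd_le hs S
      _ = _ := by rw [← Finset.sum_mul, hp1, one_mul]
  have h9 := h7.trans h8
  rw [card_Ts] at h9
  have h10 : (N.choose s : ℝ) ≤ ((3 * (k * N.choose (2 ^ a - 1)) : ℕ) : ℝ) := by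
    push_cast at h9 ⊢
    linarith
  exact_mod_cast h10

end Pool.Agent.H616R2.Sketch
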