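import Mathlib
import Pool.Agent.H616R2.SketchStrong

set_option autoImplicit false

/-!
# Asymptotic form of the separation
-/

namespace Pool.Agent.H616R2.Sketch

open Finset Pool.Agent.Helper12.SketchSep Filter

theorem lower_choose (N s : ℕ) (hs : 1 ≤ s) (hN : 2 * s ≤ N) :
    ((N : ℝ) / 2) ^ s / (s.factorial : ℝ) ≤ (N.choose s : ℝ) := by
  refine le_trans ?_ (Nat.pow_le_choose s N)
  have h1 : (N : ℝ) / 2 ≤ ((N + 1 - s : ℕ) : ℝ) := by
    rw [div_le_iff₀ (by norm_num)]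
    have : N ≤ (N + 1 - s) * 2 := by omega
    exact_mod_cast this
  gcongr

/-- the separation for `ε` -/
theorem sep_eps (ε : ℝ) (hε : 0 < ε) (hε1 : ε < 1) (n0 : ℕ) :
    ∃ n, n0 ≤ n ∧ 2 ≤ n ∧ ∃ f : (Fin n → ZMod 2) → Bool,
      (Rone (xorFn f) : ℝ) ≤ (n : ℝ) ^ ε ∧ (n : ℝ) ^ (1 - ε) ≤ Rlin f := by
  -- the parameter `k` with `ε 2^k > 1`
  obtain ⟨k, hk⟩ : ∃ k : ℕ, 1 / ε < 2 ^ k := pow_unbounded_of_one_lt _ (by norm_num)
  have hk' : 1 < ε * 2 ^ k := by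
    rw [div_lt_iff₀ hε] at hk
    linarith
  have hk1 : 1 ≤ k := by
    rcases Nat.eq_zero_or_pos k with rfl | h
    · simp at hk'; linarith
    · exact h
  set s : ℕ := 2 ^ k * 3 ^ k - 1 with hs
  have h3k : 3 ≤ 3 ^ k := by
    calc 3 = 3 ^ 1 := (pow_one 3).symm
      _ ≤ 3 ^ k := Nat.pow_le_pow_right (by norm_num) hk1
  have h2k : 2 ≤ 2 ^ k := by
    calc 2 = 2 ^ 1 := (pow_one 2).symm
      _ ≤ 2 ^ k := Nat.pow_le_pow_right (by norm_num) hk1
  have h23 : 2 ^ k ≤ 3 ^ k := Nat.pow_le_pow_left (by norm_num) k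
  have hprod : 6 ≤ 2 ^ k * 3 ^ k := Nat.mul_le_mul h2k h3k
  have hs1 : s + 1 = 2 ^ k * 3 ^ k := by omega
  set d : ℕ := 3 ^ k - 1 with hd
  have hd2 : 2 ≤ d := by omega
  -- `s ε > d`
  have hsd : (d : ℝ) < s * ε := by
    have h1 : ((s : ℝ) + 1) = 2 ^ k * 3 ^ k := by exact_mod_cast hs1
    have h2 : (d : ℝ) + 1 = 3 ^ k := by
      have : d + 1 = 3 ^ k := by omega
      exact_mod_cast this
    have h3 : (s : ℝ) * ε = (ε * 2 ^ k) * 3 ^ k - ε := by
      have : (s : ℝ) = 2 ^ k * 3 ^ k - 1 := by linarith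
      rw [this]; ring
    have h4 : (3 : ℝ) ^ k < (ε * 2 ^ k) * 3 ^ k := by
      have : (0 : ℝ) < 3 ^ k := by positivity
      nlinarith
    rw [h3]
    linarith
  -- largeness
  set c : ℝ := ((1 / 2 : ℝ) ^ s / (s.factorial : ℝ)) ^ ε with hc
  have hc0 : 0 < c := by positivity
  have hlim : Tendsto (fun N : ℕ => (N : ℝ) ^ (s * ε - d)) atTop atTop :=
    (tendsto_rpow_atTop (by linarith)).comp tendsto_natCast_atTop_atTop
  obtain ⟨N, hN1, hN2⟩ := ((hlim.eventually_ge_atTop (30 / c)).and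
    (eventually_ge_atTop (max (2 * s) (n0 + 2)))).exists
  have hN3 : 2 * s ≤ N := le_trans (le_max_left _ _) hN2
  have hN4 : n0 + 2 ≤ N := le_trans (le_max_right _ _) hN2
  have hNpos : (0 : ℝ) < N := by
    have : 0 < N := by omega
    exact_mod_cast this
  have hN1' : (1 : ℝ) ≤ N := by
    have : 1 ≤ N := by omega
    exact_mod_cast this
  set C : ℝ := (N.choose s : ℝ) with hC
  have hs0 : 1 ≤ s := by omega
  have hCpos : 0 < C := by
    have : 0 < N.choose s := Nat.choose_pos (by omega)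
    rw [hC]; exact_mod_cast this
  have hC1 : 1 ≤ C := by
    have : 1 ≤ N.choose s := Nat.choose_pos (by omega)
    rw [hC]; exact_mod_cast this
  -- the key inequality
  have key : 30 * (N : ℝ) ^ d ≤ C ^ ε := by
    have h1 : ((1 / 2 : ℝ) ^ s / (s.factorial : ℝ)) * (N : ℝ) ^ s ≤ C := by
      have := lower_choose N s hs0 hN3
      calc ((1 / 2 : ℝ) ^ s / (s.factorial : ℝ)) * (N : ℝ) ^ s
          = ((N : ℝ) / 2) ^ s / (s.factorial : ℝ) := by rw [div_pow, div_pow, one_pow]; ring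
        _ ≤ C := this
    have h2 : c * (N : ℝ) ^ (s * ε) ≤ C ^ ε := by
      have h3 : (((1 / 2 : ℝ) ^ s / (s.factorial : ℝ)) * (N : ℝ) ^ s) ^ ε =
          c * (N : ℝ) ^ (s * ε) := by
        rw [Real.mul_rpow (by positivity) (by positivity), ← Real.rpow_natCast (N : ℝ) s,
          ← Real.rpow_mul hNpos.le]
      rw [← h3]
      exact Real.rpow_le_rpow (by positivity) h1 hε.le
    refine le_trans ?_ h2
    have h4 : (N : ℝ) ^ (s * ε) = (N : ℝ) ^ (s * ε - d) * (N : ℝ) ^ d := by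
      rw [← Real.rpow_natCast (N : ℝ) d, ← Real.rpow_add hNpos]
      congr 1; ring
    rw [h4, ← mul_assoc]
    refine mul_le_mul_of_nonneg_right ?_ (by positivity)
    rw [div_le_iff₀ hc0] at hN1
    linarith
  have hNC : N ≤ N.choose s := by
    have h1 : (N : ℝ) ≤ C := by
      have h2 : (N : ℝ) ≤ (N : ℝ) ^ d := by
        calc (N : ℝ) = (N : ℝ) ^ 1 := (pow_one _).symm
          _ ≤ (N : ℝ) ^ d := pow_le_pow_right₀ hN1' (by omega)
      have h3 : C ^ ε ≤ C := by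
        calc C ^ ε ≤ C ^ (1 : ℝ) := Real.rpow_le_rpow_of_exponent_le hC1 hε1.le
          _ = C := Real.rpow_one C
      have h4 : (0 : ℝ) < (N : ℝ) ^ d := by positivity
      linarith
    rw [hC] at h1; exact_mod_cast h1
  set n : ℕ := N + N.choose s with hn
  have hnC : (n : ℝ) = N + C := by rw [hn]; push_cast; rfl
  have hnC1 : C ≤ n := by rw [hnC]; linarith
  have hnC2 : (n : ℝ) ≤ 2 * C := by
    rw [hnC]
    have : (N : ℝ) ≤ C := by rw [hC]; exact_mod_cast hNC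
    linarith
  refine ⟨n, by omega, by omega, gg N s d, ?_, ?_⟩
  · have h1 : Rone (xorFn (gg N s d)) ≤ N + 4 * N.choose d := Nat.sInf_le (oneWay_gg N s d)
    have h2 : (N.choose d : ℝ) ≤ (N : ℝ) ^ d := by exact_mod_cast Nat.choose_le_pow N d
    have h3 : (N : ℝ) ≤ (N : ℝ) ^ d := by
      calc (N : ℝ) = (N : ℝ) ^ 1 := (pow_one _).symm
        _ ≤ (N : ℝ) ^ d := pow_le_pow_right₀ hN1' (by omega)
    have h4 : (Rone (xorFn (gg N s d)) : ℝ) ≤ N + 4 * (N.choose d : ℝ) := by exact_mod_cast h1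
    have h5 : C ^ ε ≤ (n : ℝ) ^ ε := Real.rpow_le_rpow hCpos.le hnC1 hε.le
    have h6 : (0 : ℝ) ≤ (N : ℝ) ^ d := by positivity
    linarith
  · have hne : {k' | HasSketch (gg N s d) k'}.Nonempty := ⟨_, hasSketch_self _⟩
    have h1 : HasSketch (gg N s d) (Rlin (gg N s d)) := Nat.sInf_mem hne
    have h2 := sk_bound hs1 h1
    have h3 : C ≤ 3 * ((Rlin (gg N s d) : ℝ) * (N.choose (2 ^ k - 1) : ℝ)) := by
      rw [hC]; exact_mod_cast h2
    have h4 : (N.choose (2 ^ k - 1) : ℝ) ≤ (N : ℝ) ^ d := by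
      calc (N.choose (2 ^ k - 1) : ℝ) ≤ (N : ℝ) ^ (2 ^ k - 1) := by
            exact_mod_cast Nat.choose_le_pow N _
        _ ≤ (N : ℝ) ^ d := pow_le_pow_right₀ hN1' (by omega)
    have hR0 : (0 : ℝ) ≤ Rlin (gg N s d) := Nat.cast_nonneg _
    have h5 : C ≤ (Rlin (gg N s d) : ℝ) * (C ^ ε / 10) := by
      calc C ≤ 3 * ((Rlin (gg N s d) : ℝ) * (N.choose (2 ^ k - 1) : ℝ)) := h3
        _ ≤ 3 * ((Rlin (gg N s d) : ℝ) * (N : ℝ) ^ d) := by gcongr
        _ = (Rlin (gg N s d) : ℝ) * (3 * (N : ℝ) ^ d) := by ring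
        _ ≤ _ := mul_le_mul_of_nonneg_left (by linarith) hR0
    have h6 : C = C ^ (1 - ε) * C ^ ε := by
      rw [← Real.rpow_add hCpos]
      simp
    have hCe : 0 < C ^ ε := by positivity
    have h7 : C ^ (1 - ε) ≤ (Rlin (gg N s d) : ℝ) / 10 := by
      refine le_of_mul_le_mul_right ?_ hCe
      rw [← h6]
      linarith
    have h8 : (n : ℝ) ^ (1 - ε) ≤ 2 * C ^ (1 - ε) := by
      calc (n : ℝ) ^ (1 - ε) ≤ (2 * C) ^ (1 - ε) :=
            Real.rpow_le_rpow (by positivity) hnC2 (by linarith)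
        _ = 2 ^ (1 - ε) * C ^ (1 - ε) := Real.mul_rpow (by norm_num) hCpos.le
        _ ≤ 2 * C ^ (1 - ε) := by
          refine mul_le_mul_of_nonneg_right ?_ (by positivity)
          calc (2 : ℝ) ^ (1 - ε) ≤ 2 ^ (1 : ℝ) :=
                Real.rpow_le_rpow_of_exponent_le (by norm_num) (by linarith)
            _ = 2 := Real.rpow_one 2
    linarith

/-- the trivial bound -/
theorem rlin_le {n : ℕ} (f : (Fin n → ZMod 2) → Bool) : Rlin f ≤ n :=
  Nat.sInf_le (hasSketch_self f)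

/-- one sequence for all `ε` -/
theorem sep_seq : ∃ f : (n : ℕ) → (Fin n → ZMod 2) → Bool,
    ∀ ε : ℝ, 0 < ε → ∀ n0 : ℕ, ∃ n, n0 ≤ n ∧ 2 ≤ n ∧
      (Rone (xorFn (f n)) : ℝ) ≤ (n : ℝ) ^ ε ∧ (n : ℝ) ^ (1 - ε) ≤ Rlin (f n) := by
  classical
  -- the functions with the largest ratio
  have hex : ∀ n : ℕ, ∃ f : (Fin n → ZMod 2) → Bool, ∀ g : (Fin n → ZMod 2) → Bool,
      (Rlin g : ℝ) / (Rone (xorFn g) + 1) ≤ (Rlin f : ℝ) / (Rone (xorFn f) + 1) := by
    intro n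
    obtain ⟨f, _, hf⟩ := Finset.exists_max_image
      (Finset.univ : Finset ((Fin n → ZMod 2) → Bool))
      (fun g => (Rlin g : ℝ) / (Rone (xorFn g) + 1)) ⟨fun _ => false, Finset.mem_univ _⟩
    exact ⟨f, fun g => hf g (Finset.mem_univ _)⟩
  choose f hf using hex
  refine ⟨f, fun ε hε n0 => ?_⟩
  -- use `δ = min ε 1 / 4`
  set δ : ℝ := min ε 1 / 4 with hδ
  have hδ0 : 0 < δ := by have := lt_min hε one_pos; positivity
  have hδε : 4 * δ ≤ ε := by rw [hδ]; linarith [min_le_left ε 1]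
  have hδ1 : δ ≤ 1 / 4 := by rw [hδ]; linarith [min_le_right ε 1]
  have hlim : Tendsto (fun N : ℕ => (N : ℝ) ^ δ) atTop atTop :=
    (tendsto_rpow_atTop hδ0).comp tendsto_natCast_atTop_atTop
  obtain ⟨n1, hn1⟩ := Filter.eventually_atTop.1 (hlim.eventually_ge_atTop 2)
  obtain ⟨n, hn, hn2, g, hg1, hg2⟩ := sep_eps δ hδ0 (by linarith) (max n0 n1)
  have hnn1 := hn1 n (le_trans (le_max_right _ _) hn)
  have hnpos : (0 : ℝ) < n := by
    have : 0 < n := by omega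
    exact_mod_cast this
  have hn1' : (1 : ℝ) ≤ n := by
    have : 1 ≤ n := by omega
    exact_mod_cast this
  have h2 : (2 : ℝ) ≤ (n : ℝ) ^ δ := hnn1
  -- ratio of `g`
  have h3 : (n : ℝ) ^ (1 - 3 * δ) ≤ (Rlin g : ℝ) / (Rone (xorFn g) + 1) := by
    rw [le_div_iff₀ (by positivity)]
    calc (n : ℝ) ^ (1 - 3 * δ) * (Rone (xorFn g) + 1)
        ≤ (n : ℝ) ^ (1 - 3 * δ) * ((n : ℝ) ^ δ * (n : ℝ) ^ δ) := by
          refine mul_le_mul_of_nonneg_left ?_ (by positivity)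
          nlinarith
      _ = (n : ℝ) ^ (1 - δ) := by
          rw [← Real.rpow_add hnpos, ← Real.rpow_add hnpos]
          congr 1; ring
      _ ≤ _ := hg2
  have h4 := h3.trans (hf n g)
  rw [le_div_iff₀ (by positivity)] at h4
  have hR : (Rlin (f n) : ℝ) ≤ n := by exact_mod_cast rlin_le (f n)
  refine ⟨n, le_trans (le_max_left _ _) hn, hn2, ?_, ?_⟩
  · have h5 : (n : ℝ) ^ (1 - 3 * δ) * (Rone (xorFn (f n)) + 1) ≤
        (n : ℝ) ^ (1 - 3 * δ) * (n : ℝ) ^ (3 * δ) := by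
      refine h4.trans (hR.trans (le_of_eq ?_))
      rw [← Real.rpow_add hnpos]
      simp
    have h6 := le_of_mul_le_mul_left h5 (by positivity)
    have h7 : (n : ℝ) ^ (3 * δ) ≤ (n : ℝ) ^ ε :=
      Real.rpow_le_rpow_of_exponent_le hn1' (by linarith)
    linarith
  · calc (n : ℝ) ^ (1 - ε) ≤ (n : ℝ) ^ (1 - 3 * δ) :=
          Real.rpow_le_rpow_of_exponent_le hn1' (by linarith)
      _ = (n : ℝ) ^ (1 - 3 * δ) * 1 := (mul_one _).symm
      _ ≤ (n : ℝ) ^ (1 - 3 * δ) * (Rone (xorFn (f n)) + 1) := by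
          refine mul_le_mul_of_nonneg_left ?_ (by positivity)
          have : (0 : ℝ) ≤ Rone (xorFn (f n)) := Nat.cast_nonneg _
          linarith
      _ ≤ _ := h4

end Pool.Agent.H616R2.Sketch
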